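import Pool.Agent.Q55.SF.Fwd

/-! # Finiteness for sums of copies of `X` implies that the Galois algebra is open -/

set_option autoImplicit false

namespace Pool.Agent.Q55.SF

open Matrix

section lift

variable {m n : ℕ} {ℓ : ℕ} [Fact ℓ.Prime]

theorem exists_lift (A : Matrix (Fin m) (Fin n) ℚ_[ℓ]) (h : ∀ i j, ‖A i j‖ ≤ 1) :
    ∃ B : Matrix (Fin m) (Fin n) ℤ_[ℓ], B.map (algebraMap ℤ_[ℓ] ℚ_[ℓ]) = A :=
  ⟨fun i j => ⟨A i j, h i j⟩, rfl⟩

theorem norm_pow_mul_le (x : ℚ_[ℓ]) (a b : ℕ) (hab : a ≤ b) (h : ‖(ℓ : ℚ_[ℓ]) ^ a * x‖ ≤ 1) :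
    ‖(ℓ : ℚ_[ℓ]) ^ b * x‖ ≤ 1 := by
  obtain ⟨t, rfl⟩ := Nat.exists_eq_add_of_le hab
  rw [pow_add, mul_right_comm, norm_mul]
  have h1 : ‖(ℓ : ℚ_[ℓ]) ^ t‖ ≤ 1 := by
    rw [norm_pow]
    exact pow_le_one₀ (norm_nonneg _) (by
      rw [Padic.norm_p]
      exact inv_le_one_of_one_le₀ (by exact_mod_cast (Fact.out : ℓ.Prime).one_lt.le))
  calc ‖(ℓ : ℚ_[ℓ]) ^ a * x‖ * ‖(ℓ : ℚ_[ℓ]) ^ t‖ ≤ 1 * 1 :=
        mul_le_mul h h1 (norm_nonneg _) zero_le_one
    _ = 1 := one_mul 1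

theorem exists_pow_mul_le (x : ℚ_[ℓ]) : ∃ k : ℕ, ‖(ℓ : ℚ_[ℓ]) ^ k * x‖ ≤ 1 := by
  have hp : (1 : ℝ) < ℓ := by exact_mod_cast (Fact.out : ℓ.Prime).one_lt
  obtain ⟨k, hk⟩ := pow_unbounded_of_one_lt ‖x‖ hp
  refine ⟨k, ?_⟩
  rw [norm_mul, norm_pow, Padic.norm_p, inv_pow, inv_mul_le_iff₀ (by positivity), mul_one]
  exact hk.le

theorem exists_pow_matrix (A : Matrix (Fin m) (Fin n) ℚ_[ℓ]) :
    ∃ k : ℕ, ∀ i j, ‖(ℓ : ℚ_[ℓ]) ^ k * A i j‖ ≤ 1 := by
  classical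
  choose k hk using fun q : Fin m × Fin n => exists_pow_mul_le (A q.1 q.2)
  exact ⟨Finset.univ.sup k, fun i j => norm_pow_mul_le _ _ _
    (Finset.le_sup (f := k) (Finset.mem_univ (i, j))) (hk (i, j))⟩

theorem exists_pow_family {r : ℕ} (A : Fin r → Matrix (Fin m) (Fin n) ℚ_[ℓ]) :
    ∃ k : ℕ, ∀ k', k ≤ k' → ∀ a i j, ‖(ℓ : ℚ_[ℓ]) ^ k' * A a i j‖ ≤ 1 := by
  classical
  choose k hk using fun a => exists_pow_matrix (A a)
  exact ⟨Finset.univ.sup k, fun k' hk' a i j => norm_pow_mul_le _ _ _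
    ((Finset.le_sup (f := k) (Finset.mem_univ a)).trans hk') (hk a i j)⟩

end lift

theorem norm_rat_le {q : ℚ} {ℓ : ℕ} [Fact ℓ.Prime] (h : q.den < ℓ) :
    ‖algebraMap ℚ ℚ_[ℓ] q‖ ≤ 1 := by
  rw [eq_ratCast]
  refine Padic.norm_rat_le_one fun hd => ?_
  exact absurd (Nat.le_of_dvd q.pos hd) (not_le.mpr h)

theorem exists_bound {r m n : ℕ} (A : Fin r → Matrix (Fin m) (Fin n) ℚ) :
    ∃ N : ℕ, ∀ (ℓ : ℕ) [Fact ℓ.Prime], N < ℓ → ∀ a i j, ‖algebraMap ℚ ℚ_[ℓ] (A a i j)‖ ≤ 1 := by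
  classical
  refine ⟨Finset.univ.sup fun q : Fin r × Fin m × Fin n => (A q.1 q.2.1 q.2.2).den,
    fun ℓ _ h a i j => norm_rat_le (lt_of_le_of_lt ?_ h)⟩
  exact Finset.le_sup (f := fun q : Fin r × Fin m × Fin n => (A q.1 q.2.1 q.2.2).den)
    (Finset.mem_univ (a, i, j))

theorem map_inj {m n : ℕ} {ℓ : ℕ} [Fact ℓ.Prime] {A B : Matrix (Fin m) (Fin n) ℤ_[ℓ]}
    (h : A.map (algebraMap ℤ_[ℓ] ℚ_[ℓ]) = B.map (algebraMap ℤ_[ℓ] ℚ_[ℓ])) : A = B := by
  ext i j
  exact FaithfulSMul.algebraMap_injective ℤ_[ℓ] ℚ_[ℓ] (congrFun (congrFun h i) j)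

variable {G : Type} [Group G] {D : Motives G}

/-- the vector `∑ i_a e_a`, the column map `z ↦ (p_a z)` and the operator `∑ i_a c p_a`, all
multiplied by powers of `ℓ` -/
theorem transfer (X Z : D.Obj) (ℓ : ℕ) [Fact ℓ.Prime] (k : ℕ)
    (i : Fin (D.rank X) → Matrix (Fin (D.rank Z)) (Fin (D.rank X)) ℚ)
    (p : Fin (D.rank X) → Matrix (Fin (D.rank X)) (Fin (D.rank Z)) ℚ)
    (hi : ∀ a, i a ∈ D.Hom X Z) (hp : ∀ a, p a ∈ D.Hom Z X) (h1 : ∀ a, p a * i a = 1)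
    (h2 : ∀ a b, a ≠ b → p a * i b = 0) (h3 : ∑ a, i a * p a = 1)
    (hik : ∀ a x y, ‖(ℓ : ℚ_[ℓ]) ^ k * algebraMap ℚ ℚ_[ℓ] (i a x y)‖ ≤ 1)
    (hpk : ∀ a x y, ‖(ℓ : ℚ_[ℓ]) ^ k * algebraMap ℚ ℚ_[ℓ] (p a x y)‖ ≤ 1) :
    ∃ (e : Fin (D.rank Z) → ℤ_[ℓ])
      (Ψ : (Fin (D.rank Z) → ℤ_[ℓ]) →ₗ[ℤ_[ℓ]] Matrix (Fin (D.rank X)) (Fin (D.rank X)) ℤ_[ℓ]),
      (∀ z ∈ orb D Z ℓ e, ∃ w ∈ D.galoisAlgebra X ℓ, Ψ z = (ℓ : ℤ_[ℓ]) ^ (2 * k) • w) ∧
      ∀ c ∈ D.commutant X ℓ, ∃ c' ∈ D.commutant Z ℓ, Ψ (c' *ᵥ e) = (ℓ : ℤ_[ℓ]) ^ (4 * k) • c := by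
  classical
  choose I hI using fun a => exists_lift ((ℓ : ℚ_[ℓ]) ^ k • (i a).map (algebraMap ℚ ℚ_[ℓ]))
    (fun x y => by rw [Matrix.smul_apply, smul_eq_mul, Matrix.map_apply]; exact hik a x y)
  choose Q hQ using fun a => exists_lift ((ℓ : ℚ_[ℓ]) ^ k • (p a).map (algebraMap ℚ ℚ_[ℓ]))
    (fun x y => by rw [Matrix.smul_apply, smul_eq_mul, Matrix.map_apply]; exact hpk a x y)
  -- integral relations
  have r1 : ∀ a b, Q a * I b = if a = b then (ℓ : ℤ_[ℓ]) ^ (2 * k) • 1 else 0 := by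
    intro a b
    apply map_inj
    rw [Matrix.map_mul, hI, hQ, Matrix.smul_mul, Matrix.mul_smul, smul_smul, ← Matrix.map_mul]
    split_ifs with hab
    · subst hab
      rw [h1]
      ext x y
      simp only [Matrix.smul_apply, Matrix.map_apply, smul_eq_mul, map_mul, map_pow, map_natCast,
        Matrix.one_apply, two_mul, pow_add]
      split_ifs <;> simp
    · rw [h2 a b hab, Matrix.map_zero _ (map_zero _), Matrix.map_zero _ (map_zero _), smul_zero]
  have r2 : ∀ (a : Fin (D.rank X)) (g : G), Q a * im D Z ℓ g = im D X ℓ g * Q a := by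
    intro a g
    apply map_inj
    rw [Matrix.map_mul, Matrix.map_mul, hQ, Matrix.smul_mul, Matrix.mul_smul]
    congr 1
    exact D.comm Z X (p a) (hp a) ℓ g
  let e : Fin (D.rank Z) → ℤ_[ℓ] := ∑ a, I a *ᵥ Pi.single a 1
  let Ψ : (Fin (D.rank Z) → ℤ_[ℓ]) →ₗ[ℤ_[ℓ]] Matrix (Fin (D.rank X)) (Fin (D.rank X)) ℤ_[ℓ] :=
    { toFun := fun z => Matrix.of fun x a => (Q a *ᵥ z) x
      map_add' := fun z w => by ext x a; simp [mulVec_add]
      map_smul' := fun r z => by ext x a; simp [mulVec_smul] }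
  have hΨ : ∀ z x a, Ψ z x a = (Q a *ᵥ z) x := fun z x a => rfl
  have hQe : ∀ a, Q a *ᵥ e = (ℓ : ℤ_[ℓ]) ^ (2 * k) • Pi.single a 1 := by
    intro a
    simp only [e, Matrix.mulVec_sum, mulVec_mulVec, r1]
    rw [Finset.sum_eq_single a]
    · rw [if_pos rfl, smul_mulVec, one_mulVec]
    · intro b _ hb
      rw [if_neg (Ne.symm hb), zero_mulVec]
    · intro h; exact absurd (Finset.mem_univ a) h
  refine ⟨e, Ψ, ?_, ?_⟩
  · intro z hz
    unfold orb at hz
    induction hz using Submodule.span_induction with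
    | mem x hx =>
      obtain ⟨g, rfl⟩ := hx
      refine ⟨im D X ℓ g, Submodule.subset_span ⟨g, rfl⟩, ?_⟩
      ext x a
      rw [hΨ, mulVec_mulVec, r2, ← mulVec_mulVec, hQe, mulVec_smul, Pi.smul_apply,
        Matrix.smul_apply, mulVec_single_one]
      rfl
    | zero => exact ⟨0, Submodule.zero_mem _, by rw [map_zero, smul_zero]⟩
    | add x y _ _ hx hy =>
      obtain ⟨w, hw, e1⟩ := hx
      obtain ⟨w', hw', e2⟩ := hy
      exact ⟨w + w', Submodule.add_mem _ hw hw', by rw [map_add, e1, e2, smul_add]⟩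
    | smul r x _ hx =>
      obtain ⟨w, hw, e1⟩ := hx
      exact ⟨r • w, Submodule.smul_mem _ r hw, by rw [map_smul, e1, smul_comm]⟩
  · intro c hc
    refine ⟨∑ a, I a * c * Q a, ?_, ?_⟩
    · -- it commutes with the endomorphisms of `Z`
      intro f hf
      have e0 : (∑ a, I a * c * Q a).map (algebraMap ℤ_[ℓ] ℚ_[ℓ]) =
          ∑ a, (I a).map (algebraMap ℤ_[ℓ] ℚ_[ℓ]) * c.map (algebraMap ℤ_[ℓ] ℚ_[ℓ]) *
            (Q a).map (algebraMap ℤ_[ℓ] ℚ_[ℓ]) := by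
        have := map_sum (RingHom.mapMatrix (algebraMap ℤ_[ℓ] ℚ_[ℓ]) :
          Matrix (Fin (D.rank Z)) (Fin (D.rank Z)) ℤ_[ℓ] →+* _) (fun a => I a * c * Q a) Finset.univ
        simp only [RingHom.mapMatrix_apply] at this
        rw [this]
        exact Finset.sum_congr rfl fun a _ => by rw [Matrix.map_mul, Matrix.map_mul]
      have e1 : (∑ a, (i a).map (algebraMap ℚ ℚ_[ℓ]) * (p a).map (algebraMap ℚ ℚ_[ℓ])) = 1 := by
        have := congrArg (fun M : Matrix _ _ ℚ => M.map (algebraMap ℚ ℚ_[ℓ])) h3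
        have h' := map_sum (RingHom.mapMatrix (algebraMap ℚ ℚ_[ℓ]) :
          Matrix (Fin (D.rank Z)) (Fin (D.rank Z)) ℚ →+* _) (fun a => i a * p a) Finset.univ
        simp only [RingHom.mapMatrix_apply] at h'
        beta_reduce at this
        rw [h', Matrix.map_one _ (map_zero _) (map_one _)] at this
        rw [← this]
        exact Finset.sum_congr rfl fun a _ => by rw [Matrix.map_mul]
      rw [e0]
      simp only [hI, hQ, Matrix.smul_mul, Matrix.mul_smul, ← Finset.smul_sum]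
      congr 1
      congr 1
      -- write `f` as a sum
      set ii := fun a => (i a).map (algebraMap ℚ ℚ_[ℓ]) with hii
      set pp := fun a => (p a).map (algebraMap ℚ ℚ_[ℓ]) with hpp
      set F := f.map (algebraMap ℚ ℚ_[ℓ]) with hF
      set C := c.map (algebraMap ℤ_[ℓ] ℚ_[ℓ]) with hC
      have e2 : ∀ a b, pp a * F * ii b * C = C * (pp a * F * ii b) := by
        intro a b
        have h5 : p a * f * i b ∈ D.Hom X X :=
          D.mul_mem X Z X _ _ (D.mul_mem Z Z X _ _ (hp a) hf) (hi b)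
        have h6 := hc _ h5
        rw [Matrix.map_mul, Matrix.map_mul] at h6
        exact h6.symm
      have e3 : F = ∑ a, ∑ b, ii a * (pp a * F * ii b) * pp b := by
        calc F = (∑ a, ii a * pp a) * F * (∑ b, ii b * pp b) := by
              rw [e1, Matrix.one_mul, Matrix.mul_one]
          _ = _ := by
              rw [Matrix.sum_mul, Matrix.sum_mul]
              refine Finset.sum_congr rfl fun a _ => ?_
              rw [Matrix.mul_sum]
              refine Finset.sum_congr rfl fun b _ => ?_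
              simp only [Matrix.mul_assoc]
      have e4 : ∀ a b, pp a * ii b = if a = b then 1 else 0 := by
        intro a b
        simp only [hii, hpp]
        rw [← Matrix.map_mul]
        split_ifs with hab
        · subst hab
          rw [h1, Matrix.map_one _ (map_zero _) (map_one _)]
        · rw [h2 a b hab, Matrix.map_zero _ (map_zero _)]
      have e5 : (∑ a, ii a * C * pp a) * F = ∑ a, ∑ b, ii a * C * (pp a * F * ii b) * pp b := by
        rw [Matrix.sum_mul]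
        refine Finset.sum_congr rfl fun a _ => ?_
        calc ii a * C * pp a * F = ii a * C * pp a * F * (∑ b, ii b * pp b) := by
              rw [e1, Matrix.mul_one]
          _ = _ := by
              rw [Matrix.mul_sum]
              refine Finset.sum_congr rfl fun b _ => ?_
              simp only [Matrix.mul_assoc]
      have e6 : F * (∑ a, ii a * C * pp a) = ∑ a, ∑ b, ii a * (pp a * F * ii b * C) * pp b := by
        rw [Finset.sum_comm, Matrix.mul_sum]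
        refine Finset.sum_congr rfl fun b _ => ?_
        calc F * (ii b * C * pp b) = (∑ a, ii a * pp a) * (F * (ii b * C * pp b)) := by
              rw [e1, Matrix.one_mul]
          _ = _ := by
              rw [Matrix.sum_mul]
              refine Finset.sum_congr rfl fun a _ => ?_
              simp only [Matrix.mul_assoc]
      rw [e5, e6]
      refine Finset.sum_congr rfl fun a _ => Finset.sum_congr rfl fun b _ => ?_
      rw [e2]
      simp only [Matrix.mul_assoc]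
    · ext x a
      rw [hΨ]
      have e1 : Q a *ᵥ ((∑ b, I b * c * Q b) *ᵥ e) =
          (ℓ : ℤ_[ℓ]) ^ (4 * k) • (c *ᵥ Pi.single a 1) := by
        rw [Matrix.sum_mulVec, Matrix.mulVec_sum, Finset.sum_eq_single a]
        · rw [mulVec_mulVec, ← Matrix.mul_assoc, ← Matrix.mul_assoc, r1, if_pos rfl,
            Matrix.smul_mul, Matrix.smul_mul, Matrix.one_mul, smul_mulVec, ← mulVec_mulVec,
            hQe, mulVec_smul, smul_smul, ← pow_add]
          congr 2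
          omega
        · intro b _ hb
          rw [mulVec_mulVec, ← Matrix.mul_assoc, ← Matrix.mul_assoc, r1, if_neg (Ne.symm hb),
            Matrix.zero_mul, Matrix.zero_mul, zero_mulVec]
        · intro h; exact absurd (Finset.mem_univ a) h
      rw [e1, Pi.smul_apply, Matrix.smul_apply, mulVec_single_one]
      rfl

theorem galoisAlgebra_le (X : D.Obj) (ℓ : ℕ) [Fact ℓ.Prime] :
    D.galoisAlgebra X ℓ ≤ D.commutant X ℓ := by
  refine Submodule.span_le.mpr ?_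
  rintro _ ⟨g, rfl⟩ f hf
  exact (D.comm X X f hf ℓ g).symm

theorem nakayama (X : D.Obj) (ℓ : ℕ) [Fact ℓ.Prime]
    (h : ∀ c ∈ D.commutant X ℓ, ∃ w ∈ D.galoisAlgebra X ℓ, ∃ z, c = w + (ℓ : ℤ_[ℓ]) • z) :
    D.galoisAlgebra X ℓ = D.commutant X ℓ := by
  apply le_antisymm (galoisAlgebra_le X ℓ)
  apply Submodule.le_of_le_smul_of_le_jacobson_bot (I := Ideal.span {(ℓ : ℤ_[ℓ])})
    (IsNoetherian.noetherian _)
  · rw [IsLocalRing.jacobson_eq_maximalIdeal ⊥ bot_ne_top]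
    apply IsLocalRing.le_maximalIdeal
    rw [Ne, Ideal.span_singleton_eq_top]
    exact PadicInt.p_nonunit
  · intro c hc
    obtain ⟨w, hw, z, hz⟩ := h c hc
    rw [hz]
    refine Submodule.add_mem_sup hw (Submodule.smul_mem_smul (Ideal.mem_span_singleton_self _) ?_)
    intro f hf
    have h1 := hc f hf
    have h2 := galoisAlgebra_le X ℓ hw f hf
    have e : c.map (algebraMap ℤ_[ℓ] ℚ_[ℓ]) = w.map (algebraMap ℤ_[ℓ] ℚ_[ℓ]) +
        (ℓ : ℚ_[ℓ]) • z.map (algebraMap ℤ_[ℓ] ℚ_[ℓ]) := by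
      rw [hz]
      ext i j
      simp only [Matrix.map_apply, Matrix.add_apply, Matrix.smul_apply, smul_eq_mul, map_add,
        map_mul, map_natCast]
    rw [e, Matrix.add_mul, Matrix.mul_add, h2, Matrix.smul_mul, Matrix.mul_smul] at h1
    exact smul_right_injective _ (p_ne (ℓ := ℓ)) (add_left_cancel h1)

theorem isOpen_of_finiteness {τ : Type} {P : D.Obj → Prop} {h : D.Obj → τ}
    (hfin : D.Finiteness P h) (hsum : D.HasSums P) (X : D.Obj) (hX : P X) : D.IsOpen X := by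
  obtain ⟨Z, hZ, i, p, hi, hp, h1, h2, h3⟩ := hsum (D.rank X) (fun _ => X) (fun _ => hX)
  constructor
  · intro ℓ _
    obtain ⟨k1, hk1⟩ := exists_pow_family (ℓ := ℓ) fun a => (i a).map (algebraMap ℚ ℚ_[ℓ])
    obtain ⟨k2, hk2⟩ := exists_pow_family (ℓ := ℓ) fun a => (p a).map (algebraMap ℚ ℚ_[ℓ])
    obtain ⟨e, Ψ, hΨ1, hΨ2⟩ := transfer X Z ℓ (max k1 k2) i p hi hp h1 h2 h3
      (fun a x y => hk1 _ (le_max_left _ _) a x y) (fun a x y => hk2 _ (le_max_right _ _) a x y)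
    obtain ⟨m, hm⟩ := claimA hfin Z hZ ℓ e
    refine ⟨m + 4 * max k1 k2, fun c hc => ?_⟩
    obtain ⟨c', hc', hcc⟩ := hΨ2 c hc
    obtain ⟨w, hw, hw'⟩ := hΨ1 _ (hm c' hc')
    rw [map_smul, hcc, smul_smul, ← pow_add] at hw'
    rw [hw']
    exact Submodule.smul_mem _ _ hw
  · obtain ⟨N, hN⟩ := claimB' hfin Z hZ
    obtain ⟨N1, hN1⟩ := exists_bound i
    obtain ⟨N2, hN2⟩ := exists_bound p
    refine ⟨max N (max N1 N2), fun ℓ _ hℓ => ?_⟩
    obtain ⟨e, Ψ, hΨ1, hΨ2⟩ := transfer X Z ℓ 0 i p hi hp h1 h2 h3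
      (fun a x y => by
        rw [pow_zero, one_mul]
        exact hN1 ℓ (lt_of_le_of_lt ((le_max_left _ _).trans (le_max_right _ _)) hℓ) a x y)
      (fun a x y => by
        rw [pow_zero, one_mul]
        exact hN2 ℓ (lt_of_le_of_lt ((le_max_right _ _).trans (le_max_right _ _)) hℓ) a x y)
    apply nakayama
    intro c hc
    obtain ⟨c', hc', hcc⟩ := hΨ2 c hc
    have h5 := hN ℓ (lt_of_le_of_lt (le_max_left _ _) hℓ) (orb D Z ℓ e ⊔ ptop _ ℓ 1)
      (fun v => Submodule.mem_sup_right (by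
        have := mem_ptop (ℓ := ℓ) (n := 1) v
        rwa [pow_one] at this))
      (fun g v hv => by
        obtain ⟨a, ha, b, hb, rfl⟩ := Submodule.mem_sup.mp hv
        rw [mulVec_add]
        exact Submodule.add_mem _ (Submodule.mem_sup_left (orb_stable D Z ℓ e g a ha))
          (Submodule.mem_sup_right (ptop_stable _ b hb))) c' hc' e
      (Submodule.mem_sup_left (mem_orb D Z ℓ e))
    obtain ⟨a, ha, b, hb, hab⟩ := Submodule.mem_sup.mp h5
    obtain ⟨z, rfl⟩ := ptop_elim hb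
    obtain ⟨w, hw, hw'⟩ := hΨ1 a ha
    refine ⟨w, hw, Ψ z, ?_⟩
    rw [← hab, map_add, map_smul, hw'] at hcc
    simpa using hcc.symm

end Pool.Agent.Q55.SF
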