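import Pool.Agent.Q55.SF.JZ6
import Pool.Agent.Q55.SF.Open

/-! # Adelic lattices and rational lattices -/

set_option autoImplicit false

namespace Pool.Agent.Q55.SF

open Matrix

section loc

variable {n : ℕ} {ℓ : ℕ} [Fact ℓ.Prime]

/-- a rational vector in `ℚ_ℓ ^ n` -/
noncomputable def toQl {n : ℕ} (ℓ : ℕ) [Fact ℓ.Prime] (v : Fin n → ℚ) : Fin n → ℚ_[ℓ] :=
  fun i => algebraMap ℚ ℚ_[ℓ] (v i)

theorem toQl_add (v w : Fin n → ℚ) : toQl ℓ (v + w) = toQl ℓ v + toQl ℓ w :=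
  funext fun i => map_add (algebraMap ℚ ℚ_[ℓ]) (v i) (w i)

theorem toQl_neg (v : Fin n → ℚ) : toQl ℓ (-v) = -toQl ℓ v :=
  funext fun i => map_neg (algebraMap ℚ ℚ_[ℓ]) (v i)

theorem toQl_nsmul (m : ℕ) (v : Fin n → ℚ) : toQl ℓ (m • v) = (m : ℚ_[ℓ]) • toQl ℓ v := by
  funext i
  change algebraMap ℚ ℚ_[ℓ] (m • v i) = (m : ℚ_[ℓ]) * algebraMap ℚ ℚ_[ℓ] (v i)
  rw [nsmul_eq_mul, map_mul, map_natCast]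

theorem toQl_mulVec {m : ℕ} (A : Matrix (Fin m) (Fin n) ℚ) (v : Fin n → ℚ) :
    toQl ℓ (A *ᵥ v) = A.map (algebraMap ℚ ℚ_[ℓ]) *ᵥ toQl ℓ v := by
  funext i
  simp only [toQl, Matrix.mulVec, dotProduct, map_sum, map_mul, Matrix.map_apply]

theorem nat_smul_mem (L : Submodule ℤ_[ℓ] (Fin n → ℚ_[ℓ])) (m : ℕ) (v : Fin n → ℚ_[ℓ])
    (hv : v ∈ L) : (m : ℚ_[ℓ]) • v ∈ L := by
  have h := L.smul_mem (m : ℤ_[ℓ]) hv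
  have e : (m : ℤ_[ℓ]) • v = (m : ℚ_[ℓ]) • v := by
    funext i
    change algebraMap ℤ_[ℓ] ℚ_[ℓ] m * v i = m * v i
    rw [map_natCast]
  rw [← e]
  exact h

theorem mem_of_dvd_l (L : Submodule ℤ_[ℓ] (Fin n → ℚ_[ℓ])) {k m : ℕ} (h : ℓ ^ k ∣ m)
    (v : Fin n → ℚ_[ℓ]) (hv : (ℓ : ℚ_[ℓ]) ^ k • v ∈ L) : (m : ℚ_[ℓ]) • v ∈ L := by
  obtain ⟨t, rfl⟩ := h
  rw [Nat.cast_mul, Nat.cast_pow, mul_comm, mul_smul]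
  exact nat_smul_mem L t _ hv

theorem norm_nat_le (m : ℕ) : ‖(m : ℚ_[ℓ])‖ ≤ 1 := by
  have := Padic.norm_int_le_one (p := ℓ) (m : ℤ)
  rwa [Int.cast_natCast] at this

theorem local_bound (L : Submodule ℤ_[ℓ] (Fin n → ℚ_[ℓ])) (hL : L.FG) :
    ∃ a : ℕ, ∀ v ∈ L, ∀ i, ‖(ℓ : ℚ_[ℓ]) ^ a * v i‖ ≤ 1 := by
  classical
  obtain ⟨S, rfl⟩ := hL
  have h1 : ∀ s : Fin n → ℚ_[ℓ], ∃ k : ℕ, ∀ i, ‖(ℓ : ℚ_[ℓ]) ^ k * s i‖ ≤ 1 := by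
    intro s
    obtain ⟨k, w, hw⟩ := exists_pow_emb s
    exact ⟨k, (mem_std _).mp ⟨w, hw⟩⟩
  choose k hk using h1
  refine ⟨S.sup k, fun v hv => ?_⟩
  induction hv using Submodule.span_induction with
  | mem x hx => exact fun i => norm_pow_mul_le _ _ _ (Finset.le_sup hx) (hk x i)
  | zero =>
    intro i
    rw [Pi.zero_apply, mul_zero, norm_zero]
    exact zero_le_one
  | add x y _ _ hx hy =>
    intro i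
    rw [Pi.add_apply, mul_add]
    exact (Padic.nonarchimedean _ _).trans (max_le (hx i) (hy i))
  | smul r x _ hx =>
    intro i
    have e : (r • x) i = (r : ℚ_[ℓ]) * x i := rfl
    rw [e, mul_left_comm, norm_mul]
    exact mul_le_one₀ r.2 (norm_nonneg _) (hx i)

theorem local_span (L : Submodule ℤ_[ℓ] (Fin n → ℚ_[ℓ]))
    (hL : ∀ v : Fin n → ℚ_[ℓ], ∃ k : ℕ, (ℓ : ℚ_[ℓ]) ^ k • v ∈ L) :
    ∃ b : ℕ, ∀ v : Fin n → ℚ_[ℓ], (∀ i, ‖v i‖ ≤ 1) → (ℓ : ℚ_[ℓ]) ^ b • v ∈ L := by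
  classical
  choose k hk using fun i : Fin n => hL (Pi.single i 1)
  refine ⟨Finset.univ.sup k, fun v hv => ?_⟩
  let x : Fin n → ℤ_[ℓ] := fun i => ⟨v i, hv i⟩
  have e : (ℓ : ℚ_[ℓ]) ^ (Finset.univ.sup k) • v =
      ∑ i, x i • ((ℓ : ℚ_[ℓ]) ^ (Finset.univ.sup k) • Pi.single i (1 : ℚ_[ℓ])) := by
    funext j
    rw [Finset.sum_apply, Finset.sum_eq_single j]
    · change (ℓ : ℚ_[ℓ]) ^ (Finset.univ.sup k) * v j =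
        v j * ((ℓ : ℚ_[ℓ]) ^ (Finset.univ.sup k) * (Pi.single j (1 : ℚ_[ℓ]) : Fin n → ℚ_[ℓ]) j)
      rw [Pi.single_eq_same, mul_one, mul_comm]
    · intro i _ hij
      change v i * ((ℓ : ℚ_[ℓ]) ^ (Finset.univ.sup k) * (Pi.single i (1 : ℚ_[ℓ]) : Fin n → ℚ_[ℓ]) j) = 0
      rw [Pi.single_eq_of_ne hij.symm, mul_zero, mul_zero]
    · intro h
      exact absurd (Finset.mem_univ j) h
  rw [e]
  refine L.sum_mem fun i _ => L.smul_mem _ ?_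
  obtain ⟨t, ht⟩ := Nat.exists_eq_add_of_le (Finset.le_sup (f := k) (Finset.mem_univ i))
  rw [ht, pow_add, mul_comm, mul_smul, ← Nat.cast_pow]
  exact nat_smul_mem L _ _ (hk i)

end loc

/-- a rational number which is integral at all primes -/
theorem rat_int (q : ℚ) (h : ∀ (ℓ : ℕ) [Fact ℓ.Prime], ‖algebraMap ℚ ℚ_[ℓ] q‖ ≤ 1) :
    ∃ z : ℤ, (z : ℚ) = q := by
  by_cases hd : q.den = 1
  · exact ⟨q.num, Rat.coe_int_num_of_den_eq_one hd⟩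
  · exfalso
    obtain ⟨p, hp, hpd⟩ := Nat.exists_prime_and_dvd hd
    have : Fact p.Prime := ⟨hp⟩
    have h1 := h p
    rw [eq_ratCast] at h1
    have h2 : ((q.den : ℤ) : ℚ_[p]) * (q : ℚ_[p]) = (q.num : ℚ_[p]) := by
      exact_mod_cast Rat.den_mul_eq_num q
    have h3 := congrArg norm h2
    rw [norm_mul] at h3
    have h4 : ‖((q.den : ℤ) : ℚ_[p])‖ < 1 := by
      rw [Padic.norm_intCast_lt_one_iff]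
      exact_mod_cast hpd
    have h5 : ‖((q.num : ℤ) : ℚ_[p])‖ < 1 := by
      rw [← h3]
      exact mul_lt_one_of_nonneg_of_lt_one_left (norm_nonneg _) h4 h1
    rw [Padic.norm_intCast_lt_one_iff] at h5
    have h6 : p ∣ q.num.natAbs := by
      exact_mod_cast Int.natCast_dvd.mp h5
    have h7 := Nat.dvd_gcd h6 hpd
    rw [q.reduced, Nat.dvd_one] at h7
    exact hp.one_lt.ne' h7

theorem exists_prod (k : ∀ (ℓ : ℕ) [Fact ℓ.Prime], ℕ) (N : ℕ)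
    (hk : ∀ (ℓ : ℕ) [Fact ℓ.Prime], N < ℓ → k ℓ = 0) (ℓ₀ : ℕ) :
    ∃ m : ℕ, 0 < m ∧ (∀ (ℓ : ℕ) [Fact ℓ.Prime], ℓ ≠ ℓ₀ → ℓ ^ k ℓ ∣ m) ∧
      (ℓ₀.Prime → ¬ ℓ₀ ∣ m) := by
  classical
  let K : ℕ → ℕ := fun ℓ => if h : ℓ.Prime then @k ℓ ⟨h⟩ else 0
  refine ⟨∏ ℓ ∈ (Finset.range (N + 1)).filter (fun ℓ => ℓ.Prime ∧ ℓ ≠ ℓ₀), ℓ ^ K ℓ,
    Finset.prod_pos fun ℓ hℓ => pow_pos (Finset.mem_filter.mp hℓ).2.1.pos _, ?_, ?_⟩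
  · intro ℓ hℓ hne
    by_cases h : N < ℓ
    · rw [hk ℓ h, pow_zero]
      exact one_dvd _
    · have e : K ℓ = k ℓ := dif_pos hℓ.out
      rw [← e]
      exact Finset.dvd_prod_of_mem (fun ℓ => ℓ ^ K ℓ) (Finset.mem_filter.mpr
        ⟨Finset.mem_range.mpr (by omega), hℓ.out, hne⟩)
  · intro hp hd
    obtain ⟨ℓ, hℓ, h1⟩ := (Prime.dvd_finsetProd_iff hp.prime _).mp hd
    obtain ⟨_, h2, h3⟩ := Finset.mem_filter.mp hℓ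
    exact h3 ((Nat.prime_dvd_prime_iff_eq hp h2).mp (hp.dvd_of_dvd_pow h1)).symm

variable {G : Type} [Group G] {D : Motives G}

/-- the rational vectors in an adelic lattice -/
def rat (X : D.Obj) (L : ∀ (ℓ : ℕ) [Fact ℓ.Prime], Submodule ℤ_[ℓ] (Fin (D.rank X) → ℚ_[ℓ])) :
    AddSubgroup (Fin (D.rank X) → ℚ) where
  carrier := {v | ∀ (ℓ : ℕ) [Fact ℓ.Prime], toQl ℓ v ∈ L ℓ}
  zero_mem' ℓ _ := by
    have e : toQl ℓ (0 : Fin (D.rank X) → ℚ) = 0 := funext fun i => map_zero _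
    rw [e]
    exact (L ℓ).zero_mem
  add_mem' ha hb ℓ _ := by
    rw [toQl_add]
    exact (L ℓ).add_mem (ha ℓ) (hb ℓ)
  neg_mem' ha ℓ _ := by
    rw [toQl_neg]
    exact (L ℓ).neg_mem (ha ℓ)

theorem mem_rat (X : D.Obj)
    (L : ∀ (ℓ : ℕ) [Fact ℓ.Prime], Submodule ℤ_[ℓ] (Fin (D.rank X) → ℚ_[ℓ]))
    (v : Fin (D.rank X) → ℚ) : v ∈ rat X L ↔ ∀ (ℓ : ℕ) [Fact ℓ.Prime], toQl ℓ v ∈ L ℓ := Iff.rfl

theorem lattice_const {X : D.Obj}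
    {L : ∀ (ℓ : ℕ) [Fact ℓ.Prime], Submodule ℤ_[ℓ] (Fin (D.rank X) → ℚ_[ℓ])}
    (hL : D.IsLattice X L) : ∃ (k : ∀ (ℓ : ℕ) [Fact ℓ.Prime], ℕ) (N : ℕ),
      (∀ (ℓ : ℕ) [Fact ℓ.Prime], N < ℓ → k ℓ = 0) ∧
      (∀ (ℓ : ℕ) [Fact ℓ.Prime] (v : Fin (D.rank X) → ℚ_[ℓ]), (∀ i, ‖v i‖ ≤ 1) →
        (ℓ : ℚ_[ℓ]) ^ k ℓ • v ∈ L ℓ) ∧
      ∀ (ℓ : ℕ) [Fact ℓ.Prime], ∀ v ∈ L ℓ, ∀ i, ‖(ℓ : ℚ_[ℓ]) ^ k ℓ * v i‖ ≤ 1 := by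
  classical
  obtain ⟨N, hN⟩ := hL.standard
  have h1 := fun (ℓ : ℕ) [Fact ℓ.Prime] => local_bound (L ℓ) (hL.fg ℓ)
  have h2 := fun (ℓ : ℕ) [Fact ℓ.Prime] => local_span (L ℓ) (hL.span ℓ)
  choose a ha using h1
  choose b hb using h2
  refine ⟨fun ℓ _ => if N < ℓ then 0 else max (a ℓ) (b ℓ), N, fun ℓ _ h => if_pos h, ?_, ?_⟩
  · intro ℓ _ v hv
    beta_reduce
    by_cases h : N < ℓ
    · rw [if_pos h, pow_zero, one_smul]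
      exact (hN ℓ h v).mpr hv
    · rw [if_neg h]
      obtain ⟨t, ht⟩ := Nat.exists_eq_add_of_le (le_max_right (a ℓ) (b ℓ))
      rw [ht, pow_add, mul_comm, mul_smul, ← Nat.cast_pow]
      exact nat_smul_mem _ _ _ (hb ℓ v hv)
  · intro ℓ _ v hv
    beta_reduce
    by_cases h : N < ℓ
    · rw [if_pos h]
      intro i
      rw [pow_zero, one_mul]
      exact (hN ℓ h v).mp hv i
    · rw [if_neg h]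
      exact fun i => norm_pow_mul_le _ _ _ (le_max_left _ _) (ha ℓ v hv i)

theorem norm_stdl {n : ℕ} {ℓ : ℕ} [Fact ℓ.Prime] {v : Fin n → ℚ} (hv : v ∈ stdl n) (i : Fin n) :
    ‖toQl ℓ v i‖ ≤ 1 := by
  obtain ⟨z, hz⟩ := hv i
  change ‖algebraMap ℚ ℚ_[ℓ] (v i)‖ ≤ 1
  rw [← hz, map_intCast]
  exact Padic.norm_int_le_one z

theorem rat_near {X : D.Obj}
    {L : ∀ (ℓ : ℕ) [Fact ℓ.Prime], Submodule ℤ_[ℓ] (Fin (D.rank X) → ℚ_[ℓ])}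
    (hL : D.IsLattice X L) : ∃ m : ℕ, 0 < m ∧ Near m (stdl (D.rank X)) (rat X L) := by
  obtain ⟨k, N, hk, h1, h2⟩ := lattice_const hL
  obtain ⟨m, hm, hm1, -⟩ := exists_prod k N hk 0
  refine ⟨m, hm, fun v hv ℓ hℓ => ?_, fun v hv i => ?_⟩
  · rw [toQl_nsmul]
    exact mem_of_dvd_l (L ℓ) (hm1 ℓ hℓ.out.ne_zero) _ (h1 ℓ _ (norm_stdl hv))
  · apply rat_int
    intro ℓ hℓ
    obtain ⟨t, ht⟩ := hm1 ℓ hℓ.out.ne_zero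
    have h3 := h2 ℓ _ (hv ℓ) i
    have e : algebraMap ℚ ℚ_[ℓ] ((m • v) i) = (t : ℚ_[ℓ]) * ((ℓ : ℚ_[ℓ]) ^ k ℓ * toQl ℓ v i) := by
      rw [Pi.smul_apply, nsmul_eq_mul, map_mul, map_natCast, ht, Nat.cast_mul, Nat.cast_pow,
        mul_comm ((ℓ : ℚ_[ℓ]) ^ k ℓ), mul_assoc]
      rfl
    rw [e, norm_mul]
    exact mul_le_one₀ (norm_nat_le t) (norm_nonneg _) h3

theorem rat_fg {X : D.Obj}
    {L : ∀ (ℓ : ℕ) [Fact ℓ.Prime], Submodule ℤ_[ℓ] (Fin (D.rank X) → ℚ_[ℓ])}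
    (hL : D.IsLattice X L) : (rat X L).FG := by
  obtain ⟨m, hm, -, h⟩ := rat_near hL
  refine fg_of_map _ _ (stdl_fg _) (nsmulAddMonoidHom m) ?_ h
  intro v w hvw
  have h1 : m • v = m • w := hvw
  rw [← Nat.cast_smul_eq_nsmul ℚ, ← Nat.cast_smul_eq_nsmul ℚ] at h1
  exact smul_right_injective _ (Nat.cast_ne_zero.mpr hm.ne' : (m : ℚ) ≠ 0) h1

theorem rat_full {X : D.Obj}
    {L : ∀ (ℓ : ℕ) [Fact ℓ.Prime], Submodule ℤ_[ℓ] (Fin (D.rank X) → ℚ_[ℓ])}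
    (hL : D.IsLattice X L) : Full (rat X L) := by
  obtain ⟨m, hm, h, -⟩ := rat_near hL
  intro v
  obtain ⟨d, hd, hd'⟩ := stdl_full _ v
  exact ⟨m * d, Nat.mul_pos hm hd, by rw [mul_smul]; exact h _ hd'⟩

theorem galois_stable {X : D.Obj}
    {L : ∀ (ℓ : ℕ) [Fact ℓ.Prime], Submodule ℤ_[ℓ] (Fin (D.rank X) → ℚ_[ℓ])}
    (hL : D.IsLattice X L) (ℓ : ℕ) [Fact ℓ.Prime]
    (w : Matrix (Fin (D.rank X)) (Fin (D.rank X)) ℤ_[ℓ]) (hw : w ∈ D.galoisAlgebra X ℓ)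
    (v : Fin (D.rank X) → ℚ_[ℓ]) (hv : v ∈ L ℓ) : w.map (algebraMap ℤ_[ℓ] ℚ_[ℓ]) *ᵥ v ∈ L ℓ := by
  unfold Motives.galoisAlgebra at hw
  induction hw using Submodule.span_induction with
  | mem x hx =>
    obtain ⟨g, rfl⟩ := hx
    exact hL.stable ℓ g v hv
  | zero =>
    rw [Matrix.map_zero _ (map_zero _), zero_mulVec]
    exact (L ℓ).zero_mem
  | add x y _ _ hx hy =>
    rw [Matrix.map_add _ (map_add _), add_mulVec]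
    exact (L ℓ).add_mem hx hy
  | smul r x _ hx =>
    have e : (r • x).map (algebraMap ℤ_[ℓ] ℚ_[ℓ]) *ᵥ v = r • (x.map (algebraMap ℤ_[ℓ] ℚ_[ℓ]) *ᵥ v) := by
      have e1 : (r • x).map (algebraMap ℤ_[ℓ] ℚ_[ℓ]) =
          algebraMap ℤ_[ℓ] ℚ_[ℓ] r • x.map (algebraMap ℤ_[ℓ] ℚ_[ℓ]) := by
        ext i j
        simp only [Matrix.map_apply, Matrix.smul_apply, smul_eq_mul, map_mul]
      rw [e1, Matrix.smul_mulVec, algebraMap_smul]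
    rw [e]
    exact (L ℓ).smul_mem r hx

theorem rat_stable {X : D.Obj} (ho : D.IsOpen X) : ∃ N₀ : ℕ, 0 < N₀ ∧
    ∀ L : ∀ (ℓ : ℕ) [Fact ℓ.Prime], Submodule ℤ_[ℓ] (Fin (D.rank X) → ℚ_[ℓ]),
      D.IsLattice X L → ∀ c : Matrix (Fin (D.rank X)) (Fin (D.rank X)) ℤ,
        (∀ e ∈ D.endo X, c.map (algebraMap ℤ ℚ) * e = e * c.map (algebraMap ℤ ℚ)) →
          ∀ v ∈ rat X L, N₀ • (c.map (algebraMap ℤ ℚ) *ᵥ v) ∈ rat X L := by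
  classical
  obtain ⟨h1, N, h2⟩ := ho
  choose k hk using fun (ℓ : ℕ) [Fact ℓ.Prime] => h1 ℓ
  obtain ⟨m, hm, hm1, -⟩ := exists_prod (fun ℓ _ => if N < ℓ then 0 else k ℓ) N
    (fun ℓ _ h => if_pos h) 0
  refine ⟨m, hm, fun L hL c hc v hv ℓ hℓ => ?_⟩
  have h3 : c.map (algebraMap ℤ ℤ_[ℓ]) ∈ D.commutant X ℓ := by
    intro f hf
    have e : (c.map (algebraMap ℤ ℤ_[ℓ])).map (algebraMap ℤ_[ℓ] ℚ_[ℓ]) =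
        (c.map (algebraMap ℤ ℚ)).map (algebraMap ℚ ℚ_[ℓ]) := by
      ext i j
      simp
    rw [e, ← Matrix.map_mul, ← Matrix.map_mul, hc f hf]
  have h4 : (ℓ : ℤ_[ℓ]) ^ (if N < ℓ then 0 else k ℓ) • c.map (algebraMap ℤ ℤ_[ℓ]) ∈
      D.galoisAlgebra X ℓ := by
    by_cases h : N < ℓ
    · rw [if_pos h, pow_zero, one_smul, h2 ℓ h]
      exact h3
    · rw [if_neg h]
      exact hk ℓ _ h3
  have h5 := galois_stable hL ℓ _ h4 _ (hv ℓ)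
  rw [toQl_nsmul, toQl_mulVec]
  refine mem_of_dvd_l (L ℓ) (hm1 ℓ hℓ.out.ne_zero) _ ?_
  have e : ∀ t : ℕ, ((ℓ : ℤ_[ℓ]) ^ t • c.map (algebraMap ℤ ℤ_[ℓ])).map
      (algebraMap ℤ_[ℓ] ℚ_[ℓ]) = (ℓ : ℚ_[ℓ]) ^ t •
        (c.map (algebraMap ℤ ℚ)).map (algebraMap ℚ ℚ_[ℓ]) := by
    intro t
    ext i j
    simp
  rw [e, Matrix.smul_mulVec] at h5
  exact h5

/-- The adelic lattice is determined by its rational vectors. -/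
theorem rat_inj {X : D.Obj}
    {L L' : ∀ (ℓ : ℕ) [Fact ℓ.Prime], Submodule ℤ_[ℓ] (Fin (D.rank X) → ℚ_[ℓ])}
    (hL : D.IsLattice X L) (hL' : D.IsLattice X L') (h : ∀ v ∈ rat X L, v ∈ rat X L') (ℓ₀ : ℕ)
    [hℓ₀ : Fact ℓ₀.Prime] (w : Fin (D.rank X) → ℚ_[ℓ₀]) (hw : w ∈ L ℓ₀) : w ∈ L' ℓ₀ := by
  obtain ⟨k, N, hk, h1, h2⟩ := lattice_const hL
  obtain ⟨k', N', hk', h1', h2'⟩ := lattice_const hL'
  obtain ⟨m, hm, hm1, hm2⟩ := exists_prod k N hk ℓ₀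
  have hm0 : ‖(m : ℚ_[ℓ₀])‖ = 1 := by
    have h3 : ¬ ‖((m : ℤ) : ℚ_[ℓ₀])‖ < 1 := by
      rw [Padic.norm_intCast_lt_one_iff]
      intro h4
      exact hm2 hℓ₀.out (by exact_mod_cast h4)
    rw [Int.cast_natCast] at h3
    exact le_antisymm (norm_nat_le m) (not_lt.mp h3)
  have hmne : (m : ℚ_[ℓ₀]) ≠ 0 := by
    intro h0
    rw [h0, norm_zero] at hm0
    exact zero_ne_one hm0
  -- the approximation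
  have hx : ∀ i, ∃ (z : ℕ) (y : ℤ_[ℓ₀]), (ℓ₀ : ℚ_[ℓ₀]) ^ k ℓ₀ * w i =
      (m : ℚ_[ℓ₀]) * ((z : ℚ_[ℓ₀]) + (ℓ₀ : ℚ_[ℓ₀]) ^ (k ℓ₀ + (k ℓ₀ + k' ℓ₀)) * (y : ℚ_[ℓ₀])) := by
    intro i
    let x : ℤ_[ℓ₀] := ⟨(m : ℚ_[ℓ₀])⁻¹ * ((ℓ₀ : ℚ_[ℓ₀]) ^ k ℓ₀ * w i), by
      rw [norm_mul, norm_inv, hm0, inv_one, one_mul]
      exact h2 ℓ₀ w hw i⟩
    have h3 := PadicInt.appr_spec (k ℓ₀ + (k ℓ₀ + k' ℓ₀)) x
    rw [Ideal.mem_span_singleton] at h3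
    obtain ⟨y, hy⟩ := h3
    refine ⟨x.appr (k ℓ₀ + (k ℓ₀ + k' ℓ₀)), y, ?_⟩
    have h4 : (x : ℚ_[ℓ₀]) = (x.appr (k ℓ₀ + (k ℓ₀ + k' ℓ₀)) : ℚ_[ℓ₀]) +
        (ℓ₀ : ℚ_[ℓ₀]) ^ (k ℓ₀ + (k ℓ₀ + k' ℓ₀)) * (y : ℚ_[ℓ₀]) := by
      have h5 : x = (x.appr (k ℓ₀ + (k ℓ₀ + k' ℓ₀)) : ℤ_[ℓ₀]) +
          (ℓ₀ : ℤ_[ℓ₀]) ^ (k ℓ₀ + (k ℓ₀ + k' ℓ₀)) * y := by
        rw [← hy]; ring
      have h6 := congrArg (fun t : ℤ_[ℓ₀] => (t : ℚ_[ℓ₀])) h5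
      simpa using h6
    rw [← h4]
    change _ = (m : ℚ_[ℓ₀]) * ((m : ℚ_[ℓ₀])⁻¹ * ((ℓ₀ : ℚ_[ℓ₀]) ^ k ℓ₀ * w i))
    rw [mul_inv_cancel_left₀ hmne]
  choose z y hzy using hx
  have hℓ0 : (ℓ₀ : ℚ_[ℓ₀]) ≠ 0 := p_ne
  let v : Fin (D.rank X) → ℚ := fun i => (m : ℚ) * (z i / (ℓ₀ : ℚ) ^ k ℓ₀)
  have hv : ∀ (ℓ : ℕ) [Fact ℓ.Prime] (i : Fin (D.rank X)), toQl ℓ v i =
      (m : ℚ_[ℓ]) * ((z i : ℚ_[ℓ]) / (ℓ₀ : ℚ_[ℓ]) ^ k ℓ₀) := by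
    intro ℓ _ i
    change algebraMap ℚ ℚ_[ℓ] ((m : ℚ) * (z i / (ℓ₀ : ℚ) ^ k ℓ₀)) = _
    simp
  -- the difference
  let u : Fin (D.rank X) → ℚ_[ℓ₀] := fun i => (m : ℚ_[ℓ₀]) * (y i : ℚ_[ℓ₀])
  have hu : ∀ i, ‖u i‖ ≤ 1 := fun i => by
    change ‖(m : ℚ_[ℓ₀]) * (y i : ℚ_[ℓ₀])‖ ≤ 1
    rw [norm_mul]
    exact mul_le_one₀ (norm_nat_le m) (norm_nonneg _) (y i).2
  have hwv : w = toQl ℓ₀ v + (ℓ₀ : ℚ_[ℓ₀]) ^ (k ℓ₀ + k' ℓ₀) • u := by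
    funext i
    rw [Pi.add_apply, hv]
    change _ = _ + (ℓ₀ : ℚ_[ℓ₀]) ^ (k ℓ₀ + k' ℓ₀) * ((m : ℚ_[ℓ₀]) * (y i : ℚ_[ℓ₀]))
    have hp : (ℓ₀ : ℚ_[ℓ₀]) ^ k ℓ₀ ≠ 0 := pow_ne_zero _ hℓ0
    apply mul_left_cancel₀ hp
    rw [hzy i]
    field_simp
    ring
  have hd : (ℓ₀ : ℚ_[ℓ₀]) ^ (k ℓ₀ + k' ℓ₀) • u ∈ L ℓ₀ := by
    rw [pow_add, mul_comm, mul_smul, ← Nat.cast_pow]
    exact nat_smul_mem _ _ _ (h1 ℓ₀ u hu)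
  have hd' : (ℓ₀ : ℚ_[ℓ₀]) ^ (k ℓ₀ + k' ℓ₀) • u ∈ L' ℓ₀ := by
    rw [pow_add, mul_smul, ← Nat.cast_pow]
    exact nat_smul_mem _ _ _ (h1' ℓ₀ u hu)
  have hvr : v ∈ rat X L := by
    intro ℓ hℓ
    by_cases he : ℓ = ℓ₀
    · subst he
      have h3 := (L ℓ).sub_mem hw hd
      rw [hwv, add_sub_cancel_right] at h3
      exact h3
    · have h3 : toQl ℓ v = (m : ℚ_[ℓ]) • (fun i => (z i : ℚ_[ℓ]) / (ℓ₀ : ℚ_[ℓ]) ^ k ℓ₀) :=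
        funext fun i => hv ℓ i
      rw [h3]
      refine mem_of_dvd_l (L ℓ) (hm1 ℓ he) _ (h1 ℓ _ fun i => ?_)
      have h4 : ‖(ℓ₀ : ℚ_[ℓ])‖ = 1 := by
        have h5 : ¬ ‖((ℓ₀ : ℤ) : ℚ_[ℓ])‖ < 1 := by
          rw [Padic.norm_intCast_lt_one_iff]
          intro h6
          have h7 : ℓ ∣ ℓ₀ := by exact_mod_cast h6
          exact he ((Nat.prime_dvd_prime_iff_eq hℓ.out hℓ₀.out).mp h7)
        rw [Int.cast_natCast] at h5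
        exact le_antisymm (norm_nat_le ℓ₀) (not_lt.mp h5)
      rw [norm_div, norm_pow, h4, one_pow, div_one]
      exact norm_nat_le _
  rw [hwv]
  exact (L' ℓ₀).add_mem (h v hvr ℓ₀) hd'

end Pool.Agent.Q55.SF
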