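import Pool.Agent.Q55.SF.Red

/-! # If the Galois algebra is open then the Galois representations are semisimple -/

set_option autoImplicit false

namespace Pool.Agent.Q55.SF

open Matrix

/-- the matrices commuting with an algebra -/
abbrev cent {n : ℕ} (E : Subalgebra ℚ (Matrix (Fin n) (Fin n) ℚ)) :
    Subalgebra ℚ (Matrix (Fin n) (Fin n) ℚ) :=
  Subalgebra.centralizer ℚ (E : Set (Matrix (Fin n) (Fin n) ℚ))

theorem cent_semisimple {n : ℕ} (E : Subalgebra ℚ (Matrix (Fin n) (Fin n) ℚ))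
    [IsSemisimpleRing E] : IsSemisimpleRing (cent E) := by
  let T : Matrix (Fin n) (Fin n) ℚ ≃ₐ[ℚ] Module.End ℚ (Fin n → ℚ) := Matrix.toLinAlgEquiv'
  let A : Subalgebra ℚ (Module.End ℚ (Fin n → ℚ)) := E.map T.toAlgHom
  have hA : IsSemisimpleRing A := by
    let e : E ≃ₐ[ℚ] A := E.equivMapOfInjective T.toAlgHom T.injective
    exact e.toRingEquiv.isSemisimpleRing
  have ht : IsScalarTower ℚ A (Fin n → ℚ) := ⟨fun r a v => rfl⟩
  have hf : Module.Finite A (Fin n → ℚ) := Module.Finite.of_restrictScalars_finite ℚ _ _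
  have hE : IsSemisimpleRing (Module.End A (Fin n → ℚ)) := IsSemisimpleRing.moduleEnd A _
  have hcomm : ∀ c : cent E, ∀ e ∈ E, c.1 * e = e * c.1 := fun c e he =>
    ((Subalgebra.mem_centralizer_iff ℚ).mp c.2 e he).symm
  let f : cent E →+* Module.End A (Fin n → ℚ) :=
    { toFun := fun c =>
        { toFun := fun v => c.1 *ᵥ v
          map_add' := fun v w => mulVec_add _ v w
          map_smul' := by
            rintro ⟨_, e, he, rfl⟩ v
            change c.1 *ᵥ (e *ᵥ v) = e *ᵥ (c.1 *ᵥ v)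
            rw [mulVec_mulVec, mulVec_mulVec, hcomm c e he] }
      map_one' := LinearMap.ext fun v => one_mulVec v
      map_mul' := fun c c' => LinearMap.ext fun v => (mulVec_mulVec v c.1 c'.1).symm
      map_zero' := LinearMap.ext fun v => zero_mulVec v
      map_add' := fun c c' => LinearMap.ext fun v => add_mulVec c.1 c'.1 v }
  have hinj : Function.Injective f := by
    intro c c' h
    apply Subtype.ext
    apply T.injective
    exact LinearMap.ext fun v => LinearMap.congr_fun h v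
  have hsurj : Function.Surjective f := by
    intro c
    obtain ⟨C, hC⟩ := T.surjective (c.restrictScalars ℚ)
    have h1 : ∀ v, C *ᵥ v = c v := fun v => LinearMap.congr_fun hC v
    refine ⟨⟨C, (Subalgebra.mem_centralizer_iff ℚ).mpr fun e he => ?_⟩, LinearMap.ext h1⟩
    apply T.injective
    rw [map_mul, map_mul]
    refine LinearMap.ext fun v => ?_
    change e *ᵥ (C *ᵥ v) = C *ᵥ (e *ᵥ v)
    rw [h1, h1]
    exact (c.map_smul (⟨T e, ⟨e, he, rfl⟩⟩ : A) v).symm
  exact (RingEquiv.ofBijective f ⟨hinj, hsurj⟩).symm.isSemisimpleRing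

/-- the extension of scalars of a semisimple algebra of rational matrices is semisimple -/
theorem ext_semisimple {n : ℕ} (E : Subalgebra ℚ (Matrix (Fin n) (Fin n) ℚ))
    [IsSemisimpleRing E] (K : Type) [Field K] [Algebra ℚ K] :
    IsSemisimpleRing (Algebra.adjoin K ((fun f : Matrix (Fin n) (Fin n) ℚ =>
      f.map (algebraMap ℚ K)) '' (E : Set (Matrix (Fin n) (Fin n) ℚ)))) := by
  classical
  set B := Algebra.adjoin K ((fun f : Matrix (Fin n) (Fin n) ℚ =>
      f.map (algebraMap ℚ K)) '' (E : Set (Matrix (Fin n) (Fin n) ℚ))) with hB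
  let b := Module.finBasis ℚ E
  -- the elements are combinations of the basis
  have hspan : ∀ x ∈ B, ∃ c : Fin (Module.finrank ℚ E) → K,
      x = ∑ a, c a • (b a : Matrix (Fin n) (Fin n) ℚ).map (algebraMap ℚ K) := by
    have hbase : ∀ f ∈ E, ∃ q : Fin (Module.finrank ℚ E) → ℚ,
        ∑ a, q a • (b a : Matrix (Fin n) (Fin n) ℚ) = f := by
      intro f hf
      refine ⟨fun a => b.repr ⟨f, hf⟩ a, ?_⟩
      have h3 := congrArg (fun s : E => (s : Matrix (Fin n) (Fin n) ℚ)) (b.sum_repr ⟨f, hf⟩)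
      simp only [AddSubmonoidClass.coe_finsetSum, Subalgebra.coe_smul] at h3
      exact h3
    have hbase' : ∀ f ∈ E, ∃ c : Fin (Module.finrank ℚ E) → K, f.map (algebraMap ℚ K) =
        ∑ a, c a • (b a : Matrix (Fin n) (Fin n) ℚ).map (algebraMap ℚ K) := by
      intro f hf
      obtain ⟨q, hq⟩ := hbase f hf
      refine ⟨fun a => algebraMap ℚ K (q a), ?_⟩
      rw [← hq]
      ext i j
      simp only [Matrix.map_apply, Matrix.sum_apply, Matrix.smul_apply, smul_eq_mul, map_sum,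
        map_mul]
    intro x hx
    have hx' : x ∈ Subalgebra.toSubmodule B := hx
    rw [hB, Algebra.adjoin_eq_span] at hx'
    have hcl : ∀ y ∈ Submonoid.closure ((fun f : Matrix (Fin n) (Fin n) ℚ =>
        f.map (algebraMap ℚ K)) '' (E : Set (Matrix (Fin n) (Fin n) ℚ))),
        ∃ f ∈ E, y = f.map (algebraMap ℚ K) := by
      intro y hy
      induction hy using Submonoid.closure_induction with
      | mem y hy =>
        obtain ⟨f, hf, rfl⟩ := hy
        exact ⟨f, hf, rfl⟩
      | one => exact ⟨1, E.one_mem, (Matrix.map_one _ (map_zero _) (map_one _)).symm⟩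
      | mul y z _ _ hy hz =>
        obtain ⟨f, hf, rfl⟩ := hy
        obtain ⟨g, hg, rfl⟩ := hz
        exact ⟨f * g, E.mul_mem hf hg, Matrix.map_mul.symm⟩
    induction hx' using Submodule.span_induction with
    | mem y hy =>
      obtain ⟨f, hf, rfl⟩ := hcl y hy
      exact hbase' f hf
    | zero => exact ⟨0, by simp⟩
    | add y z hy0 hz0 hy hz =>
      obtain ⟨c, rfl⟩ := hy (by rw [hB, ← Subalgebra.mem_toSubmodule, Algebra.adjoin_eq_span]; exact hy0)
      obtain ⟨c', rfl⟩ := hz (by rw [hB, ← Subalgebra.mem_toSubmodule, Algebra.adjoin_eq_span]; exact hz0)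
      exact ⟨c + c', by simp only [Pi.add_apply, add_smul, Finset.sum_add_distrib]⟩
    | smul r y hy0 hy =>
      obtain ⟨c, rfl⟩ := hy (by rw [hB, ← Subalgebra.mem_toSubmodule, Algebra.adjoin_eq_span]; exact hy0)
      exact ⟨r • c, by simp only [Pi.smul_apply, smul_eq_mul, mul_smul, Finset.smul_sum]⟩
  let Γ : Matrix (Fin (Module.finrank ℚ E)) (Fin (Module.finrank ℚ E)) ℚ :=
    Matrix.of fun i j => ((b i).1 * (b j).1).trace
  have hΓ : Γ.det ≠ 0 := by
    intro h0
    obtain ⟨v, hv, hv0⟩ := Matrix.exists_vecMul_eq_zero_iff.mpr h0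
    apply hv
    have h1 : ∑ i, v i • b i = 0 := by
      apply Subtype.ext
      apply trace_nondegenerate E _ (∑ i, v i • b i).2
      intro y hy
      obtain ⟨q, hq⟩ : ∃ q : Fin (Module.finrank ℚ E) → ℚ,
          ∑ a, q a • (b a : Matrix (Fin n) (Fin n) ℚ) = y := by
        refine ⟨fun a => b.repr ⟨y, hy⟩ a, ?_⟩
        have h3 := congrArg (fun s : E => (s : Matrix (Fin n) (Fin n) ℚ)) (b.sum_repr ⟨y, hy⟩)
        simp only [AddSubmonoidClass.coe_finsetSum, Subalgebra.coe_smul] at h3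
        exact h3
      rw [← hq, Matrix.mul_sum, Matrix.trace_sum]
      refine Finset.sum_eq_zero fun j _ => ?_
      have h3 := congrFun hv0 j
      rw [Matrix.vecMul, dotProduct, Pi.zero_apply] at h3
      have e3 : (∑ i, v i • b i : E).1 = ∑ i, v i • (b i).1 := by
        simp only [AddSubmonoidClass.coe_finsetSum, Subalgebra.coe_smul]
      rw [Matrix.mul_smul, Matrix.trace_smul, e3, Matrix.sum_mul, Matrix.trace_sum]
      have e4 : ∑ i, (v i • (b i).1 * (b j).1).trace = 0 := by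
        rw [← h3]
        refine Finset.sum_congr rfl fun i _ => ?_
        rw [Matrix.smul_mul, Matrix.trace_smul, smul_eq_mul]
        rfl
      rw [e4, smul_zero]
    funext i
    exact Fintype.linearIndependent_iff.mp b.linearIndependent v h1 i
  have hdet : (Γ.map (algebraMap ℚ K)).det ≠ 0 := by
    have e : (Γ.map (algebraMap ℚ K)).det = algebraMap ℚ K Γ.det :=
      (RingHom.map_det (algebraMap ℚ K) Γ).symm
    rw [e]
    exact (map_ne_zero_iff _ (algebraMap ℚ K).injective).mpr hΓ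
  have hnd : ∀ x ∈ B, (∀ y ∈ B, (x * y).trace = 0) → x = 0 := by
    intro x hx h
    obtain ⟨c, rfl⟩ := hspan x hx
    have e3 : c ᵥ* Γ.map (algebraMap ℚ K) = 0 := by
      funext j
      have h1 := h _ (Algebra.subset_adjoin ⟨(b j).1, (b j).2, rfl⟩)
      rw [Matrix.sum_mul, Matrix.trace_sum] at h1
      rw [Matrix.vecMul, dotProduct, Pi.zero_apply, ← h1]
      refine Finset.sum_congr rfl fun i _ => ?_
      rw [Matrix.smul_mul, Matrix.trace_smul, smul_eq_mul]
      beta_reduce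
      rw [← Matrix.map_mul]
      congr 1
      simp only [Γ, Matrix.map_apply, Matrix.of_apply, Matrix.trace, Matrix.diag, map_sum]
    have e4 : c = 0 := by
      by_contra hc
      exact hdet (Matrix.exists_vecMul_eq_zero_iff.mp ⟨c, hc, e3⟩)
    rw [e4]
    exact Finset.sum_eq_zero fun j _ => by rw [Pi.zero_apply, zero_smul]
  have hart : IsArtinianRing B := IsArtinianRing.of_finite K _
  rw [IsArtinianRing.isSemisimpleRing_iff_jacobson, eq_bot_iff]
  intro x hx
  rw [Submodule.mem_bot]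
  apply Subtype.ext
  apply hnd x.1 x.2
  intro y hy
  obtain ⟨k, hk⟩ := (inferInstance : IsSemiprimaryRing B).isNilpotent
  have h1 : (⟨y, hy⟩ : B) * x ∈ Ring.jacobson B := Ideal.mul_mem_left _ _ hx
  have h2 : ((⟨y, hy⟩ : B) * x) ^ k = 0 := by
    have := Ideal.pow_mem_pow h1 k
    rw [hk] at this
    exact this
  have h3 : IsNilpotent (y * x.1) := ⟨k, congrArg Subtype.val h2⟩
  have h4 := (Matrix.isNilpotent_trace_of_isNilpotent h3).eq_zero
  rw [Matrix.trace_mul_comm]
  exact h4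

variable {G : Type} [Group G] {D : Motives G}

theorem semisimpleAt_of_isOpen (X : D.Obj) (ho : D.IsOpen X) (hE : IsSemisimpleRing (D.endo X))
    (ℓ : ℕ) [Fact ℓ.Prime] : D.IsSemisimpleAt X ℓ := by
  have hC := cent_semisimple (D.endo X)
  have hK := ext_semisimple (cent (D.endo X)) ℚ_[ℓ]
  let T : Matrix (Fin (D.rank X)) (Fin (D.rank X)) ℚ_[ℓ] ≃ₐ[ℚ_[ℓ]]
    Module.End ℚ_[ℓ] (Fin (D.rank X) → ℚ_[ℓ]) := Matrix.toLinAlgEquiv'
  let S : Set (Module.End ℚ_[ℓ] (Fin (D.rank X) → ℚ_[ℓ])) :=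
    T.toAlgHom '' ((fun f : Matrix (Fin (D.rank X)) (Fin (D.rank X)) ℚ =>
      f.map (algebraMap ℚ ℚ_[ℓ])) '' (cent (D.endo X) : Set _))
  have hS : IsSemisimpleRing (alg S) := by
    have e : alg S = (Algebra.adjoin ℚ_[ℓ] ((fun f : Matrix (Fin (D.rank X)) (Fin (D.rank X)) ℚ =>
      f.map (algebraMap ℚ ℚ_[ℓ])) '' (cent (D.endo X) : Set _))).map T.toAlgHom :=
      (AlgHom.map_adjoin _ _).symm
    rw [e]
    exact (Subalgebra.equivMapOfInjective _ T.toAlgHom T.injective).toRingEquiv.isSemisimpleRing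
  have hmod := (isSemisimpleModule_iff S).mp inferInstance
  have hcomm : ∀ c ∈ cent (D.endo X), ∀ e ∈ D.endo X, c * e = e * c := fun c hc e he =>
    ((Subalgebra.mem_centralizer_iff ℚ).mp hc e he).symm
  obtain ⟨j, hj⟩ := ho.1 ℓ
  intro W hW
  -- `W` is stable under the Galois algebra
  have hgal : ∀ w ∈ D.galoisAlgebra X ℓ, ∀ v ∈ W, w.map (algebraMap ℤ_[ℓ] ℚ_[ℓ]) *ᵥ v ∈ W := by
    intro w hw v hv
    unfold Motives.galoisAlgebra at hw
    induction hw using Submodule.span_induction with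
    | mem x hx =>
      obtain ⟨g, rfl⟩ := hx
      exact hW g v hv
    | zero =>
      rw [Matrix.map_zero _ (map_zero _), zero_mulVec]
      exact W.zero_mem
    | add x y _ _ hx hy =>
      rw [Matrix.map_add _ (map_add _), add_mulVec]
      exact W.add_mem hx hy
    | smul r x _ hx =>
      have e1 : (r • x).map (algebraMap ℤ_[ℓ] ℚ_[ℓ]) =
          algebraMap ℤ_[ℓ] ℚ_[ℓ] r • x.map (algebraMap ℤ_[ℓ] ℚ_[ℓ]) := by
        ext a b
        simp only [Matrix.map_apply, Matrix.smul_apply, smul_eq_mul, map_mul]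
      rw [e1, Matrix.smul_mulVec]
      exact W.smul_mem _ hx
  obtain ⟨W', h1, h2⟩ := hmod W (by
    rintro _ ⟨_, ⟨c, hc, rfl⟩, rfl⟩ v hv
    obtain ⟨k, c', hc', e⟩ := exists_integral X ℓ c (hcomm c hc)
    have h3 := hgal _ (hj c' hc') v hv
    have e2 : ((ℓ : ℤ_[ℓ]) ^ j • c').map (algebraMap ℤ_[ℓ] ℚ_[ℓ]) =
        ((ℓ : ℚ_[ℓ]) ^ j * (ℓ : ℚ_[ℓ]) ^ k) • c.map (algebraMap ℚ ℚ_[ℓ]) := by
      rw [mul_smul, ← e]
      ext x y
      simp only [Matrix.map_apply, Matrix.smul_apply, smul_eq_mul, map_mul, map_pow, map_natCast]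
    rw [e2, Matrix.smul_mulVec] at h3
    have h4 := W.smul_mem (((ℓ : ℚ_[ℓ]) ^ j * (ℓ : ℚ_[ℓ]) ^ k)⁻¹) h3
    rw [smul_smul, inv_mul_cancel₀ (mul_ne_zero (pow_ne_zero _ p_ne) (pow_ne_zero _ p_ne)),
      one_smul] at h4
    exact h4)
  refine ⟨W', fun g v hv => ?_, h2⟩
  have h3 := base_change ℚ_[ℓ] (D.endo X : Set _) (D.act X ℓ g) (by
    intro c hc
    exact (D.comm X X c hc ℓ g).symm)
  have h4 : ∀ x ∈ Submodule.span ℚ_[ℓ] ((fun f : Matrix (Fin (D.rank X)) (Fin (D.rank X)) ℚ =>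
      f.map (algebraMap ℚ ℚ_[ℓ])) '' {x | ∀ c ∈ (D.endo X : Set _), x * c = c * x}),
      x *ᵥ v ∈ W' := by
    intro x hx
    induction hx using Submodule.span_induction with
    | mem x hx =>
      obtain ⟨f, hf, rfl⟩ := hx
      exact h1 _ ⟨_, ⟨f, (Subalgebra.mem_centralizer_iff ℚ).mpr fun e he => (hf e he).symm, rfl⟩,
        rfl⟩ v hv
    | zero =>
      rw [zero_mulVec]
      exact W'.zero_mem
    | add x y _ _ hx hy =>
      rw [add_mulVec]
      exact W'.add_mem hx hy
    | smul r x _ hx =>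
      rw [Matrix.smul_mulVec]
      exact W'.smul_mem _ hx
  exact h4 _ h3

end Pool.Agent.Q55.SF
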