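import Pool.Agent.Q55.SF.Falt
import Pool.Agent.Q55.SF.OpSs

/-! # The openness of the Galois algebras implies the finiteness of `ℤ`-motives -/

set_option autoImplicit false

namespace Pool.Agent.Q55.SF

open Matrix

/-- choice of representatives -/
theorem exists_family {α T : Type} [Finite T] (Q : α → Prop) (Rel : α → T → Prop)
    (R : α → α → Prop) (h1 : ∀ a, Q a → ∃ s, Rel a s) (h2 : ∀ a b s, Rel a s → Rel b s → R a b) :
    ∃ (m : ℕ) (B : Fin m → α), ∀ a, Q a → ∃ i, R (B i) a := by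
  classical
  obtain ⟨m, ⟨e⟩⟩ := Finite.exists_equiv_fin {s : T // ∃ a, Rel a s}
  choose B hB using fun i => (e.symm i).2
  refine ⟨m, B, fun a ha => ?_⟩
  obtain ⟨s, hs⟩ := h1 a ha
  refine ⟨e ⟨s, a, hs⟩, h2 _ _ s ?_ hs⟩
  have h := hB (e ⟨s, a, hs⟩)
  rw [e.symm_apply_apply] at h
  exact h

/-- the code of a lattice near `ℤ ^ n` -/
def code {n : ℕ} (M : ℕ) (L : AddSubgroup (Fin n → ℚ)) : Set (Fin n → ZMod (M ^ 2)) :=
  {x | ∃ z : Fin n → ℤ, (∀ i, ((z i : ℤ) : ZMod (M ^ 2)) = x i) ∧ (fun i => (z i : ℚ) / M) ∈ L}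

theorem le_of_code {n : ℕ} {M : ℕ} (hM : 0 < M) {L L' : AddSubgroup (Fin n → ℚ)}
    (h : Near M (stdl n) L) (h' : Near M (stdl n) L') (hc : code M L = code M L')
    (v : Fin n → ℚ) (hv : v ∈ L) : v ∈ L' := by
  have hMq : (M : ℚ) ≠ 0 := Nat.cast_ne_zero.mpr hM.ne'
  choose z hz using h.2 v hv
  have hz' : ∀ i, (z i : ℚ) / M = v i := fun i => by
    rw [hz i, Pi.smul_apply, nsmul_eq_mul, mul_div_cancel_left₀ _ hMq]
  have h1 : (fun i => ((z i : ℤ) : ZMod (M ^ 2))) ∈ code M L :=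
    ⟨z, fun i => rfl, by
      have e : (fun i => (z i : ℚ) / M) = v := funext hz'
      rw [e]
      exact hv⟩
  rw [hc] at h1
  obtain ⟨z', h2, h3⟩ := h1
  have h4 : ∀ i, ∃ w : ℤ, z i = z' i + (M : ℤ) ^ 2 * w := by
    intro i
    have h5 := (ZMod.intCast_eq_intCast_iff_dvd_sub (z' i) (z i) (M ^ 2)).mp (h2 i)
    obtain ⟨w, hw⟩ := h5
    refine ⟨w, ?_⟩
    push_cast at hw
    linarith
  choose w hw using h4
  have h5 : v = (fun i => (z' i : ℚ) / M) + M • (fun i => (w i : ℚ)) := by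
    funext i
    rw [← hz' i, hw i, Pi.add_apply, Pi.smul_apply, nsmul_eq_mul]
    push_cast
    field_simp
  rw [h5]
  exact L'.add_mem h3 (h'.1 _ fun i => ⟨w i, rfl⟩)

variable {G : Type} [Group G] {D : Motives G}

/-- the reduction of the lattices of one motive -/
theorem exists_reduction (B : D.Obj) (hE : IsSemisimpleRing (D.endo B)) (ho : D.IsOpen B) :
    ∃ M : ℕ, 0 < M ∧ ∀ L : ∀ (ℓ : ℕ) [Fact ℓ.Prime], Submodule ℤ_[ℓ] (Fin (D.rank B) → ℚ_[ℓ]),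
      D.IsLattice B L → ∃ g ∈ D.Hom B B, ∃ g' ∈ D.Hom B B, g * g' = 1 ∧ g' * g = 1 ∧
        Near M (stdl (D.rank B)) (rat B fun ℓ _ => push g' L ℓ) := by
  obtain ⟨N₀, hN₀, h1⟩ := rat_stable ho
  obtain ⟨M, hM, h2⟩ := jordan_zassenhaus_matrix (D.endo B) N₀ hN₀
  refine ⟨M, hM, fun L hL => ?_⟩
  obtain ⟨g, hg, g', hg', e1, e2, h3, h4⟩ := h2 (rat B L) (rat_fg hL) (rat_full hL) (h1 L hL)
  have hmem : ∀ v, v ∈ (rat B fun ℓ _ => push g' L ℓ) ↔ g *ᵥ v ∈ rat B L := by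
    intro v
    rw [mem_rat, mem_rat]
    refine forall_congr' fun ℓ => forall_congr' fun _ => ?_
    rw [mem_push e2 e1, toQl_mulVec]
  refine ⟨g, hg, g', hg', e1, e2, fun w hw => ?_, fun v hv => h4 v ((hmem v).mp hv)⟩
  rw [hmem, mulVec_smul]
  exact h3 w hw

/-- The `ℤ`-motives whose rational motive is isomorphic to a given one. -/
theorem finite_isogeny (B : D.Obj) (hE : IsSemisimpleRing (D.endo B)) (ho : D.IsOpen B) :
    ∃ (m : ℕ) (B' : Fin m → D.ZMotive), ∀ A : D.ZMotive,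
      (∃ f ∈ D.Hom B A.X, ∃ g ∈ D.Hom A.X B, g * f = 1 ∧ f * g = 1) → ∃ i, D.Iso (B' i) A := by
  obtain ⟨M, hM, hM2⟩ := exists_reduction B hE ho
  have hne : NeZero (M ^ 2) := ⟨pow_ne_zero _ hM.ne'⟩
  refine exists_family (T := Set (Fin (D.rank B) → ZMod (M ^ 2)))
    (fun A : D.ZMotive => ∃ f ∈ D.Hom B A.X, ∃ g ∈ D.Hom A.X B, g * f = 1 ∧ f * g = 1)
    (fun A s => ∃ f ∈ D.Hom B A.X, ∃ g ∈ D.Hom A.X B, g * f = 1 ∧ f * g = 1 ∧
      Near M (stdl (D.rank B)) (rat B fun ℓ _ => push g A.L ℓ) ∧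
        code M (rat B fun ℓ _ => push g A.L ℓ) = s)
    D.Iso ?_ ?_
  · rintro A ⟨f, hf, g, hg, h4, h5⟩
    obtain ⟨u, hu, u', hu', h6, h7, h8⟩ := hM2 _ (isLattice_push hf h4 h5 A.isLattice)
    have a1 : (u' * g) * (f * u) = 1 := by
      rw [Matrix.mul_assoc, ← Matrix.mul_assoc g, h4, Matrix.one_mul, h7]
    have a2 : (f * u) * (u' * g) = 1 := by
      rw [Matrix.mul_assoc, ← Matrix.mul_assoc u, h6, Matrix.one_mul, h5]
    have e : (fun (ℓ : ℕ) (_ : Fact ℓ.Prime) => push u' (fun ℓ _ => push g A.L ℓ) ℓ) =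
        fun (ℓ : ℕ) (_ : Fact ℓ.Prime) => push (u' * g) A.L ℓ := by
      funext ℓ _
      ext v
      rw [mem_push h7 h6, mem_push h4 h5, mem_push a1 a2, mulVec_mulVec, ← Matrix.map_mul]
    refine ⟨code M (rat B fun ℓ _ => push (u' * g) A.L ℓ), f * u,
      D.mul_mem _ _ _ _ _ hf hu, u' * g, D.mul_mem _ _ _ _ _ hu' hg, a1, a2, ?_, rfl⟩
    have h9 : Near M (stdl (D.rank B)) (rat B fun ℓ _ => push u' (fun ℓ _ => push g A.L ℓ) ℓ) := h8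
    rw [e] at h9
    exact h9
  · rintro A A' s ⟨f, hf, g, hg, h1, h2, h3, h4⟩ ⟨f', hf', g', hg', h1', h2', h3', h4'⟩
    have hc := h4.trans h4'.symm
    have hl := isLattice_push hf h1 h2 A.isLattice
    have hl' := isLattice_push hf' h1' h2' A'.isLattice
    have hle : ∀ (ℓ : ℕ) [Fact ℓ.Prime] v, v ∈ push g A.L ℓ → v ∈ push g' A'.L ℓ :=
      fun ℓ _ v hv => rat_inj hl hl' (fun v hv => le_of_code hM h3 h3' hc v hv) ℓ v hv
    have hge : ∀ (ℓ : ℕ) [Fact ℓ.Prime] v, v ∈ push g' A'.L ℓ → v ∈ push g A.L ℓ :=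
      fun ℓ _ v hv => rat_inj hl' hl (fun v hv => le_of_code hM h3' h3 hc.symm v hv) ℓ v hv
    refine ⟨f' * g, D.mul_mem _ _ _ _ _ hf' hg, f * g', D.mul_mem _ _ _ _ _ hf hg', ?_, ?_,
      fun ℓ _ v => ?_⟩
    · rw [Matrix.mul_assoc, ← Matrix.mul_assoc g', h1', Matrix.one_mul, h2]
    · rw [Matrix.mul_assoc, ← Matrix.mul_assoc g, h1, Matrix.one_mul, h2']
    · have e1 : v ∈ A.L ℓ ↔ g.map (algebraMap ℚ ℚ_[ℓ]) *ᵥ v ∈ push g A.L ℓ := by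
        rw [mem_push h1 h2, mulVec_mulVec, ← Matrix.map_mul, h2,
          Matrix.map_one _ (map_zero _) (map_one _), one_mulVec]
      have e2 : (f' * g).map (algebraMap ℚ ℚ_[ℓ]) *ᵥ v ∈ A'.L ℓ ↔
          g.map (algebraMap ℚ ℚ_[ℓ]) *ᵥ v ∈ push g' A'.L ℓ := by
        rw [mem_push h1' h2', mulVec_mulVec, ← Matrix.map_mul]
      rw [e1, e2]
      exact ⟨hle ℓ _, hge ℓ _⟩

/-- The `ℚ`-motives with the property `P` and the value `t` of `h` fall into finitely many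
isomorphism classes, for each `t`. -/
def Motives.RationalFiniteness {G : Type} [Group G] (D : Motives G) {τ : Type} (P : D.Obj → Prop)
    (h : D.Obj → τ) : Prop :=
  ∀ t : τ, ∃ (m : ℕ) (B : Fin m → D.Obj), ∀ X : D.Obj, P X → h X = t →
    ∃ i, ∃ f ∈ D.Hom (B i) X, ∃ g ∈ D.Hom X (B i), g * f = 1 ∧ f * g = 1

theorem rational_of_finiteness {τ : Type} {P : D.Obj → Prop} {h : D.Obj → τ}
    (hfin : D.Finiteness P h) : D.RationalFiniteness P h := by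
  intro t
  obtain ⟨m, B, hB⟩ := hfin t
  have h2 : Fact (Nat.Prime 2) := ⟨Nat.prime_two⟩
  refine ⟨m, fun i => (B i).X, fun X hX ht => ?_⟩
  obtain ⟨i, f, hf, g, hg, h3, h4, -⟩ := hB ⟨X, fun ℓ _ => single 2 ⊤ ℓ,
    isLattice_single D X 2 ⊤ ⟨0, fun _ => Submodule.mem_top⟩ fun _ _ _ => Submodule.mem_top⟩ hX ht
  exact ⟨i, f, hf, g, hg, h3, h4⟩

theorem rational_of_faltings {τ : Type} {P : D.Obj → Prop} {h : D.Obj → τ}
    (hF : D.FaltingsFiniteness P h) (hsum : D.HasSums P)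
    (hE : ∀ X, P X → IsSemisimpleRing (D.endo X))
    (hT : ∀ (ℓ : ℕ) [Fact ℓ.Prime] (X : D.Obj), P X → D.IsSemisimpleAt X ℓ ∧ D.TateAt X ℓ) :
    D.RationalFiniteness P h := by
  intro t
  obtain ⟨ℓ, hℓ, hF⟩ := hF
  obtain ⟨m, B, hB, hBX⟩ := hF t
  refine ⟨m, B, fun X hX ht => ?_⟩
  obtain ⟨i, α, β, h1, h2, h3⟩ := hBX X hX ht (hT ℓ X hX).1
  exact ⟨i, exists_iso hsum hE ℓ (fun X hX => (hT ℓ X hX).2) (B i) X (hB i) hX α β h1 h2 h3⟩

theorem finiteness_of_isOpen {τ : Type} {P : D.Obj → Prop} {h : D.Obj → τ}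
    (hR : D.RationalFiniteness P h) (hE : ∀ X, P X → IsSemisimpleRing (D.endo X))
    (ho : ∀ X, P X → D.IsOpen X) : D.Finiteness P h := by
  intro t
  -- representatives with the property `P`
  obtain ⟨m, B, hB⟩ : ∃ (m : ℕ) (B : Fin m → {X : D.Obj // P X}), ∀ X : {X : D.Obj // P X},
      h X.1 = t → ∃ i, ∃ f ∈ D.Hom (B i).1 X.1, ∃ g ∈ D.Hom X.1 (B i).1, g * f = 1 ∧ f * g = 1 := by
    obtain ⟨m, B, hB⟩ := hR t
    refine exists_family (T := Fin m) (fun X : {X : D.Obj // P X} => h X.1 = t)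
      (fun X i => ∃ f ∈ D.Hom (B i) X.1, ∃ g ∈ D.Hom X.1 (B i), g * f = 1 ∧ f * g = 1)
      (fun Y X => ∃ f ∈ D.Hom Y.1 X.1, ∃ g ∈ D.Hom X.1 Y.1, g * f = 1 ∧ f * g = 1)
      (fun X hX => hB X.1 X.2 hX) ?_
    rintro X Y i ⟨f, hf, g, hg, h1, h2⟩ ⟨f', hf', g', hg', h1', h2'⟩
    refine ⟨f' * g, D.mul_mem _ _ _ _ _ hf' hg, f * g', D.mul_mem _ _ _ _ _ hf hg', ?_, ?_⟩
    · rw [Matrix.mul_assoc, ← Matrix.mul_assoc g', h1', Matrix.one_mul, h2]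
    · rw [Matrix.mul_assoc, ← Matrix.mul_assoc g, h1, Matrix.one_mul, h2']
  choose n B' hB' using fun i => finite_isogeny (B i).1 (hE _ (B i).2) (ho _ (B i).2)
  refine exists_family (T := Σ i : Fin m, Fin (n i)) (fun A : D.ZMotive => P A.X ∧ h A.X = t)
    (fun A s => D.Iso (B' s.1 s.2) A) D.Iso ?_ ?_ |>.imp
    fun m' h1 => h1.imp fun B' h2 A hA hA' => h2 A ⟨hA, hA'⟩
  · rintro A ⟨hA, hA'⟩
    obtain ⟨i, hi⟩ := hB ⟨A.X, hA⟩ hA'
    obtain ⟨j, hj⟩ := hB' i A hi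
    exact ⟨⟨i, j⟩, hj⟩
  · intro A A' s h1 h2
    exact iso_trans D (iso_symm D h1) h2

end Pool.Agent.Q55.SF
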