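import Pool.Agent.Q55.SF.Tate

/-! # The integral Tate conjecture implies that the Galois algebra is open -/

set_option autoImplicit false

namespace Pool.Agent.Q55.SF

open Matrix

variable {G : Type} [Group G] {D : Motives G}

theorem exists_pow_mem (X : D.Obj) (ℓ : ℕ) [Fact ℓ.Prime]
    (A : Matrix (Fin (D.rank X)) (Fin (D.rank X)) ℚ_[ℓ])
    (hA : A ∈ Submodule.span ℚ_[ℓ] (Set.range fun g : G => D.act X ℓ g)) :
    ∃ (k : ℕ), ∃ w ∈ D.galoisAlgebra X ℓ,
      (ℓ : ℚ_[ℓ]) ^ k • A = w.map (algebraMap ℤ_[ℓ] ℚ_[ℓ]) := by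
  induction hA using Submodule.span_induction with
  | mem x hx =>
    obtain ⟨g, rfl⟩ := hx
    exact ⟨0, im D X ℓ g, Submodule.subset_span ⟨g, rfl⟩, by rw [pow_zero, one_smul]; rfl⟩
  | zero => exact ⟨0, 0, Submodule.zero_mem _, by rw [smul_zero, Matrix.map_zero _ (map_zero _)]⟩
  | add x y _ _ hx hy =>
    obtain ⟨k, w, hw, e⟩ := hx
    obtain ⟨j, w', hw', e'⟩ := hy
    refine ⟨k + j, (ℓ : ℤ_[ℓ]) ^ j • w + (ℓ : ℤ_[ℓ]) ^ k • w', Submodule.add_mem _
      (Submodule.smul_mem _ _ hw) (Submodule.smul_mem _ _ hw'), ?_⟩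
    have e1 : ((ℓ : ℤ_[ℓ]) ^ j • w + (ℓ : ℤ_[ℓ]) ^ k • w').map (algebraMap ℤ_[ℓ] ℚ_[ℓ]) =
        (ℓ : ℚ_[ℓ]) ^ j • w.map (algebraMap ℤ_[ℓ] ℚ_[ℓ]) +
          (ℓ : ℚ_[ℓ]) ^ k • w'.map (algebraMap ℤ_[ℓ] ℚ_[ℓ]) := by
      ext a b
      simp only [Matrix.map_apply, Matrix.add_apply, Matrix.smul_apply, smul_eq_mul, map_add,
        map_mul, map_pow, map_natCast]
    rw [e1, ← e, ← e', smul_add, smul_smul, smul_smul, ← pow_add, ← pow_add, add_comm j k]
  | smul r x _ hx =>
    obtain ⟨k, w, hw, e⟩ := hx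
    obtain ⟨j, hj⟩ := exists_pow_mul_le r
    obtain ⟨t, ht⟩ : ∃ t : ℤ_[ℓ], algebraMap ℤ_[ℓ] ℚ_[ℓ] t = (ℓ : ℚ_[ℓ]) ^ j * r := ⟨⟨_, hj⟩, rfl⟩
    refine ⟨j + k, t • w, Submodule.smul_mem _ _ hw, ?_⟩
    have e1 : (t • w).map (algebraMap ℤ_[ℓ] ℚ_[ℓ]) =
        ((ℓ : ℚ_[ℓ]) ^ j * r) • w.map (algebraMap ℤ_[ℓ] ℚ_[ℓ]) := by
      rw [← ht]
      ext a b
      simp only [Matrix.map_apply, Matrix.smul_apply, smul_eq_mul, map_mul]
    rw [e1, ← e, smul_smul, smul_smul, pow_add]
    congr 1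
    ring

theorem exists_red_mem (X : D.Obj) (ℓ : ℕ) [Fact ℓ.Prime]
    (A : Matrix (Fin (D.rank X)) (Fin (D.rank X)) (ZMod ℓ))
    (hA : A ∈ Submodule.span (ZMod ℓ) (Set.range fun g : G => D.res X ℓ g)) :
    ∃ w ∈ D.galoisAlgebra X ℓ, A = w.map PadicInt.toZMod := by
  induction hA using Submodule.span_induction with
  | mem x hx =>
    obtain ⟨g, rfl⟩ := hx
    exact ⟨im D X ℓ g, Submodule.subset_span ⟨g, rfl⟩, rfl⟩
  | zero => exact ⟨0, Submodule.zero_mem _, by rw [Matrix.map_zero _ (map_zero _)]⟩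
  | add x y _ _ hx hy =>
    obtain ⟨w, hw, e⟩ := hx
    obtain ⟨w', hw', e'⟩ := hy
    exact ⟨w + w', Submodule.add_mem _ hw hw', by rw [e, e', Matrix.map_add _ (map_add _)]⟩
  | smul r x _ hx =>
    obtain ⟨w, hw, e⟩ := hx
    obtain ⟨s, hs⟩ := ZMod.ringHom_surjective (PadicInt.toZMod (p := ℓ)) r
    refine ⟨s • w, Submodule.smul_mem _ _ hw, ?_⟩
    rw [e, ← hs]
    ext a b
    simp only [Matrix.map_apply, Matrix.smul_apply, smul_eq_mul, map_mul]

theorem mulVecLin_span {K : Type} [Field K] {n : ℕ} {G : Type} (s : G → Matrix (Fin n) (Fin n) K)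
    (A : Matrix (Fin n) (Fin n) K)
    (hA : A.mulVecLin ∈ Submodule.span K (Set.range fun g => (s g).mulVecLin)) :
    A ∈ Submodule.span K (Set.range s) := by
  have h1 : (Submodule.span K (Set.range s)).map
      (Matrix.toLin' (R := K) (m := Fin n) (n := Fin n)).toLinearMap =
      Submodule.span K (Set.range fun g => (s g).mulVecLin) := by
    rw [Submodule.map_span, ← Set.range_comp]
    rfl
  rw [← h1] at hA
  obtain ⟨B, hB, e⟩ := hA
  have : B = A := (Matrix.toLin' (R := K) (m := Fin n) (n := Fin n)).injective e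
  rw [← this]
  exact hB

theorem toMatrix_mulVecLin {K : Type} [Field K] {n : ℕ} (φ : Module.End K (Fin n → K)) :
    ∃ α : Matrix (Fin n) (Fin n) K, φ = α.mulVecLin :=
  ⟨LinearMap.toMatrix' φ, (Matrix.toLin'_toMatrix' φ).symm⟩

theorem commute_iff {K : Type} [Field K] {n : ℕ} (A B : Matrix (Fin n) (Fin n) K) :
    Commute A.mulVecLin B.mulVecLin ↔ A * B = B * A := by
  have h : ∀ M N : Matrix (Fin n) (Fin n) K, M.mulVecLin * N.mulVecLin = (M * N).mulVecLin :=
    fun M N => (Matrix.mulVecLin_mul M N).symm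
  unfold Commute SemiconjBy
  rw [h, h]
  constructor
  · intro e
    exact (Matrix.toLin' (R := K) (m := Fin n) (n := Fin n)).injective e
  · intro e
    rw [e]

theorem mem_span_of_semisimple {K : Type} [Field K] {n : ℕ} {G : Type} [Group G]
    (s : G → Matrix (Fin n) (Fin n) K) (h1 : s 1 = 1) (hm : ∀ g g', s (g * g') = s g * s g')
    (hs : ∀ W : Submodule K (Fin n → K), (∀ g, ∀ v ∈ W, s g *ᵥ v ∈ W) →
      ∃ W' : Submodule K (Fin n → K), (∀ g, ∀ v ∈ W', s g *ᵥ v ∈ W') ∧ IsCompl W W')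
    (c : Matrix (Fin n) (Fin n) K)
    (hc : ∀ α : Matrix (Fin n) (Fin n) K, (∀ g, α * s g = s g * α) → α * c = c * α) :
    c ∈ Submodule.span K (Set.range s) := by
  apply mulVecLin_span
  apply alg_eq_span (fun g => (s g).mulVecLin)
  · rw [h1]; exact Matrix.mulVecLin_one
  · intro g g'
    rw [hm]; exact Matrix.mulVecLin_mul _ _
  · apply double_centralizer_alg
    · intro W hW
      obtain ⟨W', h2, h3⟩ := hs W (fun g v hv => hW _ ⟨g, rfl⟩ v hv)
      refine ⟨W', ?_, h3⟩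
      rintro _ ⟨g, rfl⟩ v hv
      exact h2 g v hv
    · intro φ hφ
      obtain ⟨α, rfl⟩ := toMatrix_mulVecLin φ
      rw [commute_iff]
      exact hc α fun g => (commute_iff _ _).mp (hφ _ ⟨g, rfl⟩)

theorem act_one (X : D.Obj) (ℓ : ℕ) [Fact ℓ.Prime] : D.act X ℓ (1 : G) = 1 := by
  unfold Motives.act
  rw [map_one, Units.val_one, Matrix.map_one _ (map_zero _) (map_one _)]

theorem act_mul (X : D.Obj) (ℓ : ℕ) [Fact ℓ.Prime] (g g' : G) :
    D.act X ℓ (g * g') = D.act X ℓ g * D.act X ℓ g' := by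
  unfold Motives.act
  rw [map_mul, Units.val_mul, Matrix.map_mul]

theorem res_one (X : D.Obj) (ℓ : ℕ) [Fact ℓ.Prime] : D.res X ℓ (1 : G) = 1 := by
  unfold Motives.res
  rw [map_one, Units.val_one, Matrix.map_one _ (map_zero _) (map_one _)]

theorem res_mul (X : D.Obj) (ℓ : ℕ) [Fact ℓ.Prime] (g g' : G) :
    D.res X ℓ (g * g') = D.res X ℓ g * D.res X ℓ g' := by
  unfold Motives.res
  rw [map_mul, Units.val_mul, Matrix.map_mul]

/-- an integral endomorphism commutes with the commutant, over `ℤ_ℓ` -/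
theorem commute_int (X : D.Obj) (ℓ : ℕ) [Fact ℓ.Prime]
    {c : Matrix (Fin (D.rank X)) (Fin (D.rank X)) ℤ_[ℓ]} (hc : c ∈ D.commutant X ℓ)
    {f : Matrix (Fin (D.rank X)) (Fin (D.rank X)) ℤ} (hf : f.map (algebraMap ℤ ℚ) ∈ D.Hom X X) :
    c * f.map (algebraMap ℤ ℤ_[ℓ]) = f.map (algebraMap ℤ ℤ_[ℓ]) * c := by
  apply map_inj
  rw [Matrix.map_mul, Matrix.map_mul]
  have h1 := hc _ hf
  have e : (f.map (algebraMap ℤ ℚ)).map (algebraMap ℚ ℚ_[ℓ]) =
      (f.map (algebraMap ℤ ℤ_[ℓ])).map (algebraMap ℤ_[ℓ] ℚ_[ℓ]) := by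
    ext i j
    simp only [Matrix.map_apply, eq_intCast, map_intCast]
  rw [e] at h1
  exact h1

theorem map_toZMod_int {n : ℕ} (ℓ : ℕ) [Fact ℓ.Prime] (f : Matrix (Fin n) (Fin n) ℤ) :
    (f.map (algebraMap ℤ ℤ_[ℓ])).map PadicInt.toZMod = f.map (algebraMap ℤ (ZMod ℓ)) := by
  ext i j
  simp only [Matrix.map_apply, eq_intCast, map_intCast]

theorem isOpen_of_integralTate (X : D.Obj) (hT : D.IntegralTate X) : D.IsOpen X := by
  classical
  constructor
  · intro ℓ _
    obtain ⟨hs, ht⟩ := hT.1 ℓ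
    have h1 : ∀ c ∈ D.commutant X ℓ, ∃ k : ℕ, (ℓ : ℤ_[ℓ]) ^ k • c ∈ D.galoisAlgebra X ℓ := by
      intro c hc
      have h2 := mem_span_of_semisimple (fun g : G => D.act X ℓ g) (act_one X ℓ)
        (act_mul X ℓ) hs (c.map (algebraMap ℤ_[ℓ] ℚ_[ℓ])) (by
          intro α hα
          have h3 := ht α hα
          induction h3 using Submodule.span_induction with
          | mem x hx =>
            obtain ⟨f, hf, rfl⟩ := hx
            exact (hc f hf).symm
          | zero => rw [Matrix.zero_mul, Matrix.mul_zero]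
          | add x y h3 h4 h5 h6 =>
            have h7 : ∀ z ∈ Submodule.span ℚ_[ℓ] ((fun f : Matrix (Fin (D.rank X))
                (Fin (D.rank X)) ℚ => f.map (algebraMap ℚ ℚ_[ℓ])) '' D.Hom X X),
                ∀ g : G, z * D.act X ℓ g = D.act X ℓ g * z := by
              intro z hz g
              induction hz using Submodule.span_induction with
              | mem x hx => obtain ⟨f, hf, rfl⟩ := hx; exact D.comm X X f hf ℓ g
              | zero => rw [Matrix.zero_mul, Matrix.mul_zero]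
              | add x y _ _ hx hy => rw [Matrix.add_mul, Matrix.mul_add, hx, hy]
              | smul r x _ hx => rw [Matrix.smul_mul, Matrix.mul_smul, hx]
            rw [Matrix.add_mul, Matrix.mul_add, h5 (h7 x h3), h6 (h7 y h4)]
          | smul r x h3 h5 =>
            have h7 : ∀ z ∈ Submodule.span ℚ_[ℓ] ((fun f : Matrix (Fin (D.rank X))
                (Fin (D.rank X)) ℚ => f.map (algebraMap ℚ ℚ_[ℓ])) '' D.Hom X X),
                ∀ g : G, z * D.act X ℓ g = D.act X ℓ g * z := by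
              intro z hz g
              induction hz using Submodule.span_induction with
              | mem x hx => obtain ⟨f, hf, rfl⟩ := hx; exact D.comm X X f hf ℓ g
              | zero => rw [Matrix.zero_mul, Matrix.mul_zero]
              | add x y _ _ hx hy => rw [Matrix.add_mul, Matrix.mul_add, hx, hy]
              | smul r x _ hx => rw [Matrix.smul_mul, Matrix.mul_smul, hx]
            rw [Matrix.smul_mul, Matrix.mul_smul, h5 (h7 x h3)])
      obtain ⟨k, w, hw, e⟩ := exists_pow_mem X ℓ _ h2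
      refine ⟨k, ?_⟩
      have e1 : (ℓ : ℤ_[ℓ]) ^ k • c = w := by
        apply map_inj
        rw [← e]
        ext a b
        simp only [Matrix.map_apply, Matrix.smul_apply, smul_eq_mul, map_mul, map_pow, map_natCast]
      rw [e1]
      exact hw
    obtain ⟨s, hs'⟩ := IsNoetherian.noetherian (D.commutant X ℓ)
    choose k hk using fun c : s => h1 c.1 (hs' ▸ Submodule.subset_span c.2)
    refine ⟨Finset.univ.sup k, fun c hc => ?_⟩
    rw [← hs'] at hc
    induction hc using Submodule.span_induction with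
    | mem x hx =>
      have hle : k ⟨x, hx⟩ ≤ Finset.univ.sup k := Finset.le_sup (Finset.mem_univ _)
      obtain ⟨t, ht'⟩ := Nat.exists_eq_add_of_le hle
      rw [ht', add_comm, pow_add, mul_smul]
      exact Submodule.smul_mem _ _ (hk ⟨x, hx⟩)
    | zero => rw [smul_zero]; exact Submodule.zero_mem _
    | add x y _ _ hx hy => rw [smul_add]; exact Submodule.add_mem _ hx hy
    | smul r x _ hx => rw [smul_comm]; exact Submodule.smul_mem _ _ hx
  · obtain ⟨N, hN⟩ := hT.2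
    refine ⟨N, fun ℓ _ hℓ => ?_⟩
    obtain ⟨hs, ht⟩ := hN ℓ hℓ
    apply nakayama
    intro c hc
    have h2 := mem_span_of_semisimple (fun g : G => D.res X ℓ g) (res_one X ℓ)
      (res_mul X ℓ) hs (c.map PadicInt.toZMod) (by
        intro α hα
        obtain ⟨f, hf, rfl⟩ := ht α hα
        have h3 := commute_int X ℓ hc hf
        rw [← map_toZMod_int, ← Matrix.map_mul, ← Matrix.map_mul, h3])
    obtain ⟨w, hw, e⟩ := exists_red_mem X ℓ _ h2
    have h4 : ∀ i j, ∃ z : ℤ_[ℓ], c i j = w i j + (ℓ : ℤ_[ℓ]) * z := by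
      intro i j
      have h5 := congrFun (congrFun e i) j
      rw [Matrix.map_apply, Matrix.map_apply] at h5
      have h6 : c i j - w i j ∈ RingHom.ker (PadicInt.toZMod (p := ℓ)) := by
        rw [RingHom.mem_ker, map_sub, h5, sub_self]
      rw [PadicInt.ker_toZMod, PadicInt.maximalIdeal_eq_span_p, Ideal.mem_span_singleton] at h6
      obtain ⟨z, hz⟩ := h6
      exact ⟨z, by rw [← hz]; ring⟩
    choose z hz using h4
    refine ⟨w, hw, Matrix.of z, ?_⟩
    ext i j
    rw [Matrix.add_apply, Matrix.smul_apply, smul_eq_mul, hz i j, Matrix.of_apply]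

end Pool.Agent.Q55.SF
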