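import Mathlib

/-!
# Pure motives with lattices: definitions

`G` is the absolute Galois group of a number field `F` (embedded in `ℂ`).
-/

set_option autoImplicit false

namespace Pool.Agent.Q55.SF

open Matrix

variable (G : Type) [Group G]

/-- Pure motives over `F` with their realisations. The Betti realisation of `X` is `ℚ ^ (rank X)`,
its `ℓ`-adic realisation is `V_ℓ = ℚ_ℓ ^ (rank X)`, and the basis is chosen so that
`ℤ_ℓ ^ (rank X)` is Galois stable for all `ℓ`. -/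
structure Motives where
  /-- the motives -/
  Obj : Type
  /-- the rank -/
  rank : Obj → ℕ
  /-- the morphisms, as matrices of the Betti realisations -/
  Hom : ∀ X Y : Obj, Submodule ℚ (Matrix (Fin (rank Y)) (Fin (rank X)) ℚ)
  one_mem : ∀ X : Obj, (1 : Matrix (Fin (rank X)) (Fin (rank X)) ℚ) ∈ Hom X X
  mul_mem : ∀ (X Y Z : Obj) (g : Matrix (Fin (rank Z)) (Fin (rank Y)) ℚ)
    (f : Matrix (Fin (rank Y)) (Fin (rank X)) ℚ), g ∈ Hom Y Z → f ∈ Hom X Y → g * f ∈ Hom X Z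
  /-- the Galois action on `ℤ_ℓ ^ (rank X)` -/
  rho : ∀ (X : Obj) (ℓ : ℕ) [Fact ℓ.Prime], G →* GL (Fin (rank X)) ℤ_[ℓ]
  /-- the morphisms are equivariant -/
  comm : ∀ (X Y : Obj) (f : Matrix (Fin (rank Y)) (Fin (rank X)) ℚ), f ∈ Hom X Y →
    ∀ (ℓ : ℕ) [Fact ℓ.Prime] (g : G),
      f.map (algebraMap ℚ ℚ_[ℓ]) *
        (rho X ℓ g : Matrix (Fin (rank X)) (Fin (rank X)) ℤ_[ℓ]).map (algebraMap ℤ_[ℓ] ℚ_[ℓ]) =
      (rho Y ℓ g : Matrix (Fin (rank Y)) (Fin (rank Y)) ℤ_[ℓ]).map (algebraMap ℤ_[ℓ] ℚ_[ℓ]) *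
        f.map (algebraMap ℚ ℚ_[ℓ])

variable {G}

namespace Motives

variable (D : Motives G)

/-- The action of the Galois group on `V_ℓ`. -/
noncomputable def act (X : D.Obj) (ℓ : ℕ) [Fact ℓ.Prime] (g : G) :
    Matrix (Fin (D.rank X)) (Fin (D.rank X)) ℚ_[ℓ] :=
  (D.rho X ℓ g : Matrix (Fin (D.rank X)) (Fin (D.rank X)) ℤ_[ℓ]).map (algebraMap ℤ_[ℓ] ℚ_[ℓ])

/-- The action of the Galois group on `T_ℓ / ℓ T_ℓ`. -/
noncomputable def res (X : D.Obj) (ℓ : ℕ) [Fact ℓ.Prime] (g : G) :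
    Matrix (Fin (D.rank X)) (Fin (D.rank X)) (ZMod ℓ) :=
  (D.rho X ℓ g : Matrix (Fin (D.rank X)) (Fin (D.rank X)) ℤ_[ℓ]).map PadicInt.toZMod

/-- The algebra of endomorphisms of `X`. -/
def endo (X : D.Obj) : Subalgebra ℚ (Matrix (Fin (D.rank X)) (Fin (D.rank X)) ℚ) where
  carrier := D.Hom X X
  mul_mem' {a b} ha hb := D.mul_mem X X X a b ha hb
  one_mem' := D.one_mem X
  add_mem' {a b} ha hb := (D.Hom X X).add_mem ha hb
  zero_mem' := (D.Hom X X).zero_mem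
  algebraMap_mem' r := by
    rw [Algebra.algebraMap_eq_smul_one]
    exact (D.Hom X X).smul_mem r (D.one_mem X)

/-- A Galois stable lattice in the adelic realisation of `X`: finitely generated Galois stable
`ℤ_ℓ`-submodules `L_ℓ` which span `V_ℓ`, with `L_ℓ = ℤ_ℓ ^ (rank X)` for almost all `ℓ`. -/
structure IsLattice (X : D.Obj)
    (L : ∀ (ℓ : ℕ) [Fact ℓ.Prime], Submodule ℤ_[ℓ] (Fin (D.rank X) → ℚ_[ℓ])) : Prop where
  fg : ∀ (ℓ : ℕ) [Fact ℓ.Prime], (L ℓ).FG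
  span : ∀ (ℓ : ℕ) [Fact ℓ.Prime] (v : Fin (D.rank X) → ℚ_[ℓ]), ∃ k : ℕ,
    (ℓ : ℚ_[ℓ]) ^ k • v ∈ L ℓ
  stable : ∀ (ℓ : ℕ) [Fact ℓ.Prime] (g : G), ∀ v ∈ L ℓ, D.act X ℓ g *ᵥ v ∈ L ℓ
  standard : ∃ N : ℕ, ∀ (ℓ : ℕ) [Fact ℓ.Prime], N < ℓ → ∀ v, v ∈ L ℓ ↔ ∀ i, ‖v i‖ ≤ 1

/-- A pure `ℤ`-motive: a motive with a Galois stable lattice in its adelic realisation. -/
structure ZMotive where
  /-- the rational motive -/
  X : D.Obj
  /-- the lattice -/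
  L : ∀ (ℓ : ℕ) [Fact ℓ.Prime], Submodule ℤ_[ℓ] (Fin (D.rank X) → ℚ_[ℓ])
  isLattice : D.IsLattice X L

/-- The `ℤ`-motives `A` and `B` are isomorphic: an isomorphism of the rational motives maps the
lattice of `A` onto the lattice of `B`. -/
def Iso (A B : D.ZMotive) : Prop :=
  ∃ f ∈ D.Hom A.X B.X, ∃ g ∈ D.Hom B.X A.X, g * f = 1 ∧ f * g = 1 ∧
    ∀ (ℓ : ℕ) [Fact ℓ.Prime] (v : Fin (D.rank A.X) → ℚ_[ℓ]),
      v ∈ A.L ℓ ↔ f.map (algebraMap ℚ ℚ_[ℓ]) *ᵥ v ∈ B.L ℓ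

/-- The assertion Q1: for each value `t` of the Hodge numbers `h` there are only finitely many
isomorphism classes of `ℤ`-motives with the property `P` (weight, reduction). -/
def Finiteness {τ : Type} (P : D.Obj → Prop) (h : D.Obj → τ) : Prop :=
  ∀ t : τ, ∃ (m : ℕ) (B : Fin m → D.ZMotive), ∀ A : D.ZMotive, P A.X → h A.X = t →
    ∃ i, D.Iso (B i) A

/-- The property `P` is stable under direct sums: all finite families of motives with `P` have a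
direct sum `Z` with `P` (with inclusions `i`, projections `p`). -/
def HasSums (P : D.Obj → Prop) : Prop :=
  ∀ (r : ℕ) (X : Fin r → D.Obj), (∀ a, P (X a)) → ∃ Z : D.Obj, P Z ∧
    ∃ (i : ∀ a, Matrix (Fin (D.rank Z)) (Fin (D.rank (X a))) ℚ)
      (p : ∀ a, Matrix (Fin (D.rank (X a))) (Fin (D.rank Z)) ℚ),
      (∀ a, i a ∈ D.Hom (X a) Z) ∧ (∀ a, p a ∈ D.Hom Z (X a)) ∧
        (∀ a, p a * i a = 1) ∧ (∀ a b, a ≠ b → p a * i b = 0) ∧ ∑ a, i a * p a = 1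

/-- The `ℓ`-adic realisation `V_ℓ` of `X` is a semisimple representation. -/
def IsSemisimpleAt (X : D.Obj) (ℓ : ℕ) [Fact ℓ.Prime] : Prop :=
  ∀ W : Submodule ℚ_[ℓ] (Fin (D.rank X) → ℚ_[ℓ]), (∀ g : G, ∀ v ∈ W, D.act X ℓ g *ᵥ v ∈ W) →
    ∃ W' : Submodule ℚ_[ℓ] (Fin (D.rank X) → ℚ_[ℓ]),
      (∀ g : G, ∀ v ∈ W', D.act X ℓ g *ᵥ v ∈ W') ∧ IsCompl W W'

/-- The Tate conjecture for the endomorphisms of `X`: every endomorphism of the representation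
`V_ℓ` is a `ℚ_ℓ`-linear combination of endomorphisms of `X`. -/
def TateAt (X : D.Obj) (ℓ : ℕ) [Fact ℓ.Prime] : Prop :=
  ∀ α : Matrix (Fin (D.rank X)) (Fin (D.rank X)) ℚ_[ℓ],
    (∀ g : G, α * D.act X ℓ g = D.act X ℓ g * α) →
      α ∈ Submodule.span ℚ_[ℓ] ((fun f : Matrix (Fin (D.rank X)) (Fin (D.rank X)) ℚ =>
        f.map (algebraMap ℚ ℚ_[ℓ])) '' D.Hom X X)

/-- `T_ℓ / ℓ T_ℓ` is a semisimple representation. -/
def IsSemisimpleMod (X : D.Obj) (ℓ : ℕ) [Fact ℓ.Prime] : Prop :=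
  ∀ W : Submodule (ZMod ℓ) (Fin (D.rank X) → ZMod ℓ), (∀ g : G, ∀ v ∈ W, D.res X ℓ g *ᵥ v ∈ W) →
    ∃ W' : Submodule (ZMod ℓ) (Fin (D.rank X) → ZMod ℓ),
      (∀ g : G, ∀ v ∈ W', D.res X ℓ g *ᵥ v ∈ W') ∧ IsCompl W W'

/-- Every endomorphism of the representation `T_ℓ / ℓ T_ℓ` is the reduction of an endomorphism of
`X` with integral coefficients. -/
def TateMod (X : D.Obj) (ℓ : ℕ) [Fact ℓ.Prime] : Prop :=
  ∀ α : Matrix (Fin (D.rank X)) (Fin (D.rank X)) (ZMod ℓ),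
    (∀ g : G, α * D.res X ℓ g = D.res X ℓ g * α) →
      ∃ f : Matrix (Fin (D.rank X)) (Fin (D.rank X)) ℤ,
        f.map (algebraMap ℤ ℚ) ∈ D.Hom X X ∧ α = f.map (algebraMap ℤ (ZMod ℓ))

/-- The integral form of the Tate conjecture for the endomorphisms of `X` (with semisimplicity), for
all `ℓ` and modulo `ℓ` for almost all `ℓ`. -/
def IntegralTate (X : D.Obj) : Prop :=
  (∀ (ℓ : ℕ) [Fact ℓ.Prime], D.IsSemisimpleAt X ℓ ∧ D.TateAt X ℓ) ∧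
    ∃ N : ℕ, ∀ (ℓ : ℕ) [Fact ℓ.Prime], N < ℓ → D.IsSemisimpleMod X ℓ ∧ D.TateMod X ℓ

/-- The `ℤ_ℓ`-algebra generated by the Galois group in the endomorphisms of `ℤ_ℓ ^ (rank X)`. -/
noncomputable def galoisAlgebra (X : D.Obj) (ℓ : ℕ) [Fact ℓ.Prime] :
    Submodule ℤ_[ℓ] (Matrix (Fin (D.rank X)) (Fin (D.rank X)) ℤ_[ℓ]) :=
  Submodule.span ℤ_[ℓ] (Set.range fun g : G =>
    (D.rho X ℓ g : Matrix (Fin (D.rank X)) (Fin (D.rank X)) ℤ_[ℓ]))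

/-- The endomorphisms of `ℤ_ℓ ^ (rank X)` which commute with all endomorphisms of `X`. -/
def commutant (X : D.Obj) (ℓ : ℕ) [Fact ℓ.Prime] :
    Submodule ℤ_[ℓ] (Matrix (Fin (D.rank X)) (Fin (D.rank X)) ℤ_[ℓ]) where
  carrier := {c | ∀ f ∈ D.Hom X X, c.map (algebraMap ℤ_[ℓ] ℚ_[ℓ]) * f.map (algebraMap ℚ ℚ_[ℓ]) =
    f.map (algebraMap ℚ ℚ_[ℓ]) * c.map (algebraMap ℤ_[ℓ] ℚ_[ℓ])}
  add_mem' {a b} ha hb f hf := by
    have e : (a + b).map (algebraMap ℤ_[ℓ] ℚ_[ℓ]) =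
        a.map (algebraMap ℤ_[ℓ] ℚ_[ℓ]) + b.map (algebraMap ℤ_[ℓ] ℚ_[ℓ]) :=
      Matrix.map_add _ (map_add _) a b
    rw [e, Matrix.add_mul, Matrix.mul_add, ha f hf, hb f hf]
  zero_mem' f _ := by
    rw [Matrix.map_zero _ (map_zero _), Matrix.zero_mul, Matrix.mul_zero]
  smul_mem' r a ha f hf := by
    have e : (r • a).map (algebraMap ℤ_[ℓ] ℚ_[ℓ]) =
        algebraMap ℤ_[ℓ] ℚ_[ℓ] r • a.map (algebraMap ℤ_[ℓ] ℚ_[ℓ]) := by
      ext i j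
      simp only [Matrix.map_apply, Matrix.smul_apply, smul_eq_mul, map_mul]
    rw [e, Matrix.smul_mul, Matrix.mul_smul, ha f hf]

/-- The algebra generated by the Galois group is open in the adelic commutant of the
endomorphisms: of finite index for each `ℓ`, and everything for almost all `ℓ`. -/
def IsOpen (X : D.Obj) : Prop :=
  (∀ (ℓ : ℕ) [Fact ℓ.Prime], ∃ k : ℕ, ∀ c ∈ D.commutant X ℓ,
    (ℓ : ℤ_[ℓ]) ^ k • c ∈ D.galoisAlgebra X ℓ) ∧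
    ∃ N : ℕ, ∀ (ℓ : ℕ) [Fact ℓ.Prime], N < ℓ → D.galoisAlgebra X ℓ = D.commutant X ℓ

/-- The known finiteness theorem of Faltings, for one prime `ℓ`: the semisimple representations
`V_ℓ(X)`, `X` with the property `P` and Hodge numbers `t`, fall into finitely many isomorphism
classes. -/
def FaltingsFiniteness {τ : Type} (P : D.Obj → Prop) (h : D.Obj → τ) : Prop :=
  ∃ (ℓ : ℕ) (_ : Fact ℓ.Prime), ∀ t : τ, ∃ (m : ℕ) (B : Fin m → D.Obj), (∀ i, P (B i)) ∧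
    ∀ X : D.Obj, P X → h X = t → D.IsSemisimpleAt X ℓ →
      ∃ (i : Fin m) (α : Matrix (Fin (D.rank X)) (Fin (D.rank (B i))) ℚ_[ℓ])
        (β : Matrix (Fin (D.rank (B i))) (Fin (D.rank X)) ℚ_[ℓ]), β * α = 1 ∧ α * β = 1 ∧
          ∀ g : G, α * D.act (B i) ℓ g = D.act X ℓ g * α

end Motives

end Pool.Agent.Q55.SF
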