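import Pool.Agent.Q55.SF.Pull

/-! # Isomorphisms of motives from isomorphisms of Galois representations -/

set_option autoImplicit false

namespace Pool.Agent.Q55.SF

open Matrix

variable {G : Type} [Group G] {D : Motives G}

/-- the sum of two motives -/
theorem sum_two {P : D.Obj → Prop} (hsum : D.HasSums P) (B X : D.Obj) (hB : P B) (hX : P X) :
    ∃ Z : D.Obj, P Z ∧ ∃ (iB : Matrix (Fin (D.rank Z)) (Fin (D.rank B)) ℚ)
      (iX : Matrix (Fin (D.rank Z)) (Fin (D.rank X)) ℚ)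
      (pB : Matrix (Fin (D.rank B)) (Fin (D.rank Z)) ℚ)
      (pX : Matrix (Fin (D.rank X)) (Fin (D.rank Z)) ℚ),
      iB ∈ D.Hom B Z ∧ iX ∈ D.Hom X Z ∧ pB ∈ D.Hom Z B ∧ pX ∈ D.Hom Z X ∧
        pB * iB = 1 ∧ pX * iX = 1 ∧ pX * iB = 0 ∧ pB * iX = 0 ∧ iB * pB + iX * pX = 1 := by
  obtain ⟨Z, hZ, i, p, hi, hp, h1, h2, h3⟩ := hsum 2 (fun a => if a = 0 then B else X) (by
    intro a
    by_cases h : a = 0
    · rw [if_pos h]; exact hB
    · rw [if_neg h]; exact hX)
  refine ⟨Z, hZ, i 0, i 1, p 0, p 1, hi 0, hi 1, hp 0, hp 1, h1 0, h1 1, h2 1 0 (by decide),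
    h2 0 1 (by decide), ?_⟩
  have h4 := h3
  rw [Fin.sum_univ_two] at h4
  exact h4

/-- a rational morphism which is invertible over `ℚ_ℓ` from a combination of morphisms -/
theorem exists_rational {m n : ℕ} (ℓ : ℕ) [Fact ℓ.Prime]
    (S : Submodule ℚ (Matrix (Fin m) (Fin n) ℚ)) (α : Matrix (Fin m) (Fin n) ℚ_[ℓ])
    (hα : α ∈ Submodule.span ℚ_[ℓ] ((fun f : Matrix (Fin m) (Fin n) ℚ =>
      f.map (algebraMap ℚ ℚ_[ℓ])) '' S))
    (β : Matrix (Fin n) (Fin m) ℚ_[ℓ]) (h1 : β * α = 1) :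
    ∃ f ∈ S, (β * f.map (algebraMap ℚ ℚ_[ℓ])).det ≠ 0 := by
  classical
  let b := Module.finBasis ℚ S
  -- `α` is a combination of the basis
  have h2 : ∃ x : Fin (Module.finrank ℚ S) → ℚ_[ℓ],
      α = ∑ a, x a • (b a : Matrix (Fin m) (Fin n) ℚ).map (algebraMap ℚ ℚ_[ℓ]) := by
    clear h1
    induction hα using Submodule.span_induction with
    | mem y hy =>
      obtain ⟨f, hf, rfl⟩ := hy
      obtain ⟨q, hq⟩ : ∃ q : Fin (Module.finrank ℚ S) → ℚ,
          ∑ a, q a • (b a : Matrix (Fin m) (Fin n) ℚ) = f := by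
        refine ⟨fun a => b.repr ⟨f, hf⟩ a, ?_⟩
        have h3 := congrArg (fun s : S => (s : Matrix (Fin m) (Fin n) ℚ)) (b.sum_repr ⟨f, hf⟩)
        simp only [Submodule.coe_sum, Submodule.coe_smul] at h3
        exact h3
      refine ⟨fun a => algebraMap ℚ ℚ_[ℓ] (q a), ?_⟩
      rw [← hq]
      ext i j
      simp only [Matrix.map_apply, Matrix.sum_apply, Matrix.smul_apply, smul_eq_mul, map_sum,
        map_mul]
    | zero => exact ⟨0, by simp⟩
    | add y z _ _ hy hz =>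
      obtain ⟨x, rfl⟩ := hy
      obtain ⟨x', rfl⟩ := hz
      exact ⟨x + x', by simp only [Pi.add_apply, add_smul, Finset.sum_add_distrib]⟩
    | smul r y _ hy =>
      obtain ⟨x, rfl⟩ := hy
      exact ⟨r • x, by simp only [Pi.smul_apply, smul_eq_mul, mul_smul, Finset.smul_sum]⟩
  obtain ⟨x, hx⟩ := h2
  let M : Matrix (Fin n) (Fin n) (MvPolynomial (Fin (Module.finrank ℚ S)) ℚ_[ℓ]) :=
    ∑ a, (MvPolynomial.X a : MvPolynomial (Fin (Module.finrank ℚ S)) ℚ_[ℓ]) •
      (β * (b a : Matrix (Fin m) (Fin n) ℚ).map (algebraMap ℚ ℚ_[ℓ])).map MvPolynomial.C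
  have hM : ∀ y : Fin (Module.finrank ℚ S) → ℚ_[ℓ], MvPolynomial.eval y M.det =
      (β * ∑ a, y a • (b a : Matrix (Fin m) (Fin n) ℚ).map (algebraMap ℚ ℚ_[ℓ])).det := by
    intro y
    rw [RingHom.map_det]
    congr 1
    ext i j
    simp only [M, RingHom.mapMatrix_apply, Matrix.map_apply, Matrix.sum_apply, Matrix.smul_apply,
      smul_eq_mul, map_sum, map_mul, MvPolynomial.eval_X, MvPolynomial.eval_C, Matrix.mul_sum,
      Matrix.mul_smul]
  have hne : M.det ≠ 0 := by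
    intro h0
    have h3 := hM x
    rw [h0, map_zero, ← hx, h1, Matrix.det_one] at h3
    exact zero_ne_one h3
  obtain ⟨y, hy⟩ : ∃ y : Fin (Module.finrank ℚ S) → ℚ,
      MvPolynomial.eval (fun a => algebraMap ℚ ℚ_[ℓ] (y a)) M.det ≠ 0 := by
    by_contra hcon
    push Not at hcon
    apply hne
    refine MvPolynomial.funext_set (fun _ => Set.range (algebraMap ℚ ℚ_[ℓ]))
      (fun _ => Set.infinite_range_of_injective (algebraMap ℚ ℚ_[ℓ]).injective) fun z hz => ?_
    rw [Set.mem_univ_pi] at hz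
    choose y hy using hz
    have e : z = fun a => algebraMap ℚ ℚ_[ℓ] (y a) := funext fun a => (hy a).symm
    rw [map_zero, e]
    exact hcon y
  refine ⟨((∑ a, y a • b a : S) : Matrix (Fin m) (Fin n) ℚ), (∑ a, y a • b a : S).2, ?_⟩
  rw [hM] at hy
  have e : ((∑ a, y a • b a : S) : Matrix (Fin m) (Fin n) ℚ).map (algebraMap ℚ ℚ_[ℓ]) =
      ∑ a, algebraMap ℚ ℚ_[ℓ] (y a) • (b a : Matrix (Fin m) (Fin n) ℚ).map (algebraMap ℚ ℚ_[ℓ]) := by
    ext i j
    simp only [Submodule.coe_sum, Submodule.coe_smul, Matrix.map_apply, Matrix.sum_apply,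
      Matrix.smul_apply, smul_eq_mul, map_sum, map_mul]
  rw [e]
  exact hy

/-- a rational matrix which is invertible over `ℚ_ℓ` -/
theorem exists_inverse {m n : ℕ} (ℓ : ℕ) [Fact ℓ.Prime] (hmn : n = m)
    (f : Matrix (Fin m) (Fin n) ℚ) (β : Matrix (Fin n) (Fin m) ℚ_[ℓ])
    (h : (β * f.map (algebraMap ℚ ℚ_[ℓ])).det ≠ 0) :
    ∃ g : Matrix (Fin n) (Fin m) ℚ, g * f = 1 ∧ f * g = 1 := by
  have hinj : Function.Injective f.mulVecLin := by
    rw [injective_iff_map_eq_zero]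
    intro v hv
    have h1 : f.map (algebraMap ℚ ℚ_[ℓ]) *ᵥ toQl ℓ v = 0 := by
      rw [← toQl_mulVec]
      have h2 : f *ᵥ v = 0 := hv
      rw [h2]
      exact funext fun i => map_zero _
    have h2 : (β * f.map (algebraMap ℚ ℚ_[ℓ])) *ᵥ toQl ℓ v = 0 := by
      rw [← mulVec_mulVec, h1, mulVec_zero]
    have h3 := Matrix.mulVec_injective_of_det_ne_zero h (h2.trans (mulVec_zero _).symm)
    funext i
    exact (algebraMap ℚ ℚ_[ℓ]).injective ((congrFun h3 i).trans (map_zero _).symm)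
  have hfr : Module.finrank ℚ (Fin n → ℚ) = Module.finrank ℚ (Fin m → ℚ) := by
    rw [Module.finrank_fin_fun, Module.finrank_fin_fun, hmn]
  have hsurj := (LinearMap.injective_iff_surjective_of_finrank_eq_finrank hfr).mp hinj
  let e := LinearEquiv.ofBijective f.mulVecLin ⟨hinj, hsurj⟩
  have he : ∀ v, e v = f *ᵥ v := fun v => rfl
  have hg : ∀ v, (LinearMap.toMatrix' e.symm.toLinearMap) *ᵥ v = e.symm v := fun v => by
    rw [LinearMap.toMatrix'_mulVec]
    rfl
  refine ⟨LinearMap.toMatrix' e.symm.toLinearMap, ?_, ?_⟩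
  · apply Matrix.mulVec_injective
    funext v
    rw [← mulVec_mulVec, hg, ← he, e.symm_apply_apply, one_mulVec]
  · apply Matrix.mulVec_injective
    funext v
    rw [← mulVec_mulVec, hg, ← he, e.apply_symm_apply, one_mulVec]

/-- If the Galois representations are isomorphic then the motives are. -/
theorem exists_iso {P : D.Obj → Prop} (hsum : D.HasSums P)
    (hE : ∀ X, P X → IsSemisimpleRing (D.endo X)) (ℓ : ℕ) [Fact ℓ.Prime]
    (hT : ∀ X, P X → D.TateAt X ℓ) (B X : D.Obj) (hB : P B) (hX : P X)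
    (α : Matrix (Fin (D.rank X)) (Fin (D.rank B)) ℚ_[ℓ])
    (β : Matrix (Fin (D.rank B)) (Fin (D.rank X)) ℚ_[ℓ]) (h1 : β * α = 1) (h2 : α * β = 1)
    (h3 : ∀ g : G, α * D.act B ℓ g = D.act X ℓ g * α) :
    ∃ f ∈ D.Hom B X, ∃ g ∈ D.Hom X B, g * f = 1 ∧ f * g = 1 := by
  obtain ⟨Z, hZ, iB, iX, pB, pX, miB, miX, mpB, mpX, e1, e2, e3, e4, e5⟩ := sum_two hsum B X hB hX
  -- `α` is a combination of morphisms
  have hα : α ∈ Submodule.span ℚ_[ℓ] ((fun f : Matrix (Fin (D.rank X)) (Fin (D.rank B)) ℚ =>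
      f.map (algebraMap ℚ ℚ_[ℓ])) '' D.Hom B X) := by
    have h4 := hT Z hZ (iX.map (algebraMap ℚ ℚ_[ℓ]) * α * pB.map (algebraMap ℚ ℚ_[ℓ])) (by
      intro g
      have c1 := D.comm X Z iX miX ℓ g
      have c2 := D.comm Z B pB mpB ℓ g
      change iX.map (algebraMap ℚ ℚ_[ℓ]) * D.act X ℓ g = D.act Z ℓ g * iX.map (algebraMap ℚ ℚ_[ℓ]) at c1
      change pB.map (algebraMap ℚ ℚ_[ℓ]) * D.act Z ℓ g = D.act B ℓ g * pB.map (algebraMap ℚ ℚ_[ℓ]) at c2
      rw [Matrix.mul_assoc, c2, ← Matrix.mul_assoc, Matrix.mul_assoc (iX.map _) α, h3,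
        ← Matrix.mul_assoc, c1, Matrix.mul_assoc, Matrix.mul_assoc, Matrix.mul_assoc])
    have h5 : ∀ W ∈ Submodule.span ℚ_[ℓ] ((fun f : Matrix (Fin (D.rank Z)) (Fin (D.rank Z)) ℚ =>
        f.map (algebraMap ℚ ℚ_[ℓ])) '' D.Hom Z Z),
        pX.map (algebraMap ℚ ℚ_[ℓ]) * W * iB.map (algebraMap ℚ ℚ_[ℓ]) ∈
          Submodule.span ℚ_[ℓ] ((fun f : Matrix (Fin (D.rank X)) (Fin (D.rank B)) ℚ =>
            f.map (algebraMap ℚ ℚ_[ℓ])) '' D.Hom B X) := by
      intro W hW
      induction hW using Submodule.span_induction with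
      | mem y hy =>
        obtain ⟨f, hf, rfl⟩ := hy
        refine Submodule.subset_span ⟨pX * f * iB,
          D.mul_mem _ _ _ _ _ (D.mul_mem _ _ _ _ _ mpX hf) miB, ?_⟩
        beta_reduce
        rw [Matrix.map_mul, Matrix.map_mul]
      | zero =>
        rw [Matrix.mul_zero, Matrix.zero_mul]
        exact Submodule.zero_mem _
      | add y z _ _ hy hz =>
        rw [Matrix.mul_add, Matrix.add_mul]
        exact Submodule.add_mem _ hy hz
      | smul r y _ hy =>
        rw [Matrix.mul_smul, Matrix.smul_mul]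
        exact Submodule.smul_mem _ r hy
    have h6 := h5 _ h4
    have e2' : pX.map (algebraMap ℚ ℚ_[ℓ]) * iX.map (algebraMap ℚ ℚ_[ℓ]) = 1 := by
      rw [← Matrix.map_mul, e2, Matrix.map_one _ (map_zero _) (map_one _)]
    have e1' : pB.map (algebraMap ℚ ℚ_[ℓ]) * iB.map (algebraMap ℚ ℚ_[ℓ]) = 1 := by
      rw [← Matrix.map_mul, e1, Matrix.map_one _ (map_zero _) (map_one _)]
    have h7 : pX.map (algebraMap ℚ ℚ_[ℓ]) *
        (iX.map (algebraMap ℚ ℚ_[ℓ]) * α * pB.map (algebraMap ℚ ℚ_[ℓ])) *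
          iB.map (algebraMap ℚ ℚ_[ℓ]) = α := by
      rw [Matrix.mul_assoc (iX.map _), ← Matrix.mul_assoc (pX.map _), e2', Matrix.one_mul,
        Matrix.mul_assoc, e1', Matrix.mul_one]
    rw [h7] at h6
    exact h6
  obtain ⟨f, hf, hdet⟩ := exists_rational ℓ (D.Hom B X) α hα β h1
  have hrank : D.rank B = D.rank X := by
    have h4 := Matrix.square_of_invertible β α h1 h2
    rwa [Fintype.card_fin, Fintype.card_fin] at h4
  obtain ⟨g, hg1, hg2⟩ := exists_inverse ℓ hrank f β hdet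
  refine ⟨f, hf, g, ?_, hg1, hg2⟩
  -- the inverse is a morphism
  have := hE Z hZ
  have hend : ∀ e : Matrix (Fin (D.rank Z)) (Fin (D.rank Z)) ℚ, e ∈ D.endo Z ↔ e ∈ D.Hom Z Z :=
    fun e => Iff.rfl
  have key : iB * g * pX ∈ D.endo Z := by
    refine double_centralizer_matrix (D.endo Z) _ fun c hc => ?_
    have c1 : c * (iB * pB) = iB * pB * c := hc _ ((hend _).mpr (D.mul_mem _ _ _ _ _ miB mpB))
    have c2 : c * (iX * pX) = iX * pX * c := hc _ ((hend _).mpr (D.mul_mem _ _ _ _ _ miX mpX))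
    have c3 : c * (iX * f * pB) = iX * f * pB * c :=
      hc _ ((hend _).mpr (D.mul_mem _ _ _ _ _ (D.mul_mem _ _ _ _ _ miX hf) mpB))
    -- `c iB = iB cB` and `pX c = cX pX`
    have d1 : c * iB = iB * (pB * c * iB) := by
      have h4 := congrArg (fun M => M * iB) c1
      simp only [Matrix.mul_assoc] at h4
      rw [e1, Matrix.mul_one] at h4
      rw [h4]
      simp only [Matrix.mul_assoc]
    have d2 : pX * c = pX * c * iX * pX := by
      have h4 := congrArg (fun M => pX * M) c2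
      simp only [← Matrix.mul_assoc] at h4
      rw [e2, Matrix.one_mul] at h4
      exact h4.symm
    have d3 : c * iX = iX * (pX * c * iX) := by
      have h4 := congrArg (fun M => M * iX) c2
      simp only [Matrix.mul_assoc] at h4
      rw [e2, Matrix.mul_one] at h4
      rw [h4]
      simp only [Matrix.mul_assoc]
    -- `cX f = f cB`
    have d4 : (pX * c * iX) * f = f * (pB * c * iB) := by
      have h4 := congrArg (fun M => pX * M * iB) c3
      simp only [Matrix.mul_assoc] at h4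
      rw [e1, Matrix.mul_one, ← Matrix.mul_assoc pX iX, e2, Matrix.one_mul] at h4
      simp only [Matrix.mul_assoc]
      exact h4
    have d5 : (pB * c * iB) * g = g * (pX * c * iX) := by
      calc (pB * c * iB) * g = (g * f) * (pB * c * iB) * g := by rw [hg1, Matrix.one_mul]
        _ = g * (f * (pB * c * iB)) * g := by rw [Matrix.mul_assoc g f]
        _ = g * ((pX * c * iX) * f) * g := by rw [d4]
        _ = g * (pX * c * iX) * (f * g) := by simp only [Matrix.mul_assoc]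
        _ = g * (pX * c * iX) := by rw [hg2, Matrix.mul_one]
    calc c * (iB * g * pX) = (c * iB) * g * pX := by simp only [Matrix.mul_assoc]
      _ = iB * ((pB * c * iB) * g) * pX := by
          conv_lhs => rw [d1]
          simp only [Matrix.mul_assoc]
      _ = iB * (g * (pX * c * iX)) * pX := by rw [d5]
      _ = iB * g * (pX * c * iX * pX) := by simp only [Matrix.mul_assoc]
      _ = iB * g * (pX * c) := by rw [← d2]
      _ = iB * g * pX * c := by simp only [Matrix.mul_assoc]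
  have h4 : pB * (iB * g * pX) * iX = g := by
    rw [Matrix.mul_assoc iB, ← Matrix.mul_assoc pB, e1, Matrix.one_mul, Matrix.mul_assoc, e2,
      Matrix.mul_one]
  rw [← h4]
  exact D.mul_mem _ _ _ _ _ (D.mul_mem _ _ _ _ _ mpB ((hend _).mp key)) miX

end Pool.Agent.Q55.SF
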