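import Pool.Agent.Q55.SF.Lat

/-! # Finiteness implies that the Galois algebra is open in the commutant -/

set_option autoImplicit false

namespace Pool.Agent.Q55.SF

open Matrix

variable {G : Type} [Group G] (D : Motives G)

/-- the integral matrix of `g` -/
noncomputable abbrev im (X : D.Obj) (ℓ : ℕ) [Fact ℓ.Prime] (g : G) :
    Matrix (Fin (D.rank X)) (Fin (D.rank X)) ℤ_[ℓ] :=
  (D.rho X ℓ g : Matrix (Fin (D.rank X)) (Fin (D.rank X)) ℤ_[ℓ])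

/-- the orbit module of the vector `e` -/
noncomputable def orb (X : D.Obj) (ℓ : ℕ) [Fact ℓ.Prime] (e : Fin (D.rank X) → ℤ_[ℓ]) :
    Submodule ℤ_[ℓ] (Fin (D.rank X) → ℤ_[ℓ]) :=
  Submodule.span ℤ_[ℓ] (Set.range fun g : G => im D X ℓ g *ᵥ e)

theorem mem_orb (X : D.Obj) (ℓ : ℕ) [Fact ℓ.Prime] (e : Fin (D.rank X) → ℤ_[ℓ]) :
    e ∈ orb D X ℓ e := by
  refine Submodule.subset_span ⟨1, ?_⟩
  simp only [im, map_one, Units.val_one, one_mulVec]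

theorem orb_stable (X : D.Obj) (ℓ : ℕ) [Fact ℓ.Prime] (e : Fin (D.rank X) → ℤ_[ℓ]) (g : G)
    (v : Fin (D.rank X) → ℤ_[ℓ]) (hv : v ∈ orb D X ℓ e) : im D X ℓ g *ᵥ v ∈ orb D X ℓ e := by
  unfold orb at hv
  induction hv using Submodule.span_induction with
  | mem x hx =>
    obtain ⟨g', rfl⟩ := hx
    refine Submodule.subset_span ⟨g * g', ?_⟩
    simp only [im, map_mul, Units.val_mul, mulVec_mulVec]
  | zero => rw [mulVec_zero]; exact Submodule.zero_mem _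
  | add x y _ _ h1 h2 => rw [mulVec_add]; exact Submodule.add_mem _ h1 h2
  | smul a x _ h1 => rw [mulVec_smul]; exact Submodule.smul_mem _ _ h1

/-- multiplication by `ℓ ^ n` -/
noncomputable def ptop (m : ℕ) (ℓ : ℕ) [Fact ℓ.Prime] (n : ℕ) :
    Submodule ℤ_[ℓ] (Fin m → ℤ_[ℓ]) :=
  LinearMap.range ((ℓ : ℤ_[ℓ]) ^ n • (LinearMap.id : (Fin m → ℤ_[ℓ]) →ₗ[ℤ_[ℓ]] (Fin m → ℤ_[ℓ])))

theorem mem_ptop {m : ℕ} {ℓ : ℕ} [Fact ℓ.Prime] {n : ℕ} (v : Fin m → ℤ_[ℓ]) :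
    (ℓ : ℤ_[ℓ]) ^ n • v ∈ ptop m ℓ n := ⟨v, rfl⟩

theorem ptop_elim {m : ℕ} {ℓ : ℕ} [Fact ℓ.Prime] {n : ℕ} {v : Fin m → ℤ_[ℓ]}
    (h : v ∈ ptop m ℓ n) : ∃ w, v = (ℓ : ℤ_[ℓ]) ^ n • w := by
  obtain ⟨w, rfl⟩ := h
  exact ⟨w, rfl⟩

theorem ptop_stable {m : ℕ} {ℓ : ℕ} [Fact ℓ.Prime] {n : ℕ} (A : Matrix (Fin m) (Fin m) ℤ_[ℓ])
    (v : Fin m → ℤ_[ℓ]) (h : v ∈ ptop m ℓ n) : A *ᵥ v ∈ ptop m ℓ n := by
  obtain ⟨w, rfl⟩ := ptop_elim h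
  rw [mulVec_smul]
  exact mem_ptop _

theorem sup_ptop_lattice (X : D.Obj) (ℓ : ℕ) [Fact ℓ.Prime]
    (R : Submodule ℤ_[ℓ] (Fin (D.rank X) → ℤ_[ℓ])) (hs : ∀ g, ∀ v ∈ R, im D X ℓ g *ᵥ v ∈ R)
    (n : ℕ) : D.IsLattice X (fun ℓ' _ => single ℓ (R ⊔ ptop _ ℓ n) ℓ') := by
  refine isLattice_single D X ℓ _ ⟨n, fun v => Submodule.mem_sup_right (mem_ptop v)⟩ ?_
  intro g v hv
  obtain ⟨a, ha, b, hb, rfl⟩ := Submodule.mem_sup.mp hv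
  rw [mulVec_add]
  exact Submodule.add_mem _ (Submodule.mem_sup_left (hs g a ha))
    (Submodule.mem_sup_right (ptop_stable _ b hb))

theorem comm_map (X : D.Obj) (ℓ : ℕ) [Fact ℓ.Prime] {c : Matrix (Fin (D.rank X)) (Fin (D.rank X)) ℤ_[ℓ]}
    (hc : c ∈ D.commutant X ℓ) {f : Matrix (Fin (D.rank X)) (Fin (D.rank X)) ℚ}
    (hf : f ∈ D.Hom X X) (v : Fin (D.rank X) → ℤ_[ℓ]) (w : Fin (D.rank X) → ℤ_[ℓ])
    (h : f.map (algebraMap ℚ ℚ_[ℓ]) *ᵥ emb _ ℓ v = emb _ ℓ w) :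
    f.map (algebraMap ℚ ℚ_[ℓ]) *ᵥ emb _ ℓ (c *ᵥ v) = emb _ ℓ (c *ᵥ w) := by
  rw [emb_mulVec, emb_mulVec, ← h, mulVec_mulVec, mulVec_mulVec, hc f hf]

variable {D}

theorem claimA {τ : Type} {P : D.Obj → Prop} {h : D.Obj → τ} (hfin : D.Finiteness P h) (X : D.Obj)
    (hX : P X) (ℓ : ℕ) [Fact ℓ.Prime] (e : Fin (D.rank X) → ℤ_[ℓ]) :
    ∃ m : ℕ, ∀ c ∈ D.commutant X ℓ, (ℓ : ℤ_[ℓ]) ^ m • (c *ᵥ e) ∈ orb D X ℓ e := by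
  obtain ⟨m, hm⟩ := pigeon D hfin X hX
    (fun n : ℕ => fun ℓ' _ => single ℓ (orb D X ℓ e ⊔ ptop _ ℓ n) ℓ')
    (fun n => sup_ptop_lattice D X ℓ _ (orb_stable D X ℓ e) n)
  refine ⟨m, fun c hc => ?_⟩
  apply mem_of_all
  intro k
  obtain ⟨n, hn, hkn⟩ := hm.exists_gt k
  obtain ⟨f, hf, g, hg, h1, h2, h3⟩ := hn
  have h4 := h3 ℓ
  simp only [single_self] at h4
  -- the preimage of `e`
  set x := g.map (algebraMap ℚ ℚ_[ℓ]) *ᵥ emb _ ℓ e with hx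
  have h5 : f.map (algebraMap ℚ ℚ_[ℓ]) *ᵥ x = emb _ ℓ e := by
    rw [hx, mulVec_mulVec, ← Matrix.map_mul, h2, Matrix.map_one _ (map_zero _) (map_one _),
      one_mulVec]
  have h6 : x ∈ (orb D X ℓ e ⊔ ptop _ ℓ m).map (emb _ ℓ) := by
    rw [h4, h5]
    exact ⟨e, Submodule.mem_sup_left (mem_orb D X ℓ e), rfl⟩
  obtain ⟨y, -, hy⟩ := h6
  have h7 := comm_map D X ℓ hc hf y e (by rw [hy, h5])
  have h8 : emb _ ℓ ((ℓ : ℤ_[ℓ]) ^ m • (c *ᵥ y)) ∈ (orb D X ℓ e ⊔ ptop _ ℓ m).map (emb _ ℓ) :=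
    ⟨_, Submodule.mem_sup_right (mem_ptop _), rfl⟩
  rw [h4, emb_nsmul, mulVec_smul, h7, ← emb_nsmul] at h8
  obtain ⟨z, hz, hz'⟩ := h8
  rw [← emb_inj hz']
  obtain ⟨a, ha, b, hb, rfl⟩ := Submodule.mem_sup.mp hz
  obtain ⟨w, rfl⟩ := ptop_elim hb
  obtain ⟨t, ht⟩ := Nat.exists_eq_add_of_le hkn.le
  refine ⟨a, ha, (ℓ : ℤ_[ℓ]) ^ t • w, ?_⟩
  rw [ht, pow_add, mul_smul]

/-- For almost all primes every Galois stable module between `ℓ T` and `T` is the image of `T` under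
an automorphism of `X`. -/
theorem claimB {τ : Type} {P : D.Obj → Prop} {h : D.Obj → τ} (hfin : D.Finiteness P h) (X : D.Obj)
    (hX : P X) : ∃ N : ℕ, ∀ (ℓ : ℕ) [Fact ℓ.Prime], N < ℓ →
      ∀ R : Submodule ℤ_[ℓ] (Fin (D.rank X) → ℤ_[ℓ]), (∀ v : Fin (D.rank X) → ℤ_[ℓ], (ℓ : ℤ_[ℓ]) • v ∈ R) →
        (∀ g, ∀ v ∈ R, im D X ℓ g *ᵥ v ∈ R) →
        ∃ f ∈ D.Hom X X, ∃ g ∈ D.Hom X X, g * f = 1 ∧ f * g = 1 ∧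
          ∀ v, v ∈ LinearMap.range (emb _ ℓ) ↔
            f.map (algebraMap ℚ ℚ_[ℓ]) *ᵥ v ∈ R.map (emb _ ℓ) := by
  classical
  by_contra hcon
  push Not at hcon
  -- bad primes
  let Bad : ℕ → Prop := fun ℓ => ∃ (_ : Fact ℓ.Prime)
    (R : Submodule ℤ_[ℓ] (Fin (D.rank X) → ℤ_[ℓ])), (∀ v : Fin (D.rank X) → ℤ_[ℓ], (ℓ : ℤ_[ℓ]) • v ∈ R) ∧
      (∀ g, ∀ v ∈ R, im D X ℓ g *ᵥ v ∈ R) ∧
      ∀ f ∈ D.Hom X X, ∀ g ∈ D.Hom X X, g * f = 1 → f * g = 1 →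
        ¬ ∀ v, v ∈ LinearMap.range (emb _ ℓ) ↔
            f.map (algebraMap ℚ ℚ_[ℓ]) *ᵥ v ∈ R.map (emb _ ℓ)
  have hbad : ∀ N, ∃ ℓ, N < ℓ ∧ Bad ℓ := by
    intro N
    obtain ⟨ℓ, hℓ, h1, R, h2, h3, h4⟩ := hcon N
    refine ⟨ℓ, h1, hℓ, R, h2, h3, fun f hf g hg e1 e2 e3 => ?_⟩
    obtain ⟨v, hv⟩ := h4 f hf g hg e1 e2
    rcases hv with ⟨hv1, hv2⟩ | ⟨hv1, hv2⟩
    · exact hv2 ((e3 v).mp hv1)
    · exact hv1 ((e3 v).mpr hv2)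
  have hinf : {ℓ | Bad ℓ}.Infinite := by
    rw [Set.infinite_iff_exists_gt]
    intro N
    obtain ⟨ℓ, h1, h2⟩ := hbad N
    exact ⟨ℓ, h2, h1⟩
  have : Infinite {ℓ // Bad ℓ} := hinf.to_subtype
  choose hF R hR1 hR2 hR3 using fun j : {ℓ // Bad ℓ} => j.2
  obtain ⟨m, hm⟩ := pigeon D hfin X hX
    (fun j : {ℓ // Bad ℓ} => fun ℓ' _ => @single _ j.1 (hF j) (R j) ℓ' _)
    (fun j => by
      have := hF j
      exact isLattice_single D X j.1 (R j) ⟨1, fun v => by rw [pow_one]; exact hR1 j v⟩ (hR2 j))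
  obtain ⟨j, hj, hjm⟩ := hm.exists_notMem_finset {m}
  rw [Finset.mem_singleton] at hjm
  obtain ⟨f, hf, g, hg, h1, h2, h3⟩ := hj
  have := hF j
  have := hF m
  apply hR3 j f hf g hg h1 h2
  intro v
  have h4 := h3 j.1 v
  have hne : j.1 ≠ m.1 := fun h => hjm (Subtype.ext h)
  beta_reduce at h4
  rw [single_ne m.1 (R m) j.1 hne, single_self] at h4
  exact h4

/-- Stability under the commutant for almost all primes. -/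
theorem claimB' {τ : Type} {P : D.Obj → Prop} {h : D.Obj → τ} (hfin : D.Finiteness P h)
    (X : D.Obj) (hX : P X) : ∃ N : ℕ, ∀ (ℓ : ℕ) [Fact ℓ.Prime], N < ℓ →
      ∀ R : Submodule ℤ_[ℓ] (Fin (D.rank X) → ℤ_[ℓ]), (∀ v : Fin (D.rank X) → ℤ_[ℓ], (ℓ : ℤ_[ℓ]) • v ∈ R) →
        (∀ g, ∀ v ∈ R, im D X ℓ g *ᵥ v ∈ R) → ∀ c ∈ D.commutant X ℓ, ∀ v ∈ R, c *ᵥ v ∈ R := by
  obtain ⟨N, hN⟩ := claimB hfin X hX
  refine ⟨N, fun ℓ _ hℓ R h1 h2 c hc v hv => ?_⟩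
  obtain ⟨f, hf, g, hg, e1, e2, e3⟩ := hN ℓ hℓ R h1 h2
  set x := g.map (algebraMap ℚ ℚ_[ℓ]) *ᵥ emb _ ℓ v with hx
  have h5 : f.map (algebraMap ℚ ℚ_[ℓ]) *ᵥ x = emb _ ℓ v := by
    rw [hx, mulVec_mulVec, ← Matrix.map_mul, e2, Matrix.map_one _ (map_zero _) (map_one _),
      one_mulVec]
  have h6 : x ∈ LinearMap.range (emb _ ℓ) := by
    rw [e3, h5]
    exact ⟨v, hv, rfl⟩
  obtain ⟨y, hy⟩ := h6
  have h7 := comm_map D X ℓ hc hf y v (by rw [hy, h5])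
  have h8 : emb _ ℓ (c *ᵥ y) ∈ LinearMap.range (emb (D.rank X) ℓ) := ⟨_, rfl⟩
  rw [e3, h7] at h8
  obtain ⟨z, hz, hz'⟩ := h8
  rw [← emb_inj hz']
  exact hz

end Pool.Agent.Q55.SF
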