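import Mathlib

/-! # Integral linear systems modulo large primes -/

set_option autoImplicit false

namespace Pool.Agent.Q55.SF

open Matrix

variable {p q : Type} [Fintype p] [Fintype q] [DecidableEq p] [DecidableEq q]

omit [DecidableEq p] [DecidableEq q] in
/-- common denominator -/
theorem exists_den (A : Matrix p q ℚ) : ∃ d : ℕ, 0 < d ∧ ∃ A' : Matrix p q ℤ,
    A'.map (algebraMap ℤ ℚ) = (d : ℚ) • A := by
  classical
  have h : ∀ i j, ∃ t : ℕ, (∏ x : p × q, (A x.1 x.2).den) = (A i j).den * t := fun i j =>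
    Finset.dvd_prod_of_mem (fun x : p × q => (A x.1 x.2).den) (Finset.mem_univ (i, j))
  choose t ht using h
  refine ⟨∏ x : p × q, (A x.1 x.2).den, Finset.prod_pos fun x _ => (A x.1 x.2).pos,
    Matrix.of fun i j => (A i j).num * t i j, ?_⟩
  ext i j
  rw [Matrix.map_apply, Matrix.smul_apply, smul_eq_mul, Matrix.of_apply, ht i j]
  push_cast
  rw [mul_right_comm, Rat.den_mul_eq_num]
  rfl

omit [Fintype p] [Fintype q] [DecidableEq p] [DecidableEq q] in
theorem intMap_inj {A B : Matrix p q ℤ} (h : A.map (algebraMap ℤ ℚ) = B.map (algebraMap ℤ ℚ)) :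
    A = B := by
  ext i j
  exact FaithfulSMul.algebraMap_injective ℤ ℚ (congrFun (congrFun h i) j)

/-- generalized inverse -/
theorem gen_inv (A : Matrix p q ℚ) : ∃ B : Matrix q p ℚ, A * B * A = A := by
  let f : (q → ℚ) →ₗ[ℚ] (p → ℚ) := A.mulVecLin
  obtain ⟨g, hg⟩ := LinearMap.exists_rightInverse_of_surjective f.rangeRestrict
    (LinearMap.range_eq_top.mpr f.surjective_rangeRestrict)
  obtain ⟨π, hπ⟩ := LinearMap.exists_leftInverse_of_injective (LinearMap.range f).subtype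
    (LinearMap.ker_eq_bot.mpr (Submodule.injective_subtype _))
  refine ⟨LinearMap.toMatrix' (g.comp π), ?_⟩
  apply (Matrix.toLin' (R := ℚ) (m := p) (n := q)).injective
  rw [Matrix.toLin'_mul, Matrix.toLin'_mul, Matrix.toLin'_toMatrix']
  refine LinearMap.ext fun v => ?_
  have h1 : π (f v) = ⟨f v, LinearMap.mem_range_self f v⟩ :=
    LinearMap.congr_fun hπ ⟨f v, LinearMap.mem_range_self f v⟩
  have h2 : f (g ⟨f v, LinearMap.mem_range_self f v⟩) = f v :=
    congrArg Subtype.val (LinearMap.congr_fun hg ⟨f v, LinearMap.mem_range_self f v⟩)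
  change f (g (π (f v))) = f v
  rw [h1, h2]

/-- For almost all primes the solutions modulo `ℓ` of a linear system with integral coefficients
lift to integral solutions. -/
theorem lift_kernel (A : Matrix p q ℤ) : ∃ N : ℕ, ∀ (ℓ : ℕ) [Fact ℓ.Prime], N < ℓ →
    ∀ x : q → ZMod ℓ, A.map (algebraMap ℤ (ZMod ℓ)) *ᵥ x = 0 →
      ∃ y : q → ℤ, A *ᵥ y = 0 ∧ ∀ j, (algebraMap ℤ (ZMod ℓ)) (y j) = x j := by
  obtain ⟨B, hB⟩ := gen_inv (A.map (algebraMap ℤ ℚ))
  obtain ⟨d, hd, B', hB'⟩ := exists_den B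
  have hA : A * ((d : ℤ) • (1 : Matrix q q ℤ) - B' * A) = 0 := by
    apply intMap_inj
    have e1 : (A * ((d : ℤ) • (1 : Matrix q q ℤ) - B' * A)).map (algebraMap ℤ ℚ) =
        A.map (algebraMap ℤ ℚ) * ((d : ℚ) • (1 : Matrix q q ℚ) -
          B'.map (algebraMap ℤ ℚ) * A.map (algebraMap ℤ ℚ)) := by
      rw [Matrix.map_mul]
      congr 1
      have h3 : (B' * A).map (algebraMap ℤ ℚ) = B'.map (algebraMap ℤ ℚ) * A.map (algebraMap ℤ ℚ) :=
        Matrix.map_mul
      ext i j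
      have h4 := congrFun (congrFun h3 i) j
      rw [Matrix.map_apply] at h4
      rw [Matrix.map_apply, Matrix.sub_apply, Matrix.sub_apply, map_sub, h4, Matrix.smul_apply,
        Matrix.smul_apply, smul_eq_mul, smul_eq_mul, map_mul, map_natCast, Matrix.one_apply,
        Matrix.one_apply]
      congr 2
      split_ifs <;> simp
    rw [e1, hB', Matrix.mul_sub, Matrix.mul_smul, Matrix.mul_one, Matrix.smul_mul, Matrix.mul_smul,
      ← Matrix.mul_assoc, hB, sub_self, Matrix.map_zero _ (map_zero _)]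
  refine ⟨d, fun ℓ _ hℓ x hx => ?_⟩
  have hd' : (d : ZMod ℓ) ≠ 0 := by
    rw [Ne, ZMod.natCast_eq_zero_iff]
    exact fun h => absurd (Nat.le_of_dvd hd h) (not_le.mpr hℓ)
  choose z hz using fun j => ZMod.ringHom_surjective (algebraMap ℤ (ZMod ℓ)) ((d : ZMod ℓ)⁻¹ * x j)
  refine ⟨((d : ℤ) • (1 : Matrix q q ℤ) - B' * A) *ᵥ z, ?_, ?_⟩
  · rw [mulVec_mulVec, hA, zero_mulVec]
  · have hz' : (fun j => algebraMap ℤ (ZMod ℓ) (z j)) = (d : ZMod ℓ)⁻¹ • x := by
      funext j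
      rw [hz j]
      rfl
    have e : ∀ (r s : Type) [Fintype r] [Fintype s] (M : Matrix r s ℤ) (v : s → ℤ),
        (fun i => algebraMap ℤ (ZMod ℓ) ((M *ᵥ v) i)) =
          M.map (algebraMap ℤ (ZMod ℓ)) *ᵥ (fun j => algebraMap ℤ (ZMod ℓ) (v j)) := by
      intro r s _ _ M v
      funext i
      simp only [Matrix.mulVec, dotProduct, map_sum, map_mul, Matrix.map_apply]
    intro j
    have h1 : ((d : ℤ) • (1 : Matrix q q ℤ) - B' * A) *ᵥ z = (d : ℤ) • z - B' *ᵥ (A *ᵥ z) := by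
      rw [sub_mulVec, smul_mulVec, one_mulVec, mulVec_mulVec]
    have h3 : (fun i => algebraMap ℤ (ZMod ℓ) ((A *ᵥ z) i)) = 0 := by
      rw [e p q A z, hz', mulVec_smul, hx, smul_zero]
    have h4 : (fun i => algebraMap ℤ (ZMod ℓ) ((B' *ᵥ (A *ᵥ z)) i)) = 0 := by
      rw [e q p B' (A *ᵥ z), h3, mulVec_zero]
    rw [h1, Pi.sub_apply, map_sub, congrFun h4 j, Pi.smul_apply, smul_eq_mul, map_mul, map_natCast,
      hz j, ← mul_assoc, mul_inv_cancel₀ hd', one_mul, Pi.zero_apply, sub_zero]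

end Pool.Agent.Q55.SF
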