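import Mathlib

/-! # Jordan–Zassenhaus, first part: lattices in a division algebra -/

set_option autoImplicit false

namespace Pool.Agent.Q55.SF

open Matrix

/-- pigeonhole: a subgroup of finite index `q` of `ℤ ^ ι` contains a short nonzero vector -/
theorem exists_short {ι : Type} [Fintype ι] [Nonempty ι] (L : AddSubgroup (ι → ℤ))
    (hL : L.index ≠ 0) : ∃ (B : ℕ) (b : ι → ℤ), B ^ Fintype.card ι ≤ L.index ∧ b ∈ L ∧ b ≠ 0 ∧
      ∀ i, |b i| ≤ B := by
  classical
  obtain ⟨B, hB1, hB2⟩ : ∃ B : ℕ, B ^ Fintype.card ι ≤ L.index ∧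
      L.index < (B + 1) ^ Fintype.card ι := by
    have hcard : Fintype.card ι ≠ 0 := Fintype.card_ne_zero
    have hex : ∃ B : ℕ, L.index < (B + 1) ^ Fintype.card ι :=
      ⟨L.index, lt_of_lt_of_le (Nat.lt_succ_self _) (Nat.le_self_pow hcard _)⟩
    refine ⟨Nat.find hex, ?_, Nat.find_spec hex⟩
    rcases Nat.eq_zero_or_pos (Nat.find hex) with h0 | h0
    · rw [h0, zero_pow hcard]
      exact Nat.zero_le _
    · have h1 := Nat.find_min hex (m := Nat.find hex - 1) (by omega)
      rw [not_lt, Nat.sub_add_cancel h0] at h1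
      exact h1
  have hfi : L.FiniteIndex := ⟨hL⟩
  have hfin : Finite ((ι → ℤ) ⧸ L) := AddSubgroup.finite_quotient_of_finiteIndex
  have := Fintype.ofFinite ((ι → ℤ) ⧸ L)
  let F : (ι → Fin (B + 1)) → (ι → ℤ) ⧸ L := fun a => QuotientAddGroup.mk fun i => ((a i : ℕ) : ℤ)
  have hcard : Fintype.card ((ι → ℤ) ⧸ L) < Fintype.card (ι → Fin (B + 1)) := by
    rw [Fintype.card_fun, Fintype.card_fin, ← Nat.card_eq_fintype_card]
    exact hB2
  obtain ⟨a, a', hne, heq⟩ := Fintype.exists_ne_map_eq_of_card_lt F hcard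
  refine ⟨B, fun i => ((a' i : ℕ) : ℤ) - ((a i : ℕ) : ℤ), hB1, ?_, ?_, ?_⟩
  · have h1 := QuotientAddGroup.eq.mp heq
    have e : (fun i => ((a' i : ℕ) : ℤ) - ((a i : ℕ) : ℤ)) =
        -(fun i => ((a i : ℕ) : ℤ)) + fun i => ((a' i : ℕ) : ℤ) := by
      funext i
      simp only [Pi.add_apply, Pi.neg_apply]
      ring
    rw [e]
    exact h1
  · intro h0
    apply hne
    funext i
    have h1 := congrFun h0 i
    simp only [Pi.zero_apply] at h1
    apply Fin.ext
    omega
  · intro i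
    have h1 : (a i : ℕ) ≤ B := Nat.lt_succ_iff.mp (a i).2
    have h2 : (a' i : ℕ) ≤ B := Nat.lt_succ_iff.mp (a' i).2
    beta_reduce
    rw [abs_le]
    constructor <;> omega

/-- the index of the image of an integral matrix -/
theorem index_range {ι : Type} [Fintype ι] [DecidableEq ι] (M : Matrix ι ι ℤ) (hM : M.det ≠ 0) :
    (LinearMap.range M.mulVecLin).toAddSubgroup.index = M.det.natAbs := by
  have hinj : Function.Injective M.mulVecLin := by
    intro v w h
    have h1 : M *ᵥ v = M *ᵥ w := h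
    exact Matrix.mulVec_injective_of_det_ne_zero hM h1
  let e := LinearEquiv.ofInjective M.mulVecLin hinj
  let b : Module.Basis ι ℤ (LinearMap.range M.mulVecLin) := (Pi.basisFun ℤ ι).map e
  have h1 := AddSubgroup.index_eq_natAbs_det (Pi.basisFun ℤ ι)
    (LinearMap.range M.mulVecLin).toAddSubgroup b
  rw [h1]
  congr 1
  rw [Module.Basis.det_apply]
  have e2 : (Pi.basisFun ℤ ι).toMatrix (fun i => ((b i : LinearMap.range M.mulVecLin) : ι → ℤ)) = M := by
    ext i j
    rw [Module.Basis.toMatrix_apply, Pi.basisFun_repr]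
    change ((e (Pi.basisFun ℤ ι j) : LinearMap.range M.mulVecLin) : ι → ℤ) i = M i j
    rw [Pi.basisFun_apply]
    change (M *ᵥ Pi.single j 1) i = M i j
    rw [Matrix.mulVec_single_one]
    rfl
  exact congrArg Matrix.det e2

end Pool.Agent.Q55.SF
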