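import Pool.Agent.Q55.SF.JZ1
import Pool.Agent.Q55.SF.Int

/-! # Jordan–Zassenhaus, second part: lattices in a division algebra and in vector spaces over it -/

set_option autoImplicit false

namespace Pool.Agent.Q55.SF

open Matrix

/-- `A` and `B` are commensurable with the constant `m`. -/
def Near {V : Type} [AddCommGroup V] (m : ℕ) (A B : AddSubgroup V) : Prop :=
  (∀ a ∈ A, m • a ∈ B) ∧ ∀ b ∈ B, m • b ∈ A

section one

variable {Δ : Type} [Ring Δ] [IsDomain Δ] [Algebra ℚ Δ] {d : ℕ} (ω : Module.Basis (Fin d) ℚ Δ)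

/-- the integral combinations of a basis -/
noncomputable def phi : (Fin d → ℤ) →+ Δ where
  toFun z := ∑ i, (z i : ℚ) • ω i
  map_zero' := by simp
  map_add' z w := by
    rw [← Finset.sum_add_distrib]
    exact Finset.sum_congr rfl fun i _ => by rw [Pi.add_apply, Int.cast_add, add_smul]

omit [IsDomain Δ] in
theorem phi_apply (z : Fin d → ℤ) : phi ω z = ∑ i, (z i : ℚ) • ω i := rfl

omit [IsDomain Δ] in
theorem phi_inj (z : Fin d → ℤ) (h : phi ω z = 0) : z = 0 := by
  funext i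
  have h1 := congrArg (fun x => ω.repr x i) h
  simp only [phi_apply, ω.repr_sum_self, map_zero, Finsupp.coe_zero, Pi.zero_apply] at h1
  exact_mod_cast h1

/-- a basis with integral structure constants -/
theorem exists_basis (Δ : Type) [Ring Δ] [Algebra ℚ Δ] [Module.Finite ℚ Δ] :
    ∃ (d : ℕ) (ω : Module.Basis (Fin d) ℚ Δ) (c : Fin d → Fin d → Fin d → ℤ),
      ∀ i j, ω i * ω j = ∑ k, (c i j k : ℚ) • ω k := by
  obtain ⟨n, b⟩ : ∃ n : ℕ, Nonempty (Module.Basis (Fin n) ℚ Δ) := ⟨_, ⟨Module.finBasis ℚ Δ⟩⟩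
  obtain ⟨b⟩ := b
  obtain ⟨D, hD0, A, hA⟩ := exists_den (Matrix.of fun (t : Fin n × Fin n) (k : Fin n) =>
    b.repr (b t.1 * b t.2) k)
  have hD : (D : ℚ) ≠ 0 := Nat.cast_ne_zero.mpr hD0.ne'
  have hc : ∀ i j k, ((A (i, j) k : ℤ) : ℚ) = D * b.repr (b i * b j) k := fun i j k =>
    congrFun (congrFun hA (i, j)) k
  refine ⟨n, b.unitsSMul fun _ => Units.mk0 (D : ℚ) hD, fun i j k => A (i, j) k, fun i j => ?_⟩
  have hb : ∀ i, b.unitsSMul (fun _ => Units.mk0 (D : ℚ) hD) i = (D : ℚ) • b i := by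
    intro i
    rw [Module.Basis.unitsSMul_apply]
    rfl
  simp only [hb, hc]
  rw [smul_mul_assoc, mul_smul_comm]
  conv_lhs => rw [← b.sum_repr (b i * b j)]
  rw [Finset.smul_sum, Finset.smul_sum]
  refine Finset.sum_congr rfl fun k _ => ?_
  rw [smul_smul, smul_smul, smul_smul]
  congr 1
  ring

variable {ω} {c : Fin d → Fin d → Fin d → ℤ}

/-- right multiplication -/
def rmul (c : Fin d → Fin d → Fin d → ℤ) (b : Fin d → ℤ) : Matrix (Fin d) (Fin d) ℤ :=
  Matrix.of fun k i => ∑ j, b j * c i j k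

theorem phi_rmul (hc : ∀ i j, ω i * ω j = ∑ k, (c i j k : ℚ) • ω k) (z b : Fin d → ℤ) :
    phi ω (rmul c b *ᵥ z) = phi ω z * phi ω b := by
  have h1 : phi ω z * phi ω b = ∑ i, ∑ j, ∑ k, ((z i : ℚ) * b j * c i j k) • ω k := by
    rw [phi_apply, phi_apply, Finset.sum_mul]
    refine Finset.sum_congr rfl fun i _ => ?_
    rw [Finset.mul_sum]
    refine Finset.sum_congr rfl fun j _ => ?_
    rw [smul_mul_smul_comm, hc, Finset.smul_sum]
    exact Finset.sum_congr rfl fun k _ => smul_smul _ _ _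
  rw [h1, phi_apply]
  have h2 : ∀ k, ((rmul c b *ᵥ z) k : ℚ) • ω k = ∑ i, ∑ j, ((z i : ℚ) * b j * c i j k) • ω k := by
    intro k
    simp only [Matrix.mulVec, dotProduct, rmul, Matrix.of_apply, Int.cast_sum, Int.cast_mul,
      Finset.sum_smul, Finset.sum_mul]
    refine Finset.sum_congr rfl fun i _ => Finset.sum_congr rfl fun j _ => ?_
    congr 1
    ring
  rw [Finset.sum_congr rfl fun k _ => h2 k, Finset.sum_comm]
  exact Finset.sum_congr rfl fun i _ => Finset.sum_comm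

/-- lattices in a division algebra, up to a constant, are principal -/
theorem rank_one (hc : ∀ i j, ω i * ω j = ∑ k, (c i j k : ℚ) • ω k) (N : ℕ) (hN : 0 < N) :
    ∃ K : ℕ, 0 < K ∧ ∀ L : AddSubgroup Δ, (∃ m : ℕ, 0 < m ∧ Near m (phi ω).range L) →
      (∀ z, ∀ x ∈ L, N • (phi ω z * x) ∈ L) →
        ∃ x ∈ L, x ≠ 0 ∧ ∀ y ∈ L, ∃ z, K • y = phi ω z * x := by
  classical
  -- the bound for the structure constants
  obtain ⟨c₀, hc₀⟩ : ∃ c₀ : ℕ, ∀ i j k, |c i j k| ≤ c₀ := by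
    refine ⟨∑ i, ∑ j, ∑ k, (c i j k).natAbs, fun i j k => ?_⟩
    rw [Int.abs_eq_natAbs, Int.ofNat_le]
    calc (c i j k).natAbs ≤ ∑ k, (c i j k).natAbs :=
          Finset.single_le_sum (f := fun k => (c i j k).natAbs) (fun _ _ => Nat.zero_le _)
            (Finset.mem_univ k)
      _ ≤ ∑ j, ∑ k, (c i j k).natAbs :=
          Finset.single_le_sum (f := fun j => ∑ k, (c i j k).natAbs) (fun _ _ => Nat.zero_le _)
            (Finset.mem_univ j)
      _ ≤ _ := Finset.single_le_sum (f := fun i => ∑ j, ∑ k, (c i j k).natAbs)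
            (fun _ _ => Nat.zero_le _) (Finset.mem_univ i)
  let K₀ : ℕ := d.factorial * (N * (d * c₀)) ^ d
  refine ⟨K₀.factorial, Nat.factorial_pos _, fun L hL hst => ?_⟩
  obtain ⟨m, hm, h1, h2⟩ := hL
  have hmq : (m : ℚ) ≠ 0 := Nat.cast_ne_zero.mpr hm.ne'
  have hd : Nonempty (Fin d) := by
    by_contra h0
    rw [not_nonempty_iff] at h0
    have := ω.index_nonempty
    exact h0.false this.some
  -- the lattice in coordinates
  let L' : AddSubgroup (Fin d → ℤ) := L.comap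
    ((DistribSMul.toAddMonoidHom Δ ((m : ℚ)⁻¹)).comp (phi ω))
  have hL' : ∀ z, z ∈ L' ↔ (m : ℚ)⁻¹ • phi ω z ∈ L := fun z => by
    rw [AddSubgroup.mem_comap]
    rfl
  have hfull : ∀ z : Fin d → ℤ, (m * m) • z ∈ L' := by
    intro z
    rw [hL', map_nsmul, ← Nat.cast_smul_eq_nsmul ℚ, smul_smul, Nat.cast_mul,
      inv_mul_cancel_left₀ hmq, Nat.cast_smul_eq_nsmul]
    exact h1 _ ⟨z, rfl⟩
  have hidx : L'.index ≠ 0 := by
    have h3 : (LinearMap.range (((m * m : ℕ) : ℤ) • (1 : Matrix (Fin d) (Fin d) ℤ)).mulVecLin).toAddSubgroup ≤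
        L' := by
      rintro _ ⟨z, rfl⟩
      have := hfull z
      rw [mulVecLin_apply, Matrix.smul_mulVec, Matrix.one_mulVec, natCast_zsmul]
      exact this
    intro h0
    have h4 := AddSubgroup.index_dvd_of_le h3
    rw [h0, zero_dvd_iff, index_range] at h4
    · rw [Int.natAbs_eq_zero, Matrix.det_smul, Matrix.det_one, mul_one] at h4
      exact (pow_ne_zero _ (Nat.cast_ne_zero.mpr (Nat.mul_ne_zero hm.ne' hm.ne'))) h4
    · rw [Matrix.det_smul, Matrix.det_one, mul_one]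
      exact (pow_ne_zero _ (Nat.cast_ne_zero.mpr (Nat.mul_ne_zero hm.ne' hm.ne')))
  obtain ⟨B, b, hB, hbL, hb0, hbB⟩ := exists_short L' hidx
  rw [Fintype.card_fin] at hB
  let x : Δ := (m : ℚ)⁻¹ • phi ω b
  have hx : x ∈ L := hbL
  have hx0 : x ≠ 0 := by
    intro h0
    rcases smul_eq_zero.mp h0 with h3 | h3
    · exact inv_ne_zero hmq h3
    · exact hb0 (phi_inj ω b h3)
  have hbx : phi ω b = (m : ℚ) • x := by
    change _ = (m : ℚ) • ((m : ℚ)⁻¹ • phi ω b)
    rw [smul_smul, mul_inv_cancel₀ hmq, one_smul]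
  let R : Matrix (Fin d) (Fin d) ℤ := (N : ℤ) • rmul c b
  have hR : ∀ z, phi ω (R *ᵥ z) = N • (phi ω z * phi ω b) := by
    intro z
    change phi ω (((N : ℤ) • rmul c b) *ᵥ z) = _
    rw [Matrix.smul_mulVec, map_zsmul, phi_rmul hc, natCast_zsmul]
  have hdet : R.det ≠ 0 := by
    intro h0
    obtain ⟨z, hz, hz2⟩ := Matrix.exists_mulVec_eq_zero_iff.mpr h0
    have h3 := hR z
    rw [hz2, map_zero] at h3
    have h4 : phi ω z * phi ω b = 0 := by
      have h5 := h3.symm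
      rw [← Nat.cast_smul_eq_nsmul ℚ] at h5
      exact (smul_eq_zero.mp h5).resolve_left (Nat.cast_ne_zero.mpr hN.ne')
    rcases mul_eq_zero.mp h4 with h5 | h5
    · exact hz (phi_inj ω z h5)
    · exact hb0 (phi_inj ω b h5)
  have hsub : (LinearMap.range R.mulVecLin).toAddSubgroup ≤ L' := by
    rintro _ ⟨z, rfl⟩
    have e : (m : ℚ)⁻¹ * N * m = N := by field_simp
    rw [hL', mulVecLin_apply, hR, hbx, mul_smul_comm, ← Nat.cast_smul_eq_nsmul ℚ, smul_smul,
      smul_smul, e, Nat.cast_smul_eq_nsmul]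
    exact hst z x hx
  have hrel := AddSubgroup.relIndex_mul_index hsub
  rw [index_range R hdet] at hrel
  -- the bound for the determinant
  have hbound : R.det.natAbs ≤ K₀ * L'.index := by
    have h3 : ∀ i j, |R i j| ≤ ((N * (d * c₀) * B : ℕ) : ℤ) := by
      intro k i
      change |(N : ℤ) * ∑ j, b j * c i j k| ≤ _
      rw [abs_mul, Nat.abs_cast]
      have h4 : |∑ j, b j * c i j k| ≤ ∑ _j : Fin d, ((B : ℤ) * c₀) :=
        (Finset.abs_sum_le_sum_abs _ _).trans (Finset.sum_le_sum fun j _ => by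
          rw [abs_mul]
          exact mul_le_mul (hbB j) (hc₀ i j k) (abs_nonneg _) (by positivity))
      rw [Finset.sum_const, Finset.card_univ, Fintype.card_fin, nsmul_eq_mul] at h4
      calc (N : ℤ) * |∑ j, b j * c i j k| ≤ N * (d * (B * c₀)) :=
            mul_le_mul_of_nonneg_left h4 (by positivity)
        _ = _ := by push_cast; ring
    have h5 := Matrix.det_le (A := R) (abv := AbsoluteValue.abs) (x := ((N * (d * c₀) * B : ℕ) : ℤ)) h3
    rw [Fintype.card_fin] at h5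
    have h6 : R.det.natAbs ≤ d.factorial * (N * (d * c₀) * B) ^ d := by
      have h7 : ((R.det.natAbs : ℕ) : ℤ) ≤ ((d.factorial * (N * (d * c₀) * B) ^ d : ℕ) : ℤ) := by
        rw [← Int.abs_eq_natAbs]
        refine le_trans h5 (le_of_eq ?_)
        rw [nsmul_eq_mul]
        push_cast
        ring
      exact_mod_cast h7
    refine h6.trans ?_
    rw [mul_pow, ← mul_assoc]
    exact Nat.mul_le_mul_left _ hB
  have hle : (LinearMap.range R.mulVecLin).toAddSubgroup.relIndex L' ≤ K₀ := by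
    rw [← hrel] at hbound
    exact Nat.le_of_mul_le_mul_right hbound (Nat.pos_of_ne_zero hidx)
  have hpos : (LinearMap.range R.mulVecLin).toAddSubgroup.relIndex L' ≠ 0 := by
    intro h0
    rw [h0, zero_mul] at hrel
    exact hdet (Int.natAbs_eq_zero.mp hrel.symm)
  have hdvd : (LinearMap.range R.mulVecLin).toAddSubgroup.relIndex L' ∣ K₀.factorial :=
    Nat.dvd_factorial (Nat.pos_of_ne_zero hpos) hle
  refine ⟨x, hx, hx0, fun y hy => ?_⟩
  obtain ⟨z, hz⟩ := h2 y hy
  have hzL : z ∈ L' := by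
    rw [hL', hz, ← Nat.cast_smul_eq_nsmul ℚ, smul_smul, inv_mul_cancel₀ hmq, one_smul]
    exact hy
  obtain ⟨e, he⟩ := hdvd
  have h3 : K₀.factorial • z ∈ (LinearMap.range R.mulVecLin).toAddSubgroup := by
    have h4 := AddSubgroup.nsmul_index_mem
      ((LinearMap.range R.mulVecLin).toAddSubgroup.addSubgroupOf L') ⟨z, hzL⟩
    rw [AddSubgroup.mem_addSubgroupOf] at h4
    have h5 := AddSubgroup.nsmul_mem _ h4 e
    rw [he, mul_comm, mul_smul]
    exact h5
  obtain ⟨w, hw⟩ := h3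
  refine ⟨N • w, ?_⟩
  have h6 : phi ω (K₀.factorial • z) = N • (phi ω w * phi ω b) := by
    rw [← hw, ← hR w]
    rfl
  rw [map_nsmul, hz, hbx, mul_smul_comm] at h6
  rw [map_nsmul, smul_mul_assoc]
  have h7 : (m : ℚ) • (K₀.factorial • y) = (m : ℚ) • (N • (phi ω w * x)) := by
    rw [Nat.cast_smul_eq_nsmul, smul_comm m, h6, smul_comm]
  exact smul_right_injective Δ hmq h7

end one

end Pool.Agent.Q55.SF
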