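import Pool.Agent.Q55.SF.JZ2

/-! # Jordan–Zassenhaus, third part: lattices in vector spaces over a division algebra -/

set_option autoImplicit false

namespace Pool.Agent.Q55.SF

section

variable {V : Type} [AddCommGroup V]

/-- every vector has a multiple in `A` -/
def Full (A : AddSubgroup V) : Prop := ∀ v, ∃ m : ℕ, 0 < m ∧ m • v ∈ A

theorem exists_mul {A B : AddSubgroup V} (hA : A.FG) (hB : Full B) :
    ∃ m : ℕ, 0 < m ∧ ∀ a ∈ A, m • a ∈ B := by
  classical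
  obtain ⟨S, rfl⟩ := hA
  choose f hf1 hf2 using hB
  refine ⟨∏ s ∈ S, f s, Finset.prod_pos fun s _ => hf1 s, fun a ha => ?_⟩
  induction ha using AddSubgroup.closure_induction with
  | mem x hx =>
    obtain ⟨t, ht⟩ := Finset.dvd_prod_of_mem f hx
    rw [ht, mul_comm, mul_smul]
    exact B.nsmul_mem (hf2 x) t
  | zero => rw [smul_zero]; exact B.zero_mem
  | add x y _ _ hx hy => rw [smul_add]; exact B.add_mem hx hy
  | neg x _ hx => rw [smul_neg]; exact B.neg_mem hx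

theorem exists_near {A B : AddSubgroup V} (hA : A.FG) (hA' : Full A) (hB : B.FG) (hB' : Full B) :
    ∃ m : ℕ, 0 < m ∧ Near m A B := by
  obtain ⟨m, hm, h1⟩ := exists_mul hA hB'
  obtain ⟨n, hn, h2⟩ := exists_mul hB hA'
  refine ⟨m * n, Nat.mul_pos hm hn, fun a ha => ?_, fun b hb => ?_⟩
  · rw [mul_comm, mul_smul]
    exact B.nsmul_mem (h1 a ha) n
  · rw [mul_smul]
    exact A.nsmul_mem (h2 b hb) m

end

variable {Δ : Type} [Ring Δ] [IsDomain Δ] [Algebra ℚ Δ] {d : ℕ} (ω : Module.Basis (Fin d) ℚ Δ)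

/-- the standard lattice in `Δ ^ k` -/
noncomputable def pwl (k : ℕ) : AddSubgroup (Fin k → Δ) where
  carrier := {w | ∀ i, w i ∈ (phi ω).range}
  zero_mem' _ := AddSubgroup.zero_mem _
  add_mem' ha hb i := AddSubgroup.add_mem _ (ha i) (hb i)
  neg_mem' ha i := AddSubgroup.neg_mem _ (ha i)

omit [IsDomain Δ] in
theorem mem_pwl {k : ℕ} (w : Fin k → Δ) : w ∈ pwl ω k ↔ ∀ i, w i ∈ (phi ω).range := Iff.rfl

omit [IsDomain Δ] in
theorem cons_mem {k : ℕ} (x : Δ) (w : Fin k → Δ) :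
    (Fin.cons x w : Fin (k + 1) → Δ) ∈ pwl ω (k + 1) ↔ x ∈ (phi ω).range ∧ w ∈ pwl ω k := by
  constructor
  · intro h
    exact ⟨h 0, fun i => h i.succ⟩
  · rintro ⟨h1, h2⟩ i
    refine Fin.cases ?_ (fun i => ?_) i
    · exact h1
    · exact h2 i

/-- `v ↦ (0, v)` -/
def consZero (Δ : Type) [Ring Δ] (k : ℕ) : (Fin k → Δ) →ₗ[Δ] (Fin (k + 1) → Δ) where
  toFun v := Fin.cons 0 v
  map_add' v w := by
    funext i
    refine Fin.cases ?_ (fun i => ?_) i
    · simp
    · simp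
  map_smul' r v := by
    funext i
    refine Fin.cases ?_ (fun i => ?_) i
    · simp
    · simp

theorem consZero_zero {Δ : Type} [Ring Δ] {k : ℕ} (v : Fin k → Δ) : consZero Δ k v 0 = 0 := rfl

theorem consZero_succ {Δ : Type} [Ring Δ] {k : ℕ} (v : Fin k → Δ) (i : Fin k) :
    consZero Δ k v i.succ = v i := rfl

theorem eq_consZero {Δ : Type} [Ring Δ] {k : ℕ} (u : Fin (k + 1) → Δ) (h : u 0 = 0) :
    u = consZero Δ k (fun i => u i.succ) := by
  funext i
  refine Fin.cases ?_ (fun i => ?_) i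
  · rw [h, consZero_zero]
  · rw [consZero_succ]

/-- the extension of an automorphism -/
theorem exists_extension {Δ : Type} [Ring Δ] [IsDomain Δ] (hinv : ∀ x : Δ, x ≠ 0 → ∃ y, y * x = 1)
    {k : ℕ} (w : Fin (k + 1) → Δ) (hw : w 0 ≠ 0) (g₁ : (Fin k → Δ) ≃ₗ[Δ] (Fin k → Δ)) :
    ∃ g : (Fin (k + 1) → Δ) ≃ₗ[Δ] (Fin (k + 1) → Δ), ∀ v,
      g v = v 0 • w + consZero Δ k (g₁ fun i => v i.succ) := by
  let f : (Fin (k + 1) → Δ) →ₗ[Δ] (Fin (k + 1) → Δ) :=
    (LinearMap.proj 0 : (Fin (k + 1) → Δ) →ₗ[Δ] Δ).smulRight w +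
      (consZero Δ k).comp (g₁.toLinearMap.comp (LinearMap.funLeft Δ Δ Fin.succ))
  have hf : ∀ v, f v = v 0 • w + consZero Δ k (g₁ fun i => v i.succ) := fun v => rfl
  refine ⟨LinearEquiv.ofBijective f ⟨?_, ?_⟩, hf⟩
  · rw [injective_iff_map_eq_zero]
    intro v hv
    rw [hf] at hv
    have h0 : v 0 = 0 := by
      have h1 := congrFun hv 0
      rw [Pi.add_apply, consZero_zero, add_zero, Pi.smul_apply, Pi.zero_apply, smul_eq_mul] at h1
      exact (mul_eq_zero.mp h1).resolve_right hw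
    rw [h0, zero_smul, zero_add] at hv
    have h2 : g₁ (fun i => v i.succ) = 0 := by
      funext i
      have h3 := congrFun hv i.succ
      rw [consZero_succ] at h3
      exact h3
    have h4 := g₁.injective (h2.trans (map_zero g₁).symm)
    funext i
    refine Fin.cases ?_ (fun i => ?_) i
    · exact h0
    · exact congrFun h4 i
  · intro u
    obtain ⟨y, hy⟩ := hinv (w 0) hw
    let u' : Fin (k + 1) → Δ := u - (u 0 * y) • w
    have hu' : u' 0 = 0 := by
      change u 0 - (u 0 * y) * w 0 = 0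
      rw [mul_assoc, hy, mul_one, sub_self]
    refine ⟨Fin.cons (u 0 * y) (g₁.symm fun i => u' i.succ), ?_⟩
    rw [hf]
    simp only [Fin.cons_zero, Fin.cons_succ, LinearEquiv.apply_symm_apply]
    rw [← eq_consZero u' hu']
    change (u 0 * y) • w + (u - (u 0 * y) • w) = u
    abel

variable {ω} {c : Fin d → Fin d → Fin d → ℤ}

/-- lattices in a vector space over a division algebra, up to a constant -/
theorem vector_space (hinv : ∀ x : Δ, x ≠ 0 → ∃ y, y * x = 1)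
    (hc : ∀ i j, ω i * ω j = ∑ k, (c i j k : ℚ) • ω k) (N : ℕ) (hN : 0 < N) (k : ℕ) :
    ∃ M : ℕ, 0 < M ∧ ∀ L : AddSubgroup (Fin k → Δ), (∃ m : ℕ, 0 < m ∧ Near m (pwl ω k) L) →
      (∀ z, ∀ x ∈ L, N • (phi ω z • x) ∈ L) →
        ∃ g : (Fin k → Δ) ≃ₗ[Δ] (Fin k → Δ), (∀ w ∈ pwl ω k, M • g w ∈ L) ∧
          ∀ y ∈ L, ∃ w ∈ pwl ω k, M • y = g w := by
  induction k with
  | zero =>
    refine ⟨1, one_pos, fun L _ _ => ⟨LinearEquiv.refl Δ _, fun w _ => ?_, fun y _ => ?_⟩⟩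
    · rw [Subsingleton.elim (1 • (LinearEquiv.refl Δ (Fin 0 → Δ)) w) 0]
      exact L.zero_mem
    · exact ⟨0, AddSubgroup.zero_mem _, Subsingleton.elim _ _⟩
  | succ k ih =>
    obtain ⟨M₁, hM₁, h1⟩ := ih
    obtain ⟨K, hK, h2⟩ := rank_one hc N hN
    refine ⟨M₁ * N * K, by positivity, fun L hL hst => ?_⟩
    obtain ⟨m, hm, hm1, hm2⟩ := hL
    -- the first coordinate
    obtain ⟨x, hx, hx0, hxL⟩ := h2 (L.map (Pi.evalAddMonoidHom (fun _ : Fin (k + 1) => Δ) 0))
      ⟨m, hm, by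
        intro a ha
        refine ⟨m • Fin.cons a 0, hm1 _ ((cons_mem ω a 0).mpr ⟨ha, AddSubgroup.zero_mem _⟩), ?_⟩
        rfl, by
        rintro _ ⟨b, hb, rfl⟩
        exact hm2 b hb 0⟩ (by
      rintro z _ ⟨b, hb, rfl⟩
      exact ⟨_, hst z b hb, rfl⟩)
    obtain ⟨w, hw, rfl⟩ := hx
    have hx0' : w 0 ≠ 0 := hx0
    -- the kernel of the projection
    obtain ⟨g₁, hg1, hg2⟩ := h1 (L.comap (consZero Δ k).toAddMonoidHom) ⟨m, hm, by
      intro a ha
      have h3 := hm1 (Fin.cons 0 a) ((cons_mem ω 0 a).mpr ⟨AddSubgroup.zero_mem _, ha⟩)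
      rw [AddSubgroup.mem_comap, map_nsmul]
      exact h3, by
      intro b hb
      have h3 := hm2 _ hb
      rw [← map_nsmul] at h3
      exact ((cons_mem ω 0 (m • b)).mp h3).2⟩ (by
      intro z x hx
      have h3 := hst z _ hx
      rw [AddSubgroup.mem_comap, map_nsmul]
      change N • (consZero Δ k (phi ω z • x)) ∈ L
      rw [map_smul]
      exact h3)
    obtain ⟨g, hg⟩ := exists_extension hinv w hx0' g₁
    refine ⟨g, fun v hv => ?_, fun y hy => ?_⟩
    · obtain ⟨z, hz⟩ := hv 0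
      have h3 : (M₁ * N * K) • g v = (M₁ * K) • (N • (phi ω z • w)) +
          (N * K) • (consZero Δ k (M₁ • g₁ fun i => v i.succ)) := by
        rw [hg, map_nsmul, ← mul_smul, ← mul_smul, smul_add, hz]
        congr 2 <;> ring
      rw [h3]
      exact L.add_mem (L.nsmul_mem (hst z w hw) _) (L.nsmul_mem (hg1 _ fun i => hv i.succ) _)
    · obtain ⟨z, hz⟩ := hxL (y 0) ⟨y, hy, rfl⟩
      have hz' : K • y 0 = phi ω z * w 0 := hz
      let u : Fin (k + 1) → Δ := N • (K • y) - N • (phi ω z • w)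
      have hu0 : u 0 = 0 := by
        change N • (K • y 0) - N • (phi ω z * w 0) = 0
        rw [hz', sub_self]
      have huL : u ∈ L := L.sub_mem (L.nsmul_mem (L.nsmul_mem hy _) _) (hst z w hw)
      have hu := eq_consZero u hu0
      obtain ⟨v₁, hv₁, hv₂⟩ := hg2 (fun i => u i.succ) (by
        rw [AddSubgroup.mem_comap]
        change consZero Δ k (fun i => u i.succ) ∈ L
        rw [← hu]
        exact huL)
      refine ⟨Fin.cons (phi ω ((M₁ * N) • z)) v₁, (cons_mem ω _ _).mpr ⟨⟨_, rfl⟩, hv₁⟩, ?_⟩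
      rw [hg]
      simp only [Fin.cons_zero, Fin.cons_succ]
      rw [← hv₂, map_nsmul, map_nsmul, ← hu]
      change _ = _ + M₁ • (N • (K • y) - N • (phi ω z • w))
      rw [smul_sub, ← mul_smul M₁, ← mul_smul (M₁ * N), ← mul_smul M₁ N (phi ω z • w), smul_assoc]
      abel

end Pool.Agent.Q55.SF
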