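import Pool.Agent.Q55.SF.JZ3

/-! # Jordan–Zassenhaus, fourth part: simple modules -/

set_option autoImplicit false

namespace Pool.Agent.Q55.SF

section fg

variable {V : Type} [AddCommGroup V]

theorem fin_iff (A : AddSubgroup V) : Module.Finite ℤ A ↔ A.FG :=
  Module.Finite.iff_addGroup_fg.trans (AddGroup.fg_iff_addSubgroup_fg A)

theorem fg_of_map {V' : Type} [AddCommGroup V'] (A : AddSubgroup V) (B : AddSubgroup V')
    (hB : B.FG) (f : V →+ V') (hf : Function.Injective f) (h : ∀ a ∈ A, f a ∈ B) : A.FG := by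
  rw [← fin_iff] at hB ⊢
  let F : A →ₗ[ℤ] B := (AddMonoidHom.codRestrict (f.comp A.subtype) B fun a => h a a.2).toIntLinearMap
  refine Module.Finite.of_injective F fun a b hab => ?_
  have h1 := congrArg (fun x : B => (x : V')) hab
  exact Subtype.ext (hf h1)

theorem fg_range' {G : Type} [AddCommGroup G] [Module.Finite ℤ G] (f : G →+ V) : f.range.FG := by
  rw [← fin_iff]
  exact Module.Finite.of_surjective f.rangeRestrict.toIntLinearMap f.rangeRestrict_surjective

end fg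

section basis

variable {Δ : Type} [Ring Δ] [IsDomain Δ] [Algebra ℚ Δ] [Module.Finite ℚ Δ]

omit [IsDomain Δ] [Module.Finite ℚ Δ] in
theorem pwl_fg {d : ℕ} (ω : Module.Basis (Fin d) ℚ Δ) (k : ℕ) : (pwl ω k).FG := by
  let f : (Fin k → Fin d → ℤ) →+ (Fin k → Δ) :=
    { toFun := fun z i => phi ω (z i)
      map_zero' := by
        funext i
        exact map_zero (phi ω)
      map_add' := fun z w => by
        funext i
        exact map_add (phi ω) (z i) (w i) }
  have h : pwl ω k = f.range := by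
    ext w
    constructor
    · intro hw
      choose z hz using hw
      exact ⟨z, funext hz⟩
    · rintro ⟨z, rfl⟩ i
      exact ⟨z i, rfl⟩
  rw [h]
  exact fg_range' f

omit [IsDomain Δ] [Module.Finite ℚ Δ] in
theorem pwl_full {d : ℕ} (ω : Module.Basis (Fin d) ℚ Δ) (k : ℕ) : Full (pwl ω k) := by
  intro w
  obtain ⟨D, hD, A, hA⟩ := exists_den (Matrix.of fun (i : Fin k) (j : Fin d) => ω.repr (w i) j)
  refine ⟨D, hD, fun i => ⟨A i, ?_⟩⟩
  have hc : ∀ j, ((A i j : ℤ) : ℚ) = D * ω.repr (w i) j := fun j => congrFun (congrFun hA i) j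
  rw [phi_apply, Pi.smul_apply]
  conv_rhs => rw [← ω.sum_repr (w i)]
  rw [Finset.smul_sum]
  refine Finset.sum_congr rfl fun j _ => ?_
  rw [hc, mul_smul, Nat.cast_smul_eq_nsmul]

/-- lattices in a vector space over a division algebra -/
theorem module_lattice (hinv : ∀ x : Δ, x ≠ 0 → ∃ y, y * x = 1) {W : Type} [AddCommGroup W]
    [Module Δ W] {k : ℕ} (b : Module.Basis (Fin k) Δ W) :
    ∃ Γ : AddSubgroup W, Γ.FG ∧ Full Γ ∧ ∃ F : Finset Δ, ∀ N : ℕ, 0 < N → ∃ M : ℕ, 0 < M ∧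
      ∀ L : AddSubgroup W, L.FG → Full L → (∀ s ∈ F, ∀ x ∈ L, N • (s • x) ∈ L) →
        ∃ g : W ≃ₗ[Δ] W, (∀ w ∈ Γ, M • g w ∈ L) ∧ ∀ y ∈ L, ∃ w ∈ Γ, M • y = g w := by
  classical
  obtain ⟨d, ω, c, hc⟩ := exists_basis Δ
  let e := b.equivFun
  have hΓ1 : ((pwl ω k).comap e.toAddEquiv.toAddMonoidHom).FG :=
    fg_of_map _ _ (pwl_fg ω k) e.toAddEquiv.toAddMonoidHom e.injective fun a ha => ha
  have hΓ2 : Full ((pwl ω k).comap e.toAddEquiv.toAddMonoidHom) := by
    intro v
    obtain ⟨m, hm, h⟩ := pwl_full ω k (e v)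
    refine ⟨m, hm, ?_⟩
    rw [AddSubgroup.mem_comap, map_nsmul]
    exact h
  refine ⟨_, hΓ1, hΓ2, Finset.univ.image ω, fun N hN => ?_⟩
  obtain ⟨M, hM, h1⟩ := vector_space hinv hc N hN k
  refine ⟨M, hM, fun L hL1 hL2 hst => ?_⟩
  obtain ⟨m, hm, hm1, hm2⟩ := exists_near hΓ1 hΓ2 hL1 hL2
  obtain ⟨g, hg1, hg2⟩ := h1 (L.comap e.symm.toAddEquiv.toAddMonoidHom) ⟨m, hm, by
    intro a ha
    rw [AddSubgroup.mem_comap, map_nsmul]
    refine hm1 _ ?_
    rw [AddSubgroup.mem_comap]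
    change e (e.symm a) ∈ _
    rw [e.apply_symm_apply]
    exact ha, by
    intro a ha
    have h2 := hm2 _ ha
    rw [AddSubgroup.mem_comap, map_nsmul] at h2
    change m • e (e.symm a) ∈ _ at h2
    rw [e.apply_symm_apply] at h2
    exact h2⟩ (by
    intro z x hx
    rw [AddSubgroup.mem_comap] at hx ⊢
    change e.symm (N • (phi ω z • x)) ∈ L
    have hx' : e.symm x ∈ L := hx
    have h3 : e.symm (N • (phi ω z • x)) = ∑ i, z i • (N • (ω i • e.symm x)) := by
      rw [map_nsmul, map_smul, phi_apply, Finset.sum_smul, Finset.smul_sum]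
      refine Finset.sum_congr rfl fun i _ => ?_
      rw [Int.cast_smul_eq_zsmul, smul_assoc, smul_comm N (z i)]
    rw [h3]
    exact L.sum_mem fun i _ => L.zsmul_mem (hst _ (Finset.mem_image_of_mem _ (Finset.mem_univ i)) _ hx') _)
  refine ⟨(e.trans g).trans e.symm, fun w hw => ?_, fun y hy => ?_⟩
  · have h2 := hg1 (e w) hw
    rw [AddSubgroup.mem_comap, map_nsmul] at h2
    exact h2
  · obtain ⟨w, hw, h3⟩ := hg2 (e y) (by
      rw [AddSubgroup.mem_comap]
      change e.symm (e y) ∈ L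
      rw [e.symm_apply_apply]
      exact hy)
    refine ⟨e.symm w, ?_, ?_⟩
    · rw [AddSubgroup.mem_comap]
      change e (e.symm w) ∈ _
      rw [e.apply_symm_apply]
      exact hw
    · change _ = e.symm (g (e (e.symm w)))
      rw [e.apply_symm_apply, ← h3, map_nsmul, e.symm_apply_apply]

end basis

section simple

variable {A S : Type} [Ring A] [Algebra ℚ A] [AddCommGroup S] [Module A S] [Module ℚ S]
  [IsScalarTower ℚ A S] [IsSimpleModule A S] [Module.Finite ℚ S]

omit [Algebra ℚ A] [Module ℚ S] [IsScalarTower ℚ A S] [Module.Finite ℚ S] in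
theorem end_inv (x : Module.End A S) (hx : x ≠ 0) : ∃ y : Module.End A S, y * x = 1 := by
  rcases LinearMap.bijective_or_eq_zero x with h | h
  · let e := LinearEquiv.ofBijective x h
    exact ⟨e.symm.toLinearMap, LinearMap.ext fun v => e.symm_apply_apply v⟩
  · exact absurd h hx

omit [Algebra ℚ A] [Module ℚ S] [IsScalarTower ℚ A S] [Module.Finite ℚ S] in
theorem end_domain : IsDomain (Module.End A S) := by
  have : Nontrivial S := IsSimpleModule.nontrivial A S
  have : Nontrivial (Module.End A S) := inferInstance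
  have : NoZeroDivisors (Module.End A S) := ⟨fun {a b} hab => by
    by_cases hb : a = 0
    · exact Or.inl hb
    · obtain ⟨y, hy⟩ := end_inv a hb
      right
      rw [← one_mul b, ← hy, mul_assoc, hab, mul_zero]⟩
  exact NoZeroDivisors.to_isDomain _

theorem end_basis : ∃ k : ℕ, Nonempty (Module.Basis (Fin k) (Module.End A S) S) := by
  classical
  have h1 : Module.Finite (Module.End A S) S := Module.Finite.of_restrictScalars_finite ℚ _ _
  letI : DivisionRing (Module.End A S) := Module.End.instDivisionRing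
  exact ⟨_, ⟨Module.finBasis (Module.End A S) S⟩⟩

/-- lattices in a simple module -/
theorem simple_lattice :
    ∃ Γ : AddSubgroup S, Γ.FG ∧ Full Γ ∧ ∃ F : Finset (Module.End A S), ∀ N : ℕ, 0 < N →
      ∃ M : ℕ, 0 < M ∧ ∀ L : AddSubgroup S, L.FG → Full L →
        (∀ s ∈ F, ∀ x ∈ L, N • (s x) ∈ L) →
          ∃ g : S ≃+ S, (∀ (δ : Module.End A S) (x : S), g (δ x) = δ (g x)) ∧
            (∀ w ∈ Γ, M • g w ∈ L) ∧ ∀ y ∈ L, ∃ w ∈ Γ, M • y = g w := by
  have := end_domain (A := A) (S := S)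
  obtain ⟨k, ⟨b⟩⟩ := end_basis (A := A) (S := S)
  obtain ⟨Γ, h1, h2, F, h3⟩ := module_lattice (Δ := Module.End A S) end_inv b
  refine ⟨Γ, h1, h2, F, fun N hN => ?_⟩
  obtain ⟨M, hM, h4⟩ := h3 N hN
  refine ⟨M, hM, fun L hL1 hL2 hst => ?_⟩
  obtain ⟨g, hg1, hg2⟩ := h4 L hL1 hL2 fun s hs x hx => hst s hs x hx
  exact ⟨g.toAddEquiv, fun δ x => g.map_smul δ x, hg1, hg2⟩

end simple

end Pool.Agent.Q55.SF
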