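import Pool.Agent.Q55.SF.JZ4

/-! # Jordan–Zassenhaus, fifth part: semisimple modules -/

set_option autoImplicit false

namespace Pool.Agent.Q55.SF

theorem fg_map {V V' : Type} [AddCommGroup V] [AddCommGroup V'] (A : AddSubgroup V) (hA : A.FG)
    (f : V →+ V') : (A.map f).FG := by
  classical
  obtain ⟨S, hS⟩ := hA
  exact ⟨S.image f, by rw [Finset.coe_image, ← AddMonoidHom.map_closure, hS]⟩

theorem mem_of_dvd {V : Type} [AddCommGroup V] (A : AddSubgroup V) {m n : ℕ} (h : m ∣ n) (v : V)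
    (hv : m • v ∈ A) : n • v ∈ A := by
  obtain ⟨t, rfl⟩ := h
  rw [mul_comm, mul_smul]
  exact A.nsmul_mem hv t

/-- The decomposition of a semisimple module in simple modules, with representatives of the
isomorphism classes. -/
theorem exists_decomposition {A V : Type} [Ring A] [AddCommGroup V] [Module A V]
    [IsSemisimpleModule A V] [Module.Finite A V] :
    ∃ (n : ℕ) (S : Fin n → Submodule A V) (ι : ∀ j, S j →ₗ[A] V) (π : ∀ j, V →ₗ[A] S j)
      (r : Fin n → Fin n) (T : ∀ j, S (r j) →ₗ[A] V) (U : ∀ j, V →ₗ[A] S (r j)),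
      (∀ i, IsSimpleModule A (S i)) ∧ (∀ j x, π j (ι j x) = x) ∧ (∀ j x, U j (T j x) = x) ∧
      (∀ i j, i ≠ j → ∀ x, U i (T j x) = 0) ∧ (∀ v, ∑ j, T j (U j v) = v) ∧
      ∀ i j, Nonempty (S (r i) ≃ₗ[A] S (r j)) → r i = r j := by
  classical
  obtain ⟨n, S, e, hS⟩ := IsSemisimpleModule.exists_linearEquiv_fin_dfinsupp A V
  let ι : ∀ j, S j →ₗ[A] V := fun j => e.symm.toLinearMap ∘ₗ
    DFinsupp.lsingle (R := A) (M := fun i => (S i : Type)) j
  let π : ∀ j, V →ₗ[A] S j := fun j =>
    DFinsupp.lapply (R := A) (M := fun i => (S i : Type)) j ∘ₗ e.toLinearMap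
  have h1 : ∀ i j x, π i (ι j x) = (DFinsupp.single j x : Π₀ i, S i) i := by
    intro i j x
    change (e (e.symm (DFinsupp.single j x))) i = _
    rw [e.apply_symm_apply]
  have hπι : ∀ j x, π j (ι j x) = x := fun j x => by rw [h1, DFinsupp.single_eq_same]
  have hπι' : ∀ i j, i ≠ j → ∀ x, π i (ι j x) = 0 := fun i j hij x => by
    rw [h1, DFinsupp.single_eq_of_ne hij]
  have hsum : ∀ v, ∑ j, ι j (π j v) = v := by
    intro v
    change ∑ j, e.symm (DFinsupp.single j ((e v) j)) = v
    rw [← map_sum]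
    apply e.injective
    rw [e.apply_symm_apply]
    ext i
    rw [DFinsupp.finsetSum_apply, Finset.sum_eq_single i]
    · rw [DFinsupp.single_eq_same]
    · intro j _ hj
      rw [DFinsupp.single_eq_of_ne hj.symm]
    · intro h
      exact absurd (Finset.mem_univ i) h
  let st : Setoid (Fin n) :=
    { r := fun i j => Nonempty (S i ≃ₗ[A] S j)
      iseqv := ⟨fun i => ⟨LinearEquiv.refl A _⟩, fun {i j} h => ⟨h.some.symm⟩,
        fun {i j k} h h' => ⟨h.some.trans h'.some⟩⟩ }
  let r : Fin n → Fin n := fun j => (Quotient.mk st j).out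
  have hr : ∀ j, Nonempty (S (r j) ≃ₗ[A] S j) := fun j => Quotient.mk_out (s := st) j
  let θ : ∀ j, S (r j) ≃ₗ[A] S j := fun j => (hr j).some
  refine ⟨n, S, ι, π, r, fun j => ι j ∘ₗ (θ j).toLinearMap, fun j => (θ j).symm.toLinearMap ∘ₗ π j,
    hS, hπι, ?_, ?_, ?_, ?_⟩
  · intro j x
    change (θ j).symm (π j (ι j (θ j x))) = x
    rw [hπι, LinearEquiv.symm_apply_apply]
  · intro i j hij x
    change (θ i).symm (π i (ι j (θ j x))) = 0
    rw [hπι' i j hij, map_zero]
  · intro v
    rw [← hsum v]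
    refine Finset.sum_congr rfl fun j _ => ?_
    change ι j (θ j ((θ j).symm (π j (∑ j, ι j (π j v))))) = _
    rw [LinearEquiv.apply_symm_apply, hsum]
  · intro i j h
    have h2 : Nonempty (S i ≃ₗ[A] S j) := ⟨((θ i).symm.trans h.some).trans (θ j)⟩
    exact congrArg Quotient.out (Quotient.sound (s := st) h2)

/-- **Jordan–Zassenhaus.** -/
theorem jordan_zassenhaus {A V : Type} [Ring A] [Algebra ℚ A] [AddCommGroup V] [Module A V]
    [Module ℚ V] [IsScalarTower ℚ A V] [IsSemisimpleModule A V] [Module.Finite ℚ V]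
    (N : Module.End A V → ℕ) (hN : ∀ c, 0 < N c) :
    ∃ L₀ : AddSubgroup V, L₀.FG ∧ Full L₀ ∧ ∃ M : ℕ, 0 < M ∧ ∀ L : AddSubgroup V, L.FG → Full L →
      (∀ c : Module.End A V, ∀ v ∈ L, N c • c v ∈ L) →
        ∃ g : V ≃+ V, (∀ (c : Module.End A V) (v : V), g (c v) = c (g v)) ∧
          (∀ w ∈ L₀, M • g w ∈ L) ∧ ∀ y ∈ L, ∃ w ∈ L₀, M • y = g w := by
  classical
  have : Module.Finite A V := Module.Finite.of_restrictScalars_finite ℚ A V
  obtain ⟨n, S, ι, π, r, T, U, hS, hπι, hUT, hUT', hsum, hiso⟩ := exists_decomposition (A := A) (V := V)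
  have hfin : ∀ i, Module.Finite ℚ (S i) := fun i =>
    inferInstanceAs (Module.Finite ℚ ((S i).restrictScalars ℚ))
  have hιinj : ∀ i, Function.Injective (ι i) := fun i x y h => by rw [← hπι i x, h, hπι]
  choose Γ hΓ1 hΓ2 F hF using fun i => simple_lattice (A := A) (S := S i)
  choose M hM hM2 using fun i => hF i (∏ s ∈ F i, N (ι i ∘ₗ s ∘ₗ π i))
    (Finset.prod_pos fun s _ => hN _)
  let L₀ : AddSubgroup V := ⨅ j, (Γ (r j)).comap (U j).toAddMonoidHom
  have hL₀ : ∀ v, v ∈ L₀ ↔ ∀ j, U j v ∈ Γ (r j) := fun v => by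
    rw [AddSubgroup.mem_iInf]
    rfl
  let P : Fin n → Module.End A V := fun j => ι (r j) ∘ₗ U j
  let Q : Fin n → Module.End A V := fun j => T j ∘ₗ π (r j)
  let M₀ : ℕ := ∏ j, M (r j) * N (P j) * N (Q j)
  have hM₀ : ∀ j, M (r j) * N (P j) * N (Q j) ∣ M₀ := fun j =>
    Finset.dvd_prod_of_mem (fun j => M (r j) * N (P j) * N (Q j)) (Finset.mem_univ j)
  refine ⟨L₀, ?_, ?_, M₀, Finset.prod_pos fun j _ =>
    Nat.mul_pos (Nat.mul_pos (hM _) (hN _)) (hN _), fun L hL1 hL2 hst => ?_⟩
  · have h1 : (⨆ j, (Γ (r j)).map (T j).toAddMonoidHom).FG :=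
      AddSubgroup.FG.iSup _ fun j => fg_map _ (hΓ1 _) _
    refine fg_of_map _ _ h1 (AddMonoidHom.id V) (fun a b h => h) fun v hv => ?_
    rw [AddMonoidHom.id_apply, ← hsum v]
    exact AddSubgroup.sum_mem _ fun j _ => AddSubgroup.mem_iSup_of_mem j
      ⟨U j v, (hL₀ v).mp hv j, rfl⟩
  · intro v
    choose m hm1 hm2 using fun j => hΓ2 (r j) (U j v)
    refine ⟨∏ j, m j, Finset.prod_pos fun j _ => hm1 j, (hL₀ _).mpr fun j => ?_⟩
    rw [map_nsmul]
    exact mem_of_dvd _ (Finset.dvd_prod_of_mem m (Finset.mem_univ j)) _ (hm2 j)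
  · have h1 : ∀ i, ∃ g : S i ≃+ S i, (∀ (δ : Module.End A (S i)) (x : S i), g (δ x) = δ (g x)) ∧
        (∀ w ∈ Γ i, M i • g w ∈ L.comap (ι i).toAddMonoidHom) ∧
          ∀ y ∈ L.comap (ι i).toAddMonoidHom, ∃ w ∈ Γ i, M i • y = g w := by
      intro i
      refine hM2 i _ (fg_of_map _ _ hL1 (ι i).toAddMonoidHom (hιinj i) fun a ha => ha) ?_ ?_
      · intro x
        obtain ⟨m, hm, h⟩ := hL2 (ι i x)
        refine ⟨m, hm, ?_⟩
        rw [AddSubgroup.mem_comap, map_nsmul]
        exact h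
      · intro s hs x hx
        refine mem_of_dvd _ (Finset.dvd_prod_of_mem (fun s => N (ι i ∘ₗ s ∘ₗ π i)) hs) _ ?_
        have h2 := hst (ι i ∘ₗ s ∘ₗ π i) _ hx
        rw [AddSubgroup.mem_comap, map_nsmul]
        have e : (ι i ∘ₗ s ∘ₗ π i) ((ι i).toAddMonoidHom x) = (ι i).toAddMonoidHom (s x) := by
          change ι i (s (π i (ι i x))) = ι i (s x)
          rw [hπι]
        rw [e] at h2
        exact h2
    choose g hg1 hg2 hg3 using h1
    have hschur : ∀ i j (f : S (r i) →ₗ[A] S (r j)) (x : S (r i)),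
        g (r j) (f x) = f (g (r i) x) := by
      intro i j f x
      by_cases hij : r i = r j
      · revert f x
        generalize r i = a at hij
        subst hij
        intro f x
        exact hg1 _ f x
      · have := hS (r i)
        have := hS (r j)
        rcases LinearMap.bijective_or_eq_zero f with h | h
        · exact absurd (hiso i j ⟨LinearEquiv.ofBijective f h⟩) hij
        · rw [h, LinearMap.zero_apply, LinearMap.zero_apply, map_zero]
    -- the automorphism
    have hU : ∀ (h : ∀ i, S i → S i) (v : V) (i : Fin n),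
        U i (∑ j, T j (h (r j) (U j v))) = h (r i) (U i v) := by
      intro h v i
      rw [map_sum, Finset.sum_eq_single i]
      · rw [hUT]
      · intro j _ hj
        exact hUT' i j hj.symm _
      · intro hi
        exact absurd (Finset.mem_univ i) hi
    let G : V ≃+ V :=
      { toFun := fun v => ∑ j, T j (g (r j) (U j v))
        invFun := fun v => ∑ j, T j ((g (r j)).symm (U j v))
        left_inv := by
          intro v
          conv_rhs => rw [← hsum v]
          refine Finset.sum_congr rfl fun i _ => ?_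
          rw [hU (fun i => g i) v i, AddEquiv.symm_apply_apply]
        right_inv := by
          intro v
          conv_rhs => rw [← hsum v]
          refine Finset.sum_congr rfl fun i _ => ?_
          rw [hU (fun i => (g i).symm) v i, AddEquiv.apply_symm_apply]
        map_add' := by
          intro v w
          rw [← Finset.sum_add_distrib]
          exact Finset.sum_congr rfl fun j _ => by rw [map_add, map_add, map_add] }
    have hG : ∀ v, G v = ∑ j, T j (g (r j) (U j v)) := fun v => rfl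
    refine ⟨G, ?_, ?_, ?_⟩
    · intro c v
      rw [hG]
      conv_rhs => rw [← hsum (c (G v))]
      refine Finset.sum_congr rfl fun i _ => ?_
      congr 1
      conv_lhs => rw [← hsum v]
      rw [map_sum, map_sum, map_sum, hG, map_sum, map_sum]
      exact Finset.sum_congr rfl fun j _ => hschur j i (U i ∘ₗ c ∘ₗ T j) (U j v)
    · intro w hw
      rw [hG, Finset.smul_sum]
      refine L.sum_mem fun j _ => ?_
      refine mem_of_dvd L (m := N (Q j) * M (r j)) (dvd_trans ⟨N (P j), by ring⟩ (hM₀ j)) _ ?_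
      have h2 := hst (Q j) _ (hg2 (r j) _ ((hL₀ w).mp hw j))
      rw [map_nsmul, map_nsmul] at h2
      rw [mul_smul]
      have e : Q j ((ι (r j)).toAddMonoidHom (g (r j) (U j w))) = T j (g (r j) (U j w)) := by
        change T j (π (r j) (ι (r j) _)) = _
        rw [hπι]
      rw [e] at h2
      exact h2
    · intro y hy
      refine ⟨G.symm (M₀ • y), (hL₀ _).mpr fun j => ?_, (G.apply_symm_apply _).symm⟩
      have e : U j (G.symm (M₀ • y)) = (g (r j)).symm (U j (M₀ • y)) :=
        hU (fun i => (g i).symm) (M₀ • y) j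
      rw [e, map_nsmul, map_nsmul]
      refine mem_of_dvd _ (m := M (r j) * N (P j)) (dvd_trans ⟨N (Q j), by ring⟩ (hM₀ j)) _ ?_
      obtain ⟨w, hw, h3⟩ := hg3 (r j) (N (P j) • U j y) (by
        rw [AddSubgroup.mem_comap, map_nsmul]
        exact hst (P j) y hy)
      rw [mul_smul, ← map_nsmul, ← map_nsmul, h3, AddEquiv.symm_apply_apply]
      exact hw

end Pool.Agent.Q55.SF
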