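import Mathlib

/-! # Subspaces stable under a set of operators and modules over the algebra which it generates -/

set_option autoImplicit false

namespace Pool.Agent.Q55.SF

theorem socle_stable {R V : Type} [Ring R] [AddCommGroup V] [Module R V] (φ : V →ₗ[R] V) :
    sSup {m : Submodule R V | IsSimpleModule R m} ≤
      (sSup {m : Submodule R V | IsSimpleModule R m}).comap φ := by
  apply sSup_le
  intro m hm
  have hm' : IsSimpleModule R m := hm
  rw [← Submodule.map_le_iff_le_comap]
  have e : m.map φ = LinearMap.range (φ.comp m.subtype) := by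
    rw [LinearMap.range_comp, Submodule.range_subtype]
  rcases LinearMap.injective_or_eq_zero (φ.comp m.subtype) with h2 | h2
  · apply le_sSup
    rw [Set.mem_setOf_eq, e]
    exact IsSimpleModule.congr (LinearEquiv.ofInjective _ h2).symm
  · rw [e, h2, LinearMap.range_zero]
    exact bot_le

section

variable {K V : Type} [Field K] [AddCommGroup V] [Module K V]

/-- the algebra generated by a set of operators -/
abbrev alg (S : Set (Module.End K V)) : Subalgebra K (Module.End K V) := Algebra.adjoin K S

/-- a stable subspace as a submodule -/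
def toSub (S : Set (Module.End K V)) (W : Submodule K V) (h : ∀ s ∈ S, ∀ v ∈ W, s v ∈ W) :
    Submodule (alg S) V where
  carrier := W
  add_mem' := W.add_mem
  zero_mem' := W.zero_mem
  smul_mem' := by
    rintro ⟨a, ha⟩ v hv
    change a v ∈ W
    induction ha using Algebra.adjoin_induction generalizing v with
    | mem x hx => exact h x hx v hv
    | algebraMap r => rw [Module.algebraMap_end_apply]; exact W.smul_mem r hv
    | add x y _ _ hx hy => rw [LinearMap.add_apply]; exact W.add_mem (hx hv) (hy hv)
    | mul x y _ _ hx hy => rw [Module.End.mul_apply]; exact hx (hy hv)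

theorem mem_toSub (S : Set (Module.End K V)) (W : Submodule K V)
    (h : ∀ s ∈ S, ∀ v ∈ W, s v ∈ W) (v : V) : v ∈ toSub S W h ↔ v ∈ W := Iff.rfl

/-- a submodule as a subspace -/
def ofSub (S : Set (Module.End K V)) (N : Submodule (alg S) V) : Submodule K V where
  carrier := N
  add_mem' := N.add_mem
  zero_mem' := N.zero_mem
  smul_mem' r v hv := by
    have h1 := N.smul_mem (algebraMap K (alg S) r) hv
    exact h1

theorem mem_ofSub (S : Set (Module.End K V)) (N : Submodule (alg S) V) (v : V) :
    v ∈ ofSub S N ↔ v ∈ N := Iff.rfl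

theorem ofSub_stable (S : Set (Module.End K V)) (N : Submodule (alg S) V) :
    ∀ s ∈ S, ∀ v ∈ ofSub S N, s v ∈ ofSub S N := by
  intro s hs v hv
  exact N.smul_mem (⟨s, Algebra.subset_adjoin hs⟩ : alg S) hv

theorem isCompl_sub_iff (S : Set (Module.End K V)) (N N' : Submodule (alg S) V) :
    IsCompl N N' ↔ IsCompl (ofSub S N) (ofSub S N') := by
  rw [isCompl_iff, isCompl_iff, Submodule.disjoint_def, Submodule.disjoint_def,
    Submodule.codisjoint_iff_exists_add_eq, Submodule.codisjoint_iff_exists_add_eq]
  rfl

/-- the module is semisimple iff all stable subspaces have stable complements -/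
theorem isSemisimpleModule_iff (S : Set (Module.End K V)) : IsSemisimpleModule (alg S) V ↔
    ∀ W : Submodule K V, (∀ s ∈ S, ∀ v ∈ W, s v ∈ W) →
      ∃ W' : Submodule K V, (∀ s ∈ S, ∀ v ∈ W', s v ∈ W') ∧ IsCompl W W' := by
  constructor
  · intro hs W hW
    obtain ⟨N, hN⟩ := hs.exists_isCompl (toSub S W hW)
    exact ⟨ofSub S N, ofSub_stable S N, (isCompl_sub_iff S _ _).mp hN⟩
  · intro h
    refine { exists_isCompl := fun N => ?_ }
    obtain ⟨W', hW', hc⟩ := h (ofSub S N) (ofSub_stable S N)
    exact ⟨toSub S W' hW', (isCompl_sub_iff S _ _).mpr hc⟩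

/-- an operator which commutes with `S` -/
def toLin (S : Set (Module.End K V)) (φ : Module.End K V) (h : ∀ s ∈ S, Commute φ s) :
    V →ₗ[alg S] V where
  toFun := φ
  map_add' := map_add φ
  map_smul' := by
    rintro ⟨a, ha⟩ v
    have h1 : Commute φ a := by
      induction ha using Algebra.adjoin_induction with
      | mem x hx => exact h x hx
      | algebraMap r => exact (Algebra.commutes r φ).symm
      | add x y _ _ hx hy => exact hx.add_right hy
      | mul x y _ _ hx hy => exact hx.mul_right hy
    exact LinearMap.congr_fun h1 v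

theorem complement_of_complement [FiniteDimensional K V] (S : Set (Module.End K V))
    (h : ∀ W : Submodule K V, (∀ s ∈ S, ∀ v ∈ W, s v ∈ W) →
      (∀ φ : Module.End K V, (∀ s ∈ S, Commute φ s) → ∀ v ∈ W, φ v ∈ W) →
      ∃ W' : Submodule K V, (∀ s ∈ S, ∀ v ∈ W', s v ∈ W') ∧ IsCompl W W') :
    ∀ W : Submodule K V, (∀ s ∈ S, ∀ v ∈ W, s v ∈ W) →
      ∃ W' : Submodule K V, (∀ s ∈ S, ∀ v ∈ W', s v ∈ W') ∧ IsCompl W W' := by
  rw [← isSemisimpleModule_iff]
  let N₀ : Submodule (alg S) V := sSup {m | IsSimpleModule (alg S) m}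
  obtain ⟨W', hW', hc⟩ := h (ofSub S N₀) (ofSub_stable S N₀) (by
    intro φ hφ
    have h1 : N₀ ≤ N₀.comap (toLin S φ hφ) := socle_stable (toLin S φ hφ)
    exact fun v hv => h1 hv)
  -- the complement contains no simple module
  have hc' : IsCompl N₀ (toSub S W' hW') := (isCompl_sub_iff S _ _).mpr hc
  have hart : IsArtinian (alg S) V := isArtinian_of_tower K inferInstance
  have hbot : toSub S W' hW' = ⊥ := by
    by_contra hne
    obtain ⟨m, hm, hle⟩ := (IsAtomic.eq_bot_or_exists_atom_le (toSub S W' hW')).resolve_left hne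
    have h1 : m ≤ N₀ := le_sSup (isSimpleModule_iff_isAtom.mpr hm)
    have h2 : m ≤ ⊥ := by
      rw [← hc'.inf_eq_bot]
      exact le_inf h1 hle
    exact hm.1 (le_bot_iff.mp h2)
  have htop : N₀ = ⊤ := by
    have := hc'.sup_eq_top
    rwa [hbot, sup_bot_eq] at this
  exact IsSemisimpleModule.of_sSup_simples_eq_top htop

end

end Pool.Agent.Q55.SF
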