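import Pool.Agent.Q55.SF.Fwd

/-! # Finiteness implies that the realisations are semisimple -/

set_option autoImplicit false

namespace Pool.Agent.Q55.SF

open Matrix

section poly

variable {R K V : Type} [CommRing R] [Field K] [Algebra R K] [AddCommGroup V] [Module K V]
  [Module R V] [IsScalarTower R K V]

theorem aeval_restrict (φ : Module.End K V) (N : Submodule R V) (U : Module.End R N)
    (hU : ∀ w : N, ((U w : N) : V) = φ (w : V)) (p : Polynomial R) (w : N) :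
    (Polynomial.aeval φ p) (w : V) = ((Polynomial.aeval U p w : N) : V) := by
  induction p using Polynomial.induction_on' with
  | add p q hp hq =>
    rw [map_add, map_add, LinearMap.add_apply, LinearMap.add_apply, hp, hq, Submodule.coe_add]
  | monomial n a =>
    have hpow : ∀ (n : ℕ) (w : N), (φ ^ n) (w : V) = (((U ^ n) w : N) : V) := by
      intro n
      induction n with
      | zero => intro w; rfl
      | succ n ih =>
        intro w
        rw [pow_succ, pow_succ, Module.End.mul_apply, Module.End.mul_apply, ← hU, ih]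
    rw [Polynomial.aeval_monomial, Polynomial.aeval_monomial, Module.End.mul_apply,
      Module.End.mul_apply, hpow, Module.algebraMap_end_apply, Module.algebraMap_end_apply,
      Submodule.coe_smul]

theorem aeval_mem (φ : Module.End K V) (N : Submodule R V) (h : ∀ w ∈ N, φ w ∈ N)
    (p : Polynomial R) (w : V) (hw : w ∈ N) : (Polynomial.aeval φ p) w ∈ N := by
  induction p using Polynomial.induction_on' with
  | add p q hp hq =>
    rw [map_add, LinearMap.add_apply]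
    exact N.add_mem hp hq
  | monomial n a =>
    have hpow : ∀ (n : ℕ) (w : V), w ∈ N → (φ ^ n) w ∈ N := by
      intro n
      induction n with
      | zero => intro w hw; exact hw
      | succ n ih =>
        intro w hw
        rw [pow_succ, Module.End.mul_apply]
        exact ih _ (h w hw)
    rw [Polynomial.aeval_monomial, Module.End.mul_apply, Module.algebraMap_end_apply]
    exact N.smul_mem _ (hpow n w hw)

theorem aeval_comm (φ ψ : Module.End K V) (h : ∀ v, ψ (φ v) = φ (ψ v))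
    (p : Polynomial R) (v : V) : ψ ((Polynomial.aeval φ p) v) = (Polynomial.aeval φ p) (ψ v) := by
  have h1 : Commute ψ φ := LinearMap.ext h
  have h2 : Commute ψ (Polynomial.aeval φ p) := by
    induction p using Polynomial.induction_on' with
    | add p q hp hq => rw [map_add]; exact hp.add_right hq
    | monomial n a =>
      rw [Polynomial.aeval_monomial]
      refine Commute.mul_right ?_ (h1.pow_right n)
      refine LinearMap.ext fun v => ?_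
      rw [Module.End.mul_apply, Module.End.mul_apply, Module.algebraMap_end_apply,
        Module.algebraMap_end_apply, ← algebraMap_smul K a, map_smul, algebraMap_smul]
  exact LinearMap.congr_fun h2 v

end poly

variable {G : Type} [Group G] {D : Motives G}

/-- Let `W` be a subspace which is stable under the Galois group and under the endomorphisms of
`X`. It has a stable complement. -/
theorem complement {τ : Type} {P : D.Obj → Prop} {h : D.Obj → τ} (hfin : D.Finiteness P h)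
    (X : D.Obj) (hX : P X) (ℓ : ℕ) [Fact ℓ.Prime]
    (W : Submodule ℚ_[ℓ] (Fin (D.rank X) → ℚ_[ℓ])) (hG : ∀ g : G, ∀ v ∈ W, D.act X ℓ g *ᵥ v ∈ W)
    (hE : ∀ f ∈ D.Hom X X, ∀ v ∈ W, f.map (algebraMap ℚ ℚ_[ℓ]) *ᵥ v ∈ W) :
    ∃ W' : Submodule ℚ_[ℓ] (Fin (D.rank X) → ℚ_[ℓ]),
      (∀ g : G, ∀ v ∈ W', D.act X ℓ g *ᵥ v ∈ W') ∧ IsCompl W W' := by
  classical
  let Wc : Submodule ℤ_[ℓ] (Fin (D.rank X) → ℤ_[ℓ]) :=
    Submodule.comap (emb _ ℓ) (W.restrictScalars ℤ_[ℓ])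
  have hWc : ∀ v, v ∈ Wc ↔ emb _ ℓ v ∈ W := fun v => Iff.rfl
  have hWcs : ∀ g, ∀ v ∈ Wc, im D X ℓ g *ᵥ v ∈ Wc := by
    intro g v hv
    rw [hWc] at hv ⊢
    rw [← act_emb]
    exact hG g _ hv
  obtain ⟨m, hm⟩ := pigeon D hfin X hX
    (fun n : ℕ => fun ℓ' _ => single ℓ (Wc ⊔ ptop _ ℓ n) ℓ')
    (fun n => sup_ptop_lattice D X ℓ _ hWcs n)
  obtain ⟨n, hn, hmn⟩ := hm.exists_gt m
  obtain ⟨f, hf, g, hg, h1, h2, h3⟩ := hn
  have h4 := h3 ℓ
  simp only [single_self] at h4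
  set F := f.map (algebraMap ℚ ℚ_[ℓ]) with hF
  set F' := g.map (algebraMap ℚ ℚ_[ℓ]) with hF'
  have hFF : ∀ v, F *ᵥ (F' *ᵥ v) = v := fun v => by
    rw [mulVec_mulVec, ← Matrix.map_mul, h2, Matrix.map_one _ (map_zero _) (map_one _), one_mulVec]
  have hFF' : ∀ v, F' *ᵥ (F *ᵥ v) = v := fun v => by
    rw [mulVec_mulVec, ← Matrix.map_mul, h1, Matrix.map_one _ (map_zero _) (map_one _), one_mulVec]
  -- the action on `W ∩ T`
  have hs1 : ∀ w ∈ Wc, ∃ w' ∈ Wc, F *ᵥ emb _ ℓ w = emb _ ℓ w' := by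
    intro w hw
    have h5 : emb _ ℓ w ∈ (Wc ⊔ ptop _ ℓ m).map (emb _ ℓ) := ⟨w, Submodule.mem_sup_left hw, rfl⟩
    rw [h4] at h5
    obtain ⟨y, -, hy⟩ := h5
    refine ⟨y, ?_, hy.symm⟩
    rw [hWc, hy]
    exact hE f hf _ hw
  have hs2 : ∀ w ∈ Wc, ∃ w' ∈ Wc, F' *ᵥ emb _ ℓ w = emb _ ℓ w' := by
    intro w hw
    have h5 : F' *ᵥ emb _ ℓ w ∈ (Wc ⊔ ptop _ ℓ m).map (emb _ ℓ) := by
      rw [h4, hFF]
      exact ⟨w, Submodule.mem_sup_left hw, rfl⟩
    obtain ⟨y, -, hy⟩ := h5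
    refine ⟨y, ?_, hy.symm⟩
    rw [hWc, hy]
    exact hE g hg _ hw
  -- `F` maps `T` into `W + ℓ T`
  have hs3 : ∀ v : Fin (D.rank X) → ℤ_[ℓ], ∃ w ∈ W, ∃ t : Fin (D.rank X) → ℤ_[ℓ],
      F *ᵥ emb _ ℓ v = w + (ℓ : ℚ_[ℓ]) • emb _ ℓ t := by
    intro v
    have h5 : emb _ ℓ ((ℓ : ℤ_[ℓ]) ^ m • v) ∈ (Wc ⊔ ptop _ ℓ m).map (emb _ ℓ) :=
      ⟨_, Submodule.mem_sup_right (mem_ptop v), rfl⟩
    rw [h4, emb_nsmul, mulVec_smul] at h5
    obtain ⟨y, hy, hy'⟩ := h5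
    obtain ⟨a, ha, b, hb, rfl⟩ := Submodule.mem_sup.mp hy
    obtain ⟨t, rfl⟩ := ptop_elim hb
    obtain ⟨j, hj⟩ := Nat.exists_eq_add_of_lt hmn
    refine ⟨((ℓ : ℚ_[ℓ]) ^ m)⁻¹ • emb _ ℓ a, W.smul_mem _ ha, (ℓ : ℤ_[ℓ]) ^ j • t, ?_⟩
    have hp : (ℓ : ℚ_[ℓ]) ^ m ≠ 0 := pow_ne_zero _ p_ne
    apply smul_right_injective _ hp
    beta_reduce
    rw [← hy', map_add, smul_add, smul_smul, mul_inv_cancel₀ hp, one_smul, emb_nsmul, emb_nsmul,
      smul_smul, smul_smul, hj]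
    congr 2
    ring
  -- the module `W ∩ T` in `V`
  let N : Submodule ℤ_[ℓ] (Fin (D.rank X) → ℚ_[ℓ]) := Wc.map (emb _ ℓ)
  let φ : Module.End ℚ_[ℓ] (Fin (D.rank X) → ℚ_[ℓ]) := F.mulVecLin
  let φ' : Module.End ℚ_[ℓ] (Fin (D.rank X) → ℚ_[ℓ]) := F'.mulVecLin
  have hφN : ∀ w ∈ N, φ w ∈ N := by
    rintro _ ⟨w, hw, rfl⟩
    obtain ⟨w', hw', e⟩ := hs1 w hw
    exact ⟨w', hw', e.symm⟩
  have hφN' : ∀ w ∈ N, φ' w ∈ N := by
    rintro _ ⟨w, hw, rfl⟩
    obtain ⟨w', hw', e⟩ := hs2 w hw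
    exact ⟨w', hw', e.symm⟩
  let U : Module.End ℤ_[ℓ] N := (φ.restrictScalars ℤ_[ℓ]).restrict hφN
  let U' : Module.End ℤ_[ℓ] N := (φ'.restrictScalars ℤ_[ℓ]).restrict hφN'
  have hUU : U * U' = 1 := by
    ext w : 2
    exact hFF w
  have hUU' : U' * U = 1 := by
    ext w : 2
    exact hFF' w
  have hUunit : IsUnit U := ⟨⟨U, U', hUU, hUU'⟩, rfl⟩
  have : Module.Finite ℤ_[ℓ] N := Module.Finite.iff_fg.mpr ((IsNoetherian.noetherian Wc).map _)
  have : Module.Free ℤ_[ℓ] N := inferInstance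
  set q := U.charpoly with hq
  have hq0 : IsUnit (q.coeff 0) := by
    have h5 : IsUnit (LinearMap.det U) := hUunit.map LinearMap.det
    rw [LinearMap.det_eq_sign_charpoly_coeff] at h5
    exact isUnit_of_mul_isUnit_right h5
  let Φ : Module.End ℚ_[ℓ] (Fin (D.rank X) → ℚ_[ℓ]) := Polynomial.aeval φ q
  have hΦN : ∀ w ∈ N, Φ w = 0 := by
    intro w hw
    have h5 := aeval_restrict φ N U (fun w => rfl) q ⟨w, hw⟩
    rw [hq, LinearMap.aeval_self_charpoly] at h5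
    exact h5
  have hΦW : ∀ w ∈ W, Φ w = 0 := by
    intro w hw
    obtain ⟨k, y, hy⟩ := exists_pow_emb w
    have h5 : Φ ((ℓ : ℚ_[ℓ]) ^ k • w) = 0 := by
      apply hΦN
      rw [← hy]
      refine ⟨y, ?_, rfl⟩
      rw [SetLike.mem_coe, hWc, hy]
      exact W.smul_mem _ hw
    rw [map_smul] at h5
    exact (smul_eq_zero.mp h5).resolve_left (pow_ne_zero _ p_ne)
  -- the module `W + ℓ T`
  let S : Submodule ℤ_[ℓ] (Fin (D.rank X) → ℚ_[ℓ]) :=
    (W.restrictScalars ℤ_[ℓ]) ⊔ (ptop _ ℓ 1).map (emb _ ℓ)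
  have hSmem : ∀ (w : Fin (D.rank X) → ℚ_[ℓ]) (t : Fin (D.rank X) → ℤ_[ℓ]), w ∈ W →
      w + (ℓ : ℚ_[ℓ]) • emb _ ℓ t ∈ S := by
    intro w t hw
    refine Submodule.add_mem_sup hw ⟨(ℓ : ℤ_[ℓ]) ^ 1 • t, mem_ptop t, ?_⟩
    rw [emb_nsmul, pow_one]
  have hSelim : ∀ v ∈ S, ∃ w ∈ W, ∃ t : Fin (D.rank X) → ℤ_[ℓ],
      v = w + (ℓ : ℚ_[ℓ]) • emb _ ℓ t := by
    intro v hv
    obtain ⟨a, ha, b, hb, rfl⟩ := Submodule.mem_sup.mp hv
    obtain ⟨y, hy, rfl⟩ := hb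
    obtain ⟨t, rfl⟩ := ptop_elim hy
    refine ⟨a, ha, t, ?_⟩
    rw [emb_nsmul, pow_one]
  have hφS : ∀ v ∈ S, φ v ∈ S := by
    intro v hv
    obtain ⟨w, hw, t, rfl⟩ := hSelim v hv
    obtain ⟨w', hw', t', ht'⟩ := hs3 t
    have : φ (w + (ℓ : ℚ_[ℓ]) • emb _ ℓ t) =
        (F *ᵥ w + (ℓ : ℚ_[ℓ]) • w') + (ℓ : ℚ_[ℓ]) • emb _ ℓ ((ℓ : ℤ_[ℓ]) ^ 1 • t') := by
      rw [map_add, map_smul]
      have e1 : φ w = F *ᵥ w := rfl
      have e2 : φ (emb _ ℓ t) = F *ᵥ emb _ ℓ t := rfl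
      rw [e1, e2, ht', emb_nsmul, pow_one, smul_add, add_assoc]
    rw [this]
    exact hSmem _ _ (W.add_mem (hE f hf _ hw) (W.smul_mem _ hw'))
  have hstep : ∀ v : Fin (D.rank X) → ℤ_[ℓ], Φ (emb _ ℓ v) ∈ W →
      ∃ w ∈ Wc, ∃ t, v = w + (ℓ : ℤ_[ℓ]) • t ∧ Φ (emb _ ℓ t) ∈ W := by
    intro v hv
    have h5 : Φ (emb _ ℓ v) = Polynomial.aeval φ q.divX (φ (emb _ ℓ v)) +
        q.coeff 0 • emb _ ℓ v := by
      have h6 : Φ = Polynomial.aeval φ (q.divX * Polynomial.X + Polynomial.C (q.coeff 0)) := by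
        rw [Polynomial.divX_mul_X_add]
      rw [h6, map_add, map_mul, Polynomial.aeval_X, Polynomial.aeval_C, LinearMap.add_apply,
        Module.End.mul_apply, Module.algebraMap_end_apply]
    have h6 : Polynomial.aeval φ q.divX (φ (emb _ ℓ v)) ∈ S := by
      apply aeval_mem φ S hφS
      obtain ⟨w', hw', t', ht'⟩ := hs3 v
      have e2 : φ (emb _ ℓ v) = F *ᵥ emb _ ℓ v := rfl
      rw [e2, ht']
      exact hSmem _ _ hw'
    have h7 : q.coeff 0 • emb _ ℓ v ∈ S := by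
      have h8 : q.coeff 0 • emb _ ℓ v =
          Φ (emb _ ℓ v) - Polynomial.aeval φ q.divX (φ (emb _ ℓ v)) := by
        rw [h5, add_sub_cancel_left]
      rw [h8]
      exact S.sub_mem (Submodule.mem_sup_left hv) h6
    obtain ⟨u, hu⟩ := hq0
    have h8 : emb _ ℓ v ∈ S := by
      have := S.smul_mem ((u⁻¹ : ℤ_[ℓ]ˣ) : ℤ_[ℓ]) h7
      rwa [smul_smul, ← hu, Units.inv_mul, one_smul] at this
    obtain ⟨w, hw, t, ht⟩ := hSelim _ h8
    have h9 : emb _ ℓ (v - (ℓ : ℤ_[ℓ]) • t) = w := by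
      rw [map_sub, ht]
      have := emb_nsmul (ℓ := ℓ) 1 t
      rw [pow_one, pow_one] at this
      rw [this, add_sub_cancel_right]
    refine ⟨v - (ℓ : ℤ_[ℓ]) • t, ?_, t, (sub_add_cancel _ _).symm, ?_⟩
    · rw [hWc, h9]; exact hw
    · have h10 : (ℓ : ℚ_[ℓ]) • Φ (emb _ ℓ t) = Φ (emb _ ℓ v) := by
        rw [ht, map_add, hΦW w hw, zero_add, map_smul]
      have h11 : Φ (emb _ ℓ t) = (ℓ : ℚ_[ℓ])⁻¹ • Φ (emb _ ℓ v) := by
        rw [← h10, smul_smul, inv_mul_cancel₀ p_ne, one_smul]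
      rw [h11]
      exact W.smul_mem _ hv
  have hall : ∀ (k : ℕ) (v : Fin (D.rank X) → ℤ_[ℓ]), Φ (emb _ ℓ v) ∈ W →
      ∃ w ∈ Wc, ∃ t, v = w + (ℓ : ℤ_[ℓ]) ^ k • t ∧ Φ (emb _ ℓ t) ∈ W := by
    intro k
    induction k with
    | zero => intro v hv; exact ⟨0, Wc.zero_mem, v, by rw [pow_zero, one_smul, zero_add], hv⟩
    | succ k ih =>
      intro v hv
      obtain ⟨w, hw, t, rfl, ht⟩ := ih v hv
      obtain ⟨w', hw', t', rfl, ht'⟩ := hstep t ht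
      refine ⟨w + (ℓ : ℤ_[ℓ]) ^ k • w', Wc.add_mem hw (Wc.smul_mem _ hw'), t', ?_, ht'⟩
      rw [smul_add, smul_smul, pow_succ, add_assoc]
  have hker : ∀ v, Φ v ∈ W → v ∈ W := by
    intro v hv
    obtain ⟨k, y, hy⟩ := exists_pow_emb v
    have h5 : Φ (emb _ ℓ y) ∈ W := by
      rw [hy, map_smul]
      exact W.smul_mem _ hv
    have h6 : y ∈ Wc := mem_of_all Wc y fun j => by
      obtain ⟨w, hw, t, e, -⟩ := hall j y h5
      exact ⟨w, hw, t, e⟩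
    rw [hWc, hy] at h6
    have h7 := W.smul_mem ((ℓ : ℚ_[ℓ]) ^ k)⁻¹ h6
    rwa [smul_smul, inv_mul_cancel₀ (pow_ne_zero _ p_ne), one_smul] at h7
  refine ⟨LinearMap.range Φ, ?_, ?_⟩
  · rintro s _ ⟨x, rfl⟩
    refine ⟨D.act X ℓ s *ᵥ x, ?_⟩
    have h5 : ∀ v, (D.act X ℓ s).mulVecLin (φ v) = φ ((D.act X ℓ s).mulVecLin v) := by
      intro v
      have h6 := D.comm X X f hf ℓ s
      have e1 : (D.act X ℓ s).mulVecLin (φ v) = D.act X ℓ s *ᵥ (F *ᵥ v) := rfl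
      have e2 : φ ((D.act X ℓ s).mulVecLin v) = F *ᵥ (D.act X ℓ s *ᵥ v) := rfl
      rw [e1, e2, mulVec_mulVec, mulVec_mulVec]
      congr 1
      exact h6.symm
    exact (aeval_comm φ (D.act X ℓ s).mulVecLin h5 q x).symm
  · refine (Submodule.isCompl_iff_disjoint _ _ ?_).mpr ?_
    · have h5 : LinearMap.ker Φ = W := by
        apply le_antisymm
        · intro v hv
          exact hker v (by rw [LinearMap.mem_ker.mp hv]; exact W.zero_mem)
        · intro v hv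
          exact hΦW v hv
      rw [← LinearMap.finrank_range_add_finrank_ker Φ, h5, add_comm]
    · rw [Submodule.disjoint_def]
      rintro _ hv ⟨x, rfl⟩
      exact hΦW x (hker x hv)

end Pool.Agent.Q55.SF
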