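import Pool.Agent.Q55.SF.Open
import Pool.Agent.Q55.SF.Ss
import Pool.Agent.Q55.SF.Soc

/-! # The Tate conjecture for endomorphisms and openness of the Galois algebra -/

set_option autoImplicit false

namespace Pool.Agent.Q55.SF

open Matrix

/-- The double centralizer theorem. -/
theorem double_centralizer {K V : Type} [Field K] [AddCommGroup V] [Module K V]
    [FiniteDimensional K V] (A : Subalgebra K (Module.End K V)) [IsSemisimpleModule A V]
    (x : Module.End K V) (hx : ∀ φ : Module.End K V, (∀ a ∈ A, Commute φ a) → Commute φ x) :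
    x ∈ A := by
  have : Module.Finite (Module.End A V) V := Module.Finite.of_restrictScalars_finite K _ _
  let f : Module.End (Module.End A V) V :=
    { toFun := x
      map_add' := map_add x
      map_smul' := by
        intro φ v
        have h1 := hx (φ.restrictScalars K) (fun a ha => LinearMap.ext fun w =>
          φ.map_smul (⟨a, ha⟩ : A) w)
        exact (LinearMap.congr_fun h1 v).symm }
  obtain ⟨r, hr⟩ := Module.Finite.toModuleEnd_moduleEnd_surjective (R := A) (M := V) f
  have h1 : (r : Module.End K V) = x := by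
    ext v
    exact LinearMap.congr_fun hr v
  rw [← h1]
  exact r.2

theorem double_centralizer_alg {K V : Type} [Field K] [AddCommGroup V] [Module K V]
    [FiniteDimensional K V] (S : Set (Module.End K V))
    (h : ∀ W : Submodule K V, (∀ s ∈ S, ∀ v ∈ W, s v ∈ W) →
      ∃ W' : Submodule K V, (∀ s ∈ S, ∀ v ∈ W', s v ∈ W') ∧ IsCompl W W')
    (x : Module.End K V) (hx : ∀ φ : Module.End K V, (∀ s ∈ S, Commute φ s) → Commute φ x) :
    x ∈ alg S := by
  have := (isSemisimpleModule_iff S).mpr h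
  exact double_centralizer (alg S) x fun φ hφ => hx φ fun s hs => hφ s (Algebra.subset_adjoin hs)

/-- The double centralizer theorem for a semisimple algebra of matrices. -/
theorem double_centralizer_matrix {n : ℕ} (E : Subalgebra ℚ (Matrix (Fin n) (Fin n) ℚ))
    [IsSemisimpleRing E] (x : Matrix (Fin n) (Fin n) ℚ)
    (hx : ∀ c : Matrix (Fin n) (Fin n) ℚ, (∀ e ∈ E, c * e = e * c) → c * x = x * c) : x ∈ E := by
  let T : Matrix (Fin n) (Fin n) ℚ ≃ₐ[ℚ] Module.End ℚ (Fin n → ℚ) := Matrix.toLinAlgEquiv'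
  let A : Subalgebra ℚ (Module.End ℚ (Fin n → ℚ)) := E.map T.toAlgHom
  have hA : IsSemisimpleRing A := by
    let e : E ≃ₐ[ℚ] A := E.equivMapOfInjective T.toAlgHom T.injective
    exact e.toRingEquiv.isSemisimpleRing
  have h1 : T x ∈ A := by
    apply double_centralizer A
    intro φ hφ
    obtain ⟨c, rfl⟩ := T.surjective φ
    have h2 : c * x = x * c := hx c fun e he => by
      have h3 : T c * T e = T e * T c := hφ (T e) ⟨e, he, rfl⟩
      rw [← map_mul, ← map_mul] at h3
      exact T.injective h3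
    change T c * T x = T x * T c
    rw [← map_mul, h2, map_mul]
  obtain ⟨y, hy, hxy⟩ := h1
  rw [← T.injective hxy]
  exact hy

/-- Base change of commutants. -/
theorem base_change {n : ℕ} (K : Type) [Field K] [Algebra ℚ K]
    (C : Set (Matrix (Fin n) (Fin n) ℚ)) (α : Matrix (Fin n) (Fin n) K)
    (hα : ∀ c ∈ C, α * c.map (algebraMap ℚ K) = c.map (algebraMap ℚ K) * α) :
    α ∈ Submodule.span K ((fun f : Matrix (Fin n) (Fin n) ℚ => f.map (algebraMap ℚ K)) ''
      {x | ∀ c ∈ C, x * c = c * x}) := by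
  classical
  let b := Module.Free.chooseBasis ℚ K
  let x : Module.Free.ChooseBasisIndex ℚ K → Matrix (Fin n) (Fin n) ℚ :=
    fun t => Matrix.of fun i j => b.repr (α i j) t
  -- the support
  let s : Finset (Module.Free.ChooseBasisIndex ℚ K) :=
    Finset.univ.biUnion fun q : Fin n × Fin n => (b.repr (α q.1 q.2)).support
  have hs : ∀ i j, α i j = ∑ t ∈ s, algebraMap ℚ K (x t i j) * b t := by
    intro i j
    have h1 : (b.repr (α i j)).support ⊆ s :=
      Finset.subset_biUnion_of_mem (fun q : Fin n × Fin n => (b.repr (α q.1 q.2)).support)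
        (Finset.mem_univ (i, j))
    have h2 := Finsupp.sum_of_support_subset (b.repr (α i j)) h1 (fun t a => a • b t)
      (fun _ _ => zero_smul _ _)
    have h3 : (b.repr (α i j)).sum (fun t a => a • b t) = α i j := by
      rw [← Finsupp.linearCombination_apply]
      exact b.linearCombination_repr (α i j)
    rw [← h3, h2]
    exact Finset.sum_congr rfl fun t _ => by rw [Algebra.smul_def]; rfl
  have hx : ∀ t, ∀ c ∈ C, x t * c = c * x t := by
    intro t c hc
    have h1 := hα c hc
    ext i j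
    have h2 := congrFun (congrFun h1 i) j
    have h3 := congrArg (fun z => b.repr z t) h2
    simp only [Matrix.mul_apply, Matrix.map_apply, map_sum, Finsupp.coe_finsetSum,
      Finset.sum_apply] at h3
    have e1 : ∀ (r : ℚ) (z : K), b.repr (z * algebraMap ℚ K r) t = b.repr z t * r := by
      intro r z
      rw [mul_comm, ← Algebra.smul_def, map_smul, Finsupp.smul_apply, smul_eq_mul, mul_comm]
    have e2 : ∀ (r : ℚ) (z : K), b.repr (algebraMap ℚ K r * z) t = r * b.repr z t := by
      intro r z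
      rw [← Algebra.smul_def, map_smul, Finsupp.smul_apply, smul_eq_mul]
    simp only [e1, e2] at h3
    simp only [Matrix.mul_apply]
    exact h3
  have h4 : α = ∑ t ∈ s, b t • (x t).map (algebraMap ℚ K) := by
    ext i j
    rw [hs i j, Matrix.sum_apply]
    exact Finset.sum_congr rfl fun t _ => by
      rw [Matrix.smul_apply, smul_eq_mul, Matrix.map_apply, mul_comm]
  rw [h4]
  exact Submodule.sum_mem _ fun t _ => Submodule.smul_mem _ _ (Submodule.subset_span
    ⟨x t, hx t, rfl⟩)

variable {G : Type} [Group G] {D : Motives G}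

theorem semisimpleAt_of_finiteness {τ : Type} {P : D.Obj → Prop} {h : D.Obj → τ}
    (hfin : D.Finiteness P h) (X : D.Obj) (hX : P X) (ℓ : ℕ) [Fact ℓ.Prime] :
    D.IsSemisimpleAt X ℓ := by
  have h1 := complement_of_complement
    (Set.range fun g : G => (D.act X ℓ g).mulVecLin) (by
      intro W hW hφ
      obtain ⟨W', h2, h3⟩ := complement hfin X hX ℓ W (fun g v hv => hW _ ⟨g, rfl⟩ v hv) (by
        intro f hf v hv
        refine hφ (f.map (algebraMap ℚ ℚ_[ℓ])).mulVecLin ?_ v hv
        rintro _ ⟨g, rfl⟩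
        refine LinearMap.ext fun w => ?_
        have h4 := D.comm X X f hf ℓ g
        change f.map (algebraMap ℚ ℚ_[ℓ]) *ᵥ (D.act X ℓ g *ᵥ w) =
          D.act X ℓ g *ᵥ (f.map (algebraMap ℚ ℚ_[ℓ]) *ᵥ w)
        rw [mulVec_mulVec, mulVec_mulVec]
        congr 1)
      refine ⟨W', ?_, h3⟩
      rintro _ ⟨g, rfl⟩ v hv
      exact h2 g v hv)
  intro W hW
  obtain ⟨W', h2, h3⟩ := h1 W (by rintro _ ⟨g, rfl⟩ v hv; exact hW g v hv)
  exact ⟨W', fun g v hv => h2 _ ⟨g, rfl⟩ v hv, h3⟩

/-- a rational matrix commuting with the endomorphisms, cleared of denominators at `ℓ` -/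
theorem exists_integral (X : D.Obj) (ℓ : ℕ) [Fact ℓ.Prime]
    (c : Matrix (Fin (D.rank X)) (Fin (D.rank X)) ℚ) (hc : ∀ e ∈ D.endo X, c * e = e * c) :
    ∃ (k : ℕ) (c' : Matrix (Fin (D.rank X)) (Fin (D.rank X)) ℤ_[ℓ]), c' ∈ D.commutant X ℓ ∧
      c'.map (algebraMap ℤ_[ℓ] ℚ_[ℓ]) = (ℓ : ℚ_[ℓ]) ^ k • c.map (algebraMap ℚ ℚ_[ℓ]) := by
  obtain ⟨k, hk⟩ := exists_pow_matrix (c.map (algebraMap ℚ ℚ_[ℓ]))
  obtain ⟨c', hc'⟩ := exists_lift ((ℓ : ℚ_[ℓ]) ^ k • c.map (algebraMap ℚ ℚ_[ℓ]))
    (fun x y => by rw [Matrix.smul_apply, smul_eq_mul]; exact hk x y)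
  refine ⟨k, c', fun f hf => ?_, hc'⟩
  rw [hc', Matrix.smul_mul, Matrix.mul_smul, ← Matrix.map_mul, ← Matrix.map_mul, hc f hf]

theorem commute_galoisAlgebra (X : D.Obj) (ℓ : ℕ) [Fact ℓ.Prime]
    (α : Matrix (Fin (D.rank X)) (Fin (D.rank X)) ℚ_[ℓ])
    (hα : ∀ g : G, α * D.act X ℓ g = D.act X ℓ g * α)
    (w : Matrix (Fin (D.rank X)) (Fin (D.rank X)) ℤ_[ℓ]) (hw : w ∈ D.galoisAlgebra X ℓ) :
    α * w.map (algebraMap ℤ_[ℓ] ℚ_[ℓ]) = w.map (algebraMap ℤ_[ℓ] ℚ_[ℓ]) * α := by
  unfold Motives.galoisAlgebra at hw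
  induction hw using Submodule.span_induction with
  | mem x hx =>
    obtain ⟨g, rfl⟩ := hx
    exact hα g
  | zero => rw [Matrix.map_zero _ (map_zero _), Matrix.mul_zero, Matrix.zero_mul]
  | add x y _ _ hx hy =>
    rw [Matrix.map_add _ (map_add _), Matrix.mul_add, Matrix.add_mul, hx, hy]
  | smul r x _ hx =>
    have e : (r • x).map (algebraMap ℤ_[ℓ] ℚ_[ℓ]) =
        algebraMap ℤ_[ℓ] ℚ_[ℓ] r • x.map (algebraMap ℤ_[ℓ] ℚ_[ℓ]) := by
      ext i j
      simp only [Matrix.map_apply, Matrix.smul_apply, smul_eq_mul, map_mul]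
    rw [e, Matrix.smul_mul, Matrix.mul_smul, hx]

/-- If the Galois algebra is open then the endomorphisms of `V_ℓ` are combinations of rational
matrices which commute with the commutant of the endomorphisms. -/
theorem tateAt_of_isOpen (X : D.Obj) (ho : D.IsOpen X) (hE : IsSemisimpleRing (D.endo X)) (ℓ : ℕ)
    [Fact ℓ.Prime] : D.TateAt X ℓ := by
  intro α hα
  obtain ⟨k, hk⟩ := ho.1 ℓ
  have h1 := base_change ℚ_[ℓ] {c | ∀ e ∈ D.endo X, c * e = e * c} α (by
    intro c hc
    obtain ⟨j, c', hc', e⟩ := exists_integral X ℓ c hc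
    have h2 := commute_galoisAlgebra X ℓ α hα _ (hk c' hc')
    have e2 : ((ℓ : ℤ_[ℓ]) ^ k • c').map (algebraMap ℤ_[ℓ] ℚ_[ℓ]) =
        ((ℓ : ℚ_[ℓ]) ^ k * (ℓ : ℚ_[ℓ]) ^ j) • c.map (algebraMap ℚ ℚ_[ℓ]) := by
      rw [mul_smul, ← e]
      ext x y
      simp only [Matrix.map_apply, Matrix.smul_apply, smul_eq_mul, map_mul, map_pow, map_natCast]
    rw [e2, Matrix.mul_smul, Matrix.smul_mul] at h2
    exact smul_right_injective _ (mul_ne_zero (pow_ne_zero _ p_ne) (pow_ne_zero _ p_ne)) h2)
  refine Submodule.span_mono (Set.image_mono ?_) h1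
  intro x hx
  exact double_centralizer_matrix (D.endo X) x fun c hc => (hx c hc).symm

/-- the products of the operators -/
theorem alg_eq_span {K V : Type} [Field K] [AddCommGroup V] [Module K V]
    (s : G → Module.End K V) (h1 : s 1 = 1) (hm : ∀ g g', s (g * g') = s g * s g')
    (x : Module.End K V) (hx : x ∈ alg (Set.range s)) : x ∈ Submodule.span K (Set.range s) := by
  induction hx using Algebra.adjoin_induction with
  | mem x hx => exact Submodule.subset_span hx
  | algebraMap r =>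
    rw [Algebra.algebraMap_eq_smul_one, ← h1]
    exact Submodule.smul_mem _ _ (Submodule.subset_span ⟨1, rfl⟩)
  | add x y _ _ hx hy => exact Submodule.add_mem _ hx hy
  | mul x y hx0 hy0 hx hy =>
    clear hx0 hy0
    induction hx using Submodule.span_induction with
    | mem x hx =>
      obtain ⟨g, rfl⟩ := hx
      induction hy using Submodule.span_induction with
      | mem y hy =>
        obtain ⟨g', rfl⟩ := hy
        rw [← hm]
        exact Submodule.subset_span ⟨g * g', rfl⟩
      | zero => rw [mul_zero]; exact Submodule.zero_mem _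
      | add y z _ _ hy hz => rw [mul_add]; exact Submodule.add_mem _ hy hz
      | smul r y _ hy => rw [mul_smul_comm]; exact Submodule.smul_mem _ _ hy
    | zero => rw [zero_mul]; exact Submodule.zero_mem _
    | add y z _ _ hy hz => rw [add_mul]; exact Submodule.add_mem _ hy hz
    | smul r y _ hy => rw [smul_mul_assoc]; exact Submodule.smul_mem _ _ hy

end Pool.Agent.Q55.SF
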