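import Pool.Agent.Q55.SF.JZ5
import Pool.Agent.Q55.SF.Tate

/-! # Jordan–Zassenhaus, sixth part: lattices stable under the commutant of an algebra of matrices -/

set_option autoImplicit false

namespace Pool.Agent.Q55.SF

open Matrix

/-- the lattice `ℤ ^ n` in `ℚ ^ n` -/
def stdl (n : ℕ) : AddSubgroup (Fin n → ℚ) where
  carrier := {v | ∀ i, ∃ z : ℤ, (z : ℚ) = v i}
  zero_mem' _ := ⟨0, by simp⟩
  add_mem' ha hb i := by
    obtain ⟨z, hz⟩ := ha i
    obtain ⟨w, hw⟩ := hb i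
    exact ⟨z + w, by rw [Int.cast_add, hz, hw]; rfl⟩
  neg_mem' ha i := by
    obtain ⟨z, hz⟩ := ha i
    exact ⟨-z, by rw [Int.cast_neg, hz]; rfl⟩

theorem mem_stdl {n : ℕ} (v : Fin n → ℚ) : v ∈ stdl n ↔ ∀ i, ∃ z : ℤ, (z : ℚ) = v i := Iff.rfl

theorem stdl_fg (n : ℕ) : (stdl n).FG := by
  let f : (Fin n → ℤ) →+ (Fin n → ℚ) :=
    { toFun := fun z i => (z i : ℚ)
      map_zero' := by funext i; simp
      map_add' := fun z w => by funext i; simp }
  have h : stdl n = f.range := by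
    ext v
    constructor
    · intro hv
      choose z hz using hv
      exact ⟨z, funext hz⟩
    · rintro ⟨z, rfl⟩ i
      exact ⟨z i, rfl⟩
  rw [h]
  exact fg_range' f

theorem stdl_full (n : ℕ) : Full (stdl n) := by
  intro v
  obtain ⟨D, hD, A, hA⟩ := exists_den (Matrix.of fun (i : Fin n) (_ : Fin 1) => v i)
  refine ⟨D, hD, fun i => ⟨A i 0, ?_⟩⟩
  have h := congrFun (congrFun hA i) 0
  rw [Pi.smul_apply, nsmul_eq_mul]
  exact h

/-- **Jordan–Zassenhaus** for lattices stable under the commutant. -/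
theorem jordan_zassenhaus_matrix {n : ℕ} (E : Subalgebra ℚ (Matrix (Fin n) (Fin n) ℚ))
    [IsSemisimpleRing E] (N₀ : ℕ) (hN₀ : 0 < N₀) :
    ∃ M : ℕ, 0 < M ∧ ∀ L : AddSubgroup (Fin n → ℚ), L.FG → Full L →
      (∀ c : Matrix (Fin n) (Fin n) ℤ, (∀ e ∈ E, c.map (algebraMap ℤ ℚ) * e =
        e * c.map (algebraMap ℤ ℚ)) → ∀ v ∈ L, N₀ • (c.map (algebraMap ℤ ℚ) *ᵥ v) ∈ L) →
        ∃ g ∈ E, ∃ g' ∈ E, g * g' = 1 ∧ g' * g = 1 ∧
          (∀ w ∈ stdl n, M • (g *ᵥ w) ∈ L) ∧ ∀ v, g *ᵥ v ∈ L → M • v ∈ stdl n := by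
  let T : Matrix (Fin n) (Fin n) ℚ ≃ₐ[ℚ] Module.End ℚ (Fin n → ℚ) := Matrix.toLinAlgEquiv'
  let A : Subalgebra ℚ (Module.End ℚ (Fin n → ℚ)) := E.map T.toAlgHom
  have hA : IsSemisimpleRing A := by
    let e : E ≃ₐ[ℚ] A := E.equivMapOfInjective T.toAlgHom T.injective
    exact e.toRingEquiv.isSemisimpleRing
  -- the matrix of an `A`-linear map
  have hC : ∀ c : Module.End A (Fin n → ℚ), ∃ C : Matrix (Fin n) (Fin n) ℚ,
      (∀ v, C *ᵥ v = c v) ∧ ∀ e ∈ E, C * e = e * C := by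
    intro c
    obtain ⟨C, hC⟩ := T.surjective (c.restrictScalars ℚ)
    have h1 : ∀ v, C *ᵥ v = c v := fun v => LinearMap.congr_fun hC v
    refine ⟨C, h1, fun e he => ?_⟩
    apply T.injective
    rw [map_mul, map_mul]
    refine LinearMap.ext fun v => ?_
    change C *ᵥ (e *ᵥ v) = e *ᵥ (C *ᵥ v)
    rw [h1, h1]
    exact c.map_smul (⟨T e, ⟨e, he, rfl⟩⟩ : A) v
  choose C hC1 hC2 using hC
  choose D hD1 C' hC' using fun c => exists_den (C c)
  obtain ⟨L₀, h1, h2, M, hM, h3⟩ := jordan_zassenhaus (A := A) (V := Fin n → ℚ)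
    (fun c => D c * N₀) (fun c => Nat.mul_pos (hD1 c) hN₀)
  obtain ⟨m, hm, hm1, hm2⟩ := exists_near (stdl_fg n) (stdl_full n) h1 h2
  refine ⟨M * m, Nat.mul_pos hM hm, fun L hL1 hL2 hst => ?_⟩
  obtain ⟨g, hg1, hg2, hg3⟩ := h3 L hL1 hL2 (by
    intro c v hv
    have h4 := hst (C' c) (by
      intro e he
      rw [hC', Matrix.smul_mul, Matrix.mul_smul, hC2 c e he]) v hv
    rw [hC', Matrix.smul_mulVec, hC1, Nat.cast_smul_eq_nsmul, ← mul_smul, mul_comm] at h4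
    exact h4)
  -- the matrices of `g` and of its inverse
  have hmat : ∀ h : (Fin n → ℚ) →+ (Fin n → ℚ), (∀ (c : Module.End A (Fin n → ℚ)) v,
      h (c v) = c (h v)) → ∃ x ∈ E, ∀ v, x *ᵥ v = h v := by
    intro h hh
    let hl : (Fin n → ℚ) →ₗ[ℚ] (Fin n → ℚ) := h.toRatLinearMap
    obtain ⟨x, hx⟩ := T.surjective hl
    have hx' : ∀ v, x *ᵥ v = h v := fun v => LinearMap.congr_fun hx v
    refine ⟨x, double_centralizer_matrix E x fun c hc => ?_, hx'⟩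
    let c' : Module.End A (Fin n → ℚ) :=
      { toFun := fun v => c *ᵥ v
        map_add' := fun v w => mulVec_add c v w
        map_smul' := by
          rintro ⟨_, e, he, rfl⟩ v
          change c *ᵥ (e *ᵥ v) = e *ᵥ (c *ᵥ v)
          rw [mulVec_mulVec, mulVec_mulVec, hc e he] }
    apply T.injective
    rw [map_mul, map_mul]
    refine LinearMap.ext fun v => ?_
    change c *ᵥ (x *ᵥ v) = x *ᵥ (c *ᵥ v)
    rw [hx', hx']
    exact (hh c' v).symm
  obtain ⟨x, hxE, hx⟩ := hmat g.toAddMonoidHom hg1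
  obtain ⟨x', hxE', hx'⟩ := hmat g.symm.toAddMonoidHom (by
    intro c v
    apply g.injective
    change g (g.symm (c v)) = g (c (g.symm v))
    rw [hg1, g.apply_symm_apply, g.apply_symm_apply])
  have hx : ∀ v, x *ᵥ v = g v := hx
  have hx' : ∀ v, x' *ᵥ v = g.symm v := hx'
  have hinj : ∀ a b : Matrix (Fin n) (Fin n) ℚ, (∀ v, a *ᵥ v = b *ᵥ v) → a = b := fun a b h =>
    T.injective (LinearMap.ext h)
  refine ⟨x, hxE, x', hxE', hinj _ _ fun v => ?_, hinj _ _ fun v => ?_, fun w hw => ?_,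
    fun v hv => ?_⟩
  · rw [← mulVec_mulVec, hx, hx', g.apply_symm_apply, one_mulVec]
  · rw [← mulVec_mulVec, hx, hx', g.symm_apply_apply, one_mulVec]
  · rw [hx, mul_smul, ← map_nsmul]
    exact hg2 _ (hm1 w hw)
  · rw [hx] at hv
    obtain ⟨w, hw, h4⟩ := hg3 _ hv
    rw [← map_nsmul] at h4
    rw [mul_comm, mul_smul, g.injective h4]
    exact hm2 w hw

end Pool.Agent.Q55.SF
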