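import Pool.Agent.Q55.SF.Defs

/-! # Modified lattices and the pigeonhole principle -/

set_option autoImplicit false

namespace Pool.Agent.Q55.SF

open Matrix

section emb

variable (n : ℕ) (ℓ : ℕ) [Fact ℓ.Prime]

/-- The inclusion of `ℤ_ℓ ^ n` in `ℚ_ℓ ^ n`. -/
noncomputable def emb : (Fin n → ℤ_[ℓ]) →ₗ[ℤ_[ℓ]] (Fin n → ℚ_[ℓ]) :=
  (Algebra.linearMap ℤ_[ℓ] ℚ_[ℓ]).compLeft (Fin n)

variable {n ℓ}

theorem emb_apply (v : Fin n → ℤ_[ℓ]) (i : Fin n) : emb n ℓ v i = algebraMap ℤ_[ℓ] ℚ_[ℓ] (v i) :=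
  rfl

theorem emb_inj : Function.Injective (emb n ℓ) := fun v w h => by
  funext i
  exact FaithfulSMul.algebraMap_injective ℤ_[ℓ] ℚ_[ℓ] (congrFun h i)

theorem mem_std (v : Fin n → ℚ_[ℓ]) : (∃ w, emb n ℓ w = v) ↔ ∀ i, ‖v i‖ ≤ 1 := by
  constructor
  · rintro ⟨w, rfl⟩ i
    exact (w i).2
  · intro h
    exact ⟨fun i => ⟨v i, h i⟩, rfl⟩

theorem emb_mulVec {m : ℕ} (A : Matrix (Fin m) (Fin n) ℤ_[ℓ]) (v : Fin n → ℤ_[ℓ]) :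
    emb m ℓ (A *ᵥ v) = A.map (algebraMap ℤ_[ℓ] ℚ_[ℓ]) *ᵥ emb n ℓ v := by
  funext i
  rw [emb_apply]
  simp only [Matrix.mulVec, dotProduct, map_sum, map_mul, Matrix.map_apply, emb_apply]

theorem emb_nsmul (k : ℕ) (v : Fin n → ℤ_[ℓ]) :
    emb n ℓ ((ℓ : ℤ_[ℓ]) ^ k • v) = (ℓ : ℚ_[ℓ]) ^ k • emb n ℓ v := by
  funext i
  rw [emb_apply]
  simp only [Pi.smul_apply, smul_eq_mul, map_mul, map_pow, map_natCast, emb_apply]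

theorem p_ne : (ℓ : ℚ_[ℓ]) ≠ 0 := Nat.cast_ne_zero.mpr (Fact.out : ℓ.Prime).ne_zero

theorem p_ne' : (ℓ : ℤ_[ℓ]) ≠ 0 := Nat.cast_ne_zero.mpr (Fact.out : ℓ.Prime).ne_zero

/-- every element of `ℚ_ℓ ^ n` becomes integral -/
theorem exists_pow_emb (v : Fin n → ℚ_[ℓ]) : ∃ k : ℕ, ∃ w, emb n ℓ w = (ℓ : ℚ_[ℓ]) ^ k • v := by
  classical
  have h : ∀ x : ℚ_[ℓ], ∃ k : ℕ, ‖(ℓ : ℚ_[ℓ]) ^ k * x‖ ≤ 1 := by
    intro x
    have hp : (1 : ℝ) < ℓ := by exact_mod_cast (Fact.out : ℓ.Prime).one_lt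
    obtain ⟨k, hk⟩ := pow_unbounded_of_one_lt ‖x‖ hp
    refine ⟨k, ?_⟩
    rw [norm_mul, norm_pow, Padic.norm_p, inv_pow, inv_mul_le_iff₀ (by positivity), mul_one]
    exact hk.le
  choose k hk using fun i => h (v i)
  refine ⟨Finset.univ.sup k, ?_⟩
  apply (mem_std _).mpr
  intro i
  have hle : k i ≤ Finset.univ.sup k := Finset.le_sup (Finset.mem_univ i)
  obtain ⟨t, ht⟩ := Nat.exists_eq_add_of_le hle
  rw [Pi.smul_apply, smul_eq_mul, ht, pow_add, mul_right_comm, norm_mul]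
  have h1 : ‖(ℓ : ℚ_[ℓ]) ^ t‖ ≤ 1 := by
    rw [norm_pow]
    exact pow_le_one₀ (norm_nonneg _) (by
      rw [Padic.norm_p]
      exact inv_le_one_of_one_le₀ (by exact_mod_cast (Fact.out : ℓ.Prime).one_lt.le))
  calc ‖(ℓ : ℚ_[ℓ]) ^ k i * v i‖ * ‖(ℓ : ℚ_[ℓ]) ^ t‖ ≤ 1 * 1 :=
        mul_le_mul (hk i) h1 (norm_nonneg _) zero_le_one
    _ = 1 := one_mul 1

/-- closedness of submodules -/
theorem mem_of_all {M : Type} [AddCommGroup M] [Module ℤ_[ℓ] M] [Module.Finite ℤ_[ℓ] M]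
    (N : Submodule ℤ_[ℓ] M) (x : M) (h : ∀ k : ℕ, ∃ y ∈ N, ∃ z : M, x = y + (ℓ : ℤ_[ℓ]) ^ k • z) :
    x ∈ N := by
  have hI : (Ideal.span {(ℓ : ℤ_[ℓ])}) ≠ ⊤ := by
    intro h1
    rw [Ideal.span_singleton_eq_top] at h1
    exact PadicInt.p_nonunit h1
  have h2 := Ideal.iInf_pow_smul_eq_bot_of_isLocalRing (M := M ⧸ N) (Ideal.span {(ℓ : ℤ_[ℓ])}) hI
  have h3 : N.mkQ x ∈ (⨅ i : ℕ, Ideal.span {(ℓ : ℤ_[ℓ])} ^ i • ⊤ : Submodule ℤ_[ℓ] (M ⧸ N)) := by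
    rw [Submodule.mem_iInf]
    intro k
    obtain ⟨y, hy, z, rfl⟩ := h k
    rw [map_add, map_smul]
    have : N.mkQ y = 0 := by
      rw [Submodule.mkQ_apply, Submodule.Quotient.mk_eq_zero]; exact hy
    rw [this, zero_add, Ideal.span_singleton_pow]
    exact Submodule.smul_mem_smul (Ideal.mem_span_singleton_self _) trivial
  rw [h2, Submodule.mem_bot, Submodule.mkQ_apply, Submodule.Quotient.mk_eq_zero] at h3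
  exact h3

end emb

/-- The family with component `R` at `ℓ₀` and everything elsewhere. -/
noncomputable def single {n : ℕ} (ℓ₀ : ℕ) [Fact ℓ₀.Prime] (R : Submodule ℤ_[ℓ₀] (Fin n → ℤ_[ℓ₀]))
    (ℓ : ℕ) [Fact ℓ.Prime] : Submodule ℤ_[ℓ] (Fin n → ℚ_[ℓ]) :=
  if h : ℓ = ℓ₀ then by subst h; exact R.map (emb n ℓ) else LinearMap.range (emb n ℓ)

theorem single_self {n : ℕ} (ℓ₀ : ℕ) [Fact ℓ₀.Prime] (R : Submodule ℤ_[ℓ₀] (Fin n → ℤ_[ℓ₀])) :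
    single ℓ₀ R ℓ₀ = R.map (emb n ℓ₀) := by
  unfold single
  rw [dif_pos rfl]

theorem single_ne {n : ℕ} (ℓ₀ : ℕ) [Fact ℓ₀.Prime] (R : Submodule ℤ_[ℓ₀] (Fin n → ℤ_[ℓ₀]))
    (ℓ : ℕ) [Fact ℓ.Prime] (h : ℓ ≠ ℓ₀) : single ℓ₀ R ℓ = LinearMap.range (emb n ℓ) := by
  unfold single
  rw [dif_neg h]

variable {G : Type} [Group G] (D : Motives G)

theorem act_emb (X : D.Obj) (ℓ : ℕ) [Fact ℓ.Prime] (g : G) (v : Fin (D.rank X) → ℤ_[ℓ]) :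
    D.act X ℓ g *ᵥ emb _ ℓ v =
      emb _ ℓ ((D.rho X ℓ g : Matrix (Fin (D.rank X)) (Fin (D.rank X)) ℤ_[ℓ]) *ᵥ v) :=
  (emb_mulVec _ _).symm

theorem isLattice_single (X : D.Obj) (ℓ₀ : ℕ) [Fact ℓ₀.Prime]
    (R : Submodule ℤ_[ℓ₀] (Fin (D.rank X) → ℤ_[ℓ₀]))
    (hR : ∃ k : ℕ, ∀ v, (ℓ₀ : ℤ_[ℓ₀]) ^ k • v ∈ R)
    (hs : ∀ (g : G), ∀ v ∈ R,
      (D.rho X ℓ₀ g : Matrix (Fin (D.rank X)) (Fin (D.rank X)) ℤ_[ℓ₀]) *ᵥ v ∈ R) :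
    D.IsLattice X (fun ℓ _ => single ℓ₀ R ℓ) where
  fg ℓ _ := by
    by_cases h : ℓ = ℓ₀
    · subst h
      rw [single_self]
      exact (IsNoetherian.noetherian R).map _
    · rw [single_ne ℓ₀ R ℓ h]
      rw [LinearMap.range_eq_map]
      exact (IsNoetherian.noetherian (⊤ : Submodule ℤ_[ℓ] _)).map _
  span ℓ _ v := by
    obtain ⟨k, w, hw⟩ := exists_pow_emb v
    by_cases h : ℓ = ℓ₀
    · subst h
      obtain ⟨j, hj⟩ := hR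
      refine ⟨j + k, ?_⟩
      rw [single_self, pow_add, mul_smul, ← hw]
      exact ⟨_, hj w, emb_nsmul j w⟩
    · refine ⟨k, ?_⟩
      rw [single_ne ℓ₀ R ℓ h]
      exact ⟨w, hw⟩
  stable ℓ _ g v hv := by
    by_cases h : ℓ = ℓ₀
    · subst h
      rw [single_self] at hv ⊢
      obtain ⟨w, hw, rfl⟩ := hv
      exact ⟨_, hs g w hw, (act_emb D X ℓ g w).symm⟩
    · rw [single_ne ℓ₀ R ℓ h] at hv ⊢
      obtain ⟨w, rfl⟩ := hv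
      exact ⟨_, (act_emb D X ℓ g w).symm⟩
  standard := by
    refine ⟨ℓ₀, fun ℓ _ h v => ?_⟩
    rw [single_ne ℓ₀ R ℓ (Nat.ne_of_gt h), LinearMap.mem_range, ← mem_std]

theorem iso_symm {A B : D.ZMotive} (h : D.Iso A B) : D.Iso B A := by
  obtain ⟨f, hf, g, hg, h1, h2, h3⟩ := h
  refine ⟨g, hg, f, hf, h2, h1, fun ℓ _ v => ?_⟩
  rw [h3 ℓ, mulVec_mulVec, ← Matrix.map_mul, h2, Matrix.map_one _ (map_zero _) (map_one _),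
    one_mulVec]

theorem iso_trans {A B C : D.ZMotive} (h : D.Iso A B) (h' : D.Iso B C) : D.Iso A C := by
  obtain ⟨f, hf, g, hg, h1, h2, h3⟩ := h
  obtain ⟨f', hf', g', hg', h1', h2', h3'⟩ := h'
  refine ⟨f' * f, D.mul_mem _ _ _ _ _ hf' hf, g * g', D.mul_mem _ _ _ _ _ hg hg', ?_, ?_,
    fun ℓ _ v => ?_⟩
  · rw [Matrix.mul_assoc, ← Matrix.mul_assoc g', h1', Matrix.one_mul, h1]
  · rw [Matrix.mul_assoc, ← Matrix.mul_assoc f, h2, Matrix.one_mul, h2']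
  · rw [h3 ℓ, h3' ℓ, mulVec_mulVec, ← Matrix.map_mul]

/-- The two lattices of `X` are conjugate under the automorphisms of `X`. -/
def LatIso (X : D.Obj) (L L' : ∀ (ℓ : ℕ) [Fact ℓ.Prime],
    Submodule ℤ_[ℓ] (Fin (D.rank X) → ℚ_[ℓ])) : Prop :=
  ∃ f ∈ D.Hom X X, ∃ g ∈ D.Hom X X, g * f = 1 ∧ f * g = 1 ∧
    ∀ (ℓ : ℕ) [Fact ℓ.Prime] (v : Fin (D.rank X) → ℚ_[ℓ]),
      v ∈ L ℓ ↔ f.map (algebraMap ℚ ℚ_[ℓ]) *ᵥ v ∈ L' ℓ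

theorem pigeon {τ : Type} {P : D.Obj → Prop} {h : D.Obj → τ} (hfin : D.Finiteness P h) (X : D.Obj)
    (hX : P X) {J : Type} [Infinite J]
    (L : J → ∀ (ℓ : ℕ) [Fact ℓ.Prime], Submodule ℤ_[ℓ] (Fin (D.rank X) → ℚ_[ℓ]))
    (hL : ∀ j, D.IsLattice X (L j)) : ∃ m : J, {j | LatIso D X (L m) (L j)}.Infinite := by
  obtain ⟨r, B, hB⟩ := hfin (h X)
  choose i hi using fun j => hB ⟨X, L j, hL j⟩ hX rfl
  obtain ⟨y, hy⟩ := Finite.exists_infinite_fiber i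
  have hy' : (i ⁻¹' {y}).Infinite := Set.infinite_coe_iff.mp hy
  obtain ⟨m, hm⟩ := hy'.nonempty
  refine ⟨m, hy'.mono fun j hj => ?_⟩
  have h1 : i m = y := hm
  have h2 : i j = y := hj
  have h3 := iso_trans D (iso_symm D (hi m)) (by rw [h1, ← h2]; exact hi j)
  exact h3

end Pool.Agent.Q55.SF
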