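import Pool.Agent.Q55.SF.Conv
import Pool.Agent.Q55.SF.Int

/-! # The integral Tate conjecture modulo large primes -/

set_option autoImplicit false

namespace Pool.Agent.Q55.SF

open Matrix

variable {G : Type} [Group G] {D : Motives G}

/-- a rational matrix is `1 / d` times an integral one -/
theorem mem_of_den {n : ℕ} (W : Submodule ℚ (Matrix (Fin n) (Fin n) ℚ))
    (A : Matrix (Fin n) (Fin n) ℚ) (d : ℕ) (hd : 0 < d) (h : (d : ℚ) • A ∈ W) : A ∈ W := by
  have h1 := W.smul_mem ((d : ℚ)⁻¹) h
  rwa [smul_smul, inv_mul_cancel₀ (Nat.cast_ne_zero.mpr hd.ne'), one_smul] at h1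

/-- The integral matrices which commute with the endomorphisms. -/
def intComm (X : D.Obj) : Submodule ℤ (Matrix (Fin (D.rank X)) (Fin (D.rank X)) ℤ) where
  carrier := {c | ∀ e ∈ D.endo X, c.map (algebraMap ℤ ℚ) * e = e * c.map (algebraMap ℤ ℚ)}
  add_mem' {a b} ha hb e he := by
    rw [Matrix.map_add _ (map_add _), Matrix.add_mul, Matrix.mul_add, ha e he, hb e he]
  zero_mem' e _ := by
    rw [Matrix.map_zero _ (map_zero _), Matrix.zero_mul, Matrix.mul_zero]
  smul_mem' r a ha e he := by
    have h : (r • a).map (algebraMap ℤ ℚ) = (r : ℚ) • a.map (algebraMap ℤ ℚ) := by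
      ext i j
      simp only [Matrix.map_apply, Matrix.smul_apply, smul_eq_mul, map_mul, eq_intCast]
    rw [h, Matrix.smul_mul, Matrix.mul_smul, ha e he]

theorem tateMod_of_isOpen (X : D.Obj) (ho : D.IsOpen X) (hE : IsSemisimpleRing (D.endo X)) :
    ∃ N : ℕ, ∀ (ℓ : ℕ) [Fact ℓ.Prime], N < ℓ → D.TateMod X ℓ := by
  classical
  obtain ⟨s, hs⟩ := IsNoetherian.noetherian (intComm X)
  let n := D.rank X
  -- the linear system
  let A : Matrix (s × Fin n × Fin n) (Fin n × Fin n) ℤ :=
    Matrix.of fun r c => (if r.2.1 = c.1 then r.1.1 c.2 r.2.2 else 0) -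
      (if c.2 = r.2.2 then r.1.1 r.2.1 c.1 else 0)
  have hA : ∀ (R : Type) [CommRing R] (x : Fin n × Fin n → R) (c : s) (a b : Fin n),
      (A.map (algebraMap ℤ R) *ᵥ x) (c, a, b) =
        ((Matrix.of fun i j => x (i, j)) * c.1.map (algebraMap ℤ R) -
          c.1.map (algebraMap ℤ R) * (Matrix.of fun i j => x (i, j))) a b := by
    intro R _ x c a b
    simp only [A, Matrix.mulVec, dotProduct, Matrix.map_apply, Matrix.of_apply, map_sub,
      Fintype.sum_prod_type, sub_mul, Finset.sum_sub_distrib, Matrix.sub_apply, Matrix.mul_apply]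
    congr 1
    · rw [Finset.sum_eq_single a]
      · simp only [if_true]
        exact Finset.sum_congr rfl fun j _ => mul_comm _ _
      · intro i _ hi
        apply Finset.sum_eq_zero
        intro j _
        rw [if_neg (Ne.symm hi), map_zero, zero_mul]
      · intro h; exact absurd (Finset.mem_univ a) h
    · refine Finset.sum_congr rfl fun i _ => ?_
      rw [Finset.sum_eq_single b]
      · rw [if_pos rfl]
      · intro j _ hj
        rw [if_neg hj, map_zero, zero_mul]
      · intro h; exact absurd (Finset.mem_univ b) h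
  obtain ⟨N, hN⟩ := ho.2
  obtain ⟨N', hN'⟩ := lift_kernel A
  refine ⟨max N N', fun ℓ _ hℓ α hα => ?_⟩
  have hop := hN ℓ (lt_of_le_of_lt (le_max_left _ _) hℓ)
  -- `α` commutes with the reductions
  have h1 : ∀ w ∈ D.galoisAlgebra X ℓ, α * w.map PadicInt.toZMod = w.map PadicInt.toZMod * α := by
    intro w hw
    unfold Motives.galoisAlgebra at hw
    induction hw using Submodule.span_induction with
    | mem x hx =>
      obtain ⟨g, rfl⟩ := hx
      exact hα g
    | zero => rw [Matrix.map_zero _ (map_zero _), Matrix.mul_zero, Matrix.zero_mul]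
    | add x y _ _ hx hy =>
      rw [Matrix.map_add _ (map_add _), Matrix.mul_add, Matrix.add_mul, hx, hy]
    | smul r x _ hx =>
      have e : (r • x).map PadicInt.toZMod = PadicInt.toZMod r • x.map PadicInt.toZMod := by
        ext i j
        simp only [Matrix.map_apply, Matrix.smul_apply, smul_eq_mul, map_mul]
      rw [e, Matrix.smul_mul, Matrix.mul_smul, hx]
  have h2 : ∀ c ∈ intComm X, α * c.map (algebraMap ℤ (ZMod ℓ)) =
      c.map (algebraMap ℤ (ZMod ℓ)) * α := by
    intro c hc
    rw [← map_toZMod_int]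
    apply h1
    rw [hop]
    intro f hf
    have h3 := hc f hf
    have e : (c.map (algebraMap ℤ ℤ_[ℓ])).map (algebraMap ℤ_[ℓ] ℚ_[ℓ]) =
        (c.map (algebraMap ℤ ℚ)).map (algebraMap ℚ ℚ_[ℓ]) := by
      ext i j
      simp only [Matrix.map_apply, eq_intCast, map_intCast]
    rw [e, ← Matrix.map_mul, ← Matrix.map_mul, h3]
  obtain ⟨y, hy, hyα⟩ := hN' ℓ (lt_of_le_of_lt (le_max_right _ _) hℓ) (fun q => α q.1 q.2) (by
    funext r
    obtain ⟨c, a, b⟩ := r
    rw [hA]
    have e : (Matrix.of fun i j => α i j) = α := rfl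
    rw [Pi.zero_apply]
    change (α * c.1.map (algebraMap ℤ (ZMod ℓ)) - c.1.map (algebraMap ℤ (ZMod ℓ)) * α) a b = 0
    rw [h2 c.1 (hs ▸ Submodule.subset_span c.2), sub_self, Matrix.zero_apply])
  let f : Matrix (Fin (D.rank X)) (Fin (D.rank X)) ℤ := Matrix.of fun i j => y (i, j)
  have h3 : ∀ c ∈ intComm X, f * c = c * f := by
    intro c hc
    rw [← hs] at hc
    induction hc using Submodule.span_induction with
    | mem x hx =>
      ext a b
      have h4 := congrFun hy ((⟨x, hx⟩ : s), a, b)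
      have h5 := hA ℤ y ⟨x, hx⟩ a b
      have e1 : A.map (algebraMap ℤ ℤ) = A := by ext i j; simp
      have e2 : x.map (algebraMap ℤ ℤ) = x := by ext i j; simp
      rw [e1, h4] at h5
      rw [e2, Matrix.sub_apply, Pi.zero_apply] at h5
      exact (sub_eq_zero.mp h5.symm)
    | zero => rw [Matrix.mul_zero, Matrix.zero_mul]
    | add x y _ _ hx hy => rw [Matrix.mul_add, Matrix.add_mul, hx, hy]
    | smul r x _ hx => rw [Matrix.smul_mul, Matrix.mul_smul, hx]
  refine ⟨f, ?_, ?_⟩
  · apply double_centralizer_matrix (D.endo X)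
    intro c hc
    obtain ⟨d, hd, c', hc'⟩ := exists_den c
    have h6 : c' ∈ intComm X := by
      intro e he
      rw [hc', Matrix.smul_mul, Matrix.mul_smul, hc e he]
    have h7 := congrArg (fun M : Matrix (Fin (D.rank X)) (Fin (D.rank X)) ℤ =>
      M.map (algebraMap ℤ ℚ)) (h3 c' h6)
    beta_reduce at h7
    rw [Matrix.map_mul, Matrix.map_mul, hc', Matrix.mul_smul, Matrix.smul_mul] at h7
    exact (smul_right_injective _ (Nat.cast_ne_zero.mpr hd.ne') h7).symm
  · ext i j
    rw [Matrix.map_apply]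
    exact (hyα (i, j)).symm

end Pool.Agent.Q55.SF
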