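import Pool.Agent.Q55.SF.Ad

/-! # Transport of lattices -/

set_option autoImplicit false

namespace Pool.Agent.Q55.SF

open Matrix

variable {G : Type} [Group G] {D : Motives G}

/-- the transport of a lattice by a matrix -/
noncomputable def push {m n : ℕ} (g : Matrix (Fin m) (Fin n) ℚ)
    (L : ∀ (ℓ : ℕ) [Fact ℓ.Prime], Submodule ℤ_[ℓ] (Fin n → ℚ_[ℓ])) (ℓ : ℕ) [Fact ℓ.Prime] :
    Submodule ℤ_[ℓ] (Fin m → ℚ_[ℓ]) :=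
  (L ℓ).map ((g.map (algebraMap ℚ ℚ_[ℓ])).mulVecLin.restrictScalars ℤ_[ℓ])

theorem mem_push {m n : ℕ} {f : Matrix (Fin n) (Fin m) ℚ} {g : Matrix (Fin m) (Fin n) ℚ}
    (h1 : g * f = 1) (h2 : f * g = 1)
    (L : ∀ (ℓ : ℕ) [Fact ℓ.Prime], Submodule ℤ_[ℓ] (Fin n → ℚ_[ℓ])) (ℓ : ℕ) [Fact ℓ.Prime]
    (v : Fin m → ℚ_[ℓ]) : v ∈ push g L ℓ ↔ f.map (algebraMap ℚ ℚ_[ℓ]) *ᵥ v ∈ L ℓ := by
  constructor
  · rintro ⟨w, hw, rfl⟩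
    change f.map (algebraMap ℚ ℚ_[ℓ]) *ᵥ (g.map (algebraMap ℚ ℚ_[ℓ]) *ᵥ w) ∈ L ℓ
    rw [mulVec_mulVec, ← Matrix.map_mul, h2, Matrix.map_one _ (map_zero _) (map_one _),
      one_mulVec]
    exact hw
  · intro h
    refine ⟨_, h, ?_⟩
    change g.map (algebraMap ℚ ℚ_[ℓ]) *ᵥ (f.map (algebraMap ℚ ℚ_[ℓ]) *ᵥ v) = v
    rw [mulVec_mulVec, ← Matrix.map_mul, h1, Matrix.map_one _ (map_zero _) (map_one _),
      one_mulVec]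

theorem norm_mulVec {m n : ℕ} {ℓ : ℕ} [Fact ℓ.Prime] (A : Matrix (Fin m) (Fin n) ℚ_[ℓ])
    (hA : ∀ i j, ‖A i j‖ ≤ 1) (v : Fin n → ℚ_[ℓ]) (hv : ∀ i, ‖v i‖ ≤ 1) (i : Fin m) :
    ‖(A *ᵥ v) i‖ ≤ 1 := by
  obtain ⟨B, rfl⟩ := exists_lift A hA
  obtain ⟨w, rfl⟩ := (mem_std v).mpr hv
  exact (mem_std _).mp ⟨B *ᵥ w, emb_mulVec B w⟩ i

theorem isLattice_push {B Y : D.Obj} {f : Matrix (Fin (D.rank Y)) (Fin (D.rank B)) ℚ}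
    {g : Matrix (Fin (D.rank B)) (Fin (D.rank Y)) ℚ} (hf : f ∈ D.Hom B Y)
    (h1 : g * f = 1) (h2 : f * g = 1)
    {L : ∀ (ℓ : ℕ) [Fact ℓ.Prime], Submodule ℤ_[ℓ] (Fin (D.rank Y) → ℚ_[ℓ])}
    (hL : D.IsLattice Y L) : D.IsLattice B (fun ℓ _ => push g L ℓ) where
  fg ℓ _ := (hL.fg ℓ).map _
  span ℓ _ v := by
    obtain ⟨k, hk⟩ := hL.span ℓ (f.map (algebraMap ℚ ℚ_[ℓ]) *ᵥ v)
    refine ⟨k, (mem_push h1 h2 L ℓ _).mpr ?_⟩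
    rw [mulVec_smul]
    exact hk
  stable ℓ _ s v hv := by
    have h3 := hL.stable ℓ s _ ((mem_push h1 h2 L ℓ v).mp hv)
    refine (mem_push h1 h2 L ℓ _).mpr ?_
    rw [mulVec_mulVec] at h3 ⊢
    have h4 := D.comm B Y f hf ℓ s
    change f.map (algebraMap ℚ ℚ_[ℓ]) * D.act B ℓ s = D.act Y ℓ s * f.map (algebraMap ℚ ℚ_[ℓ]) at h4
    rw [h4]
    exact h3
  standard := by
    obtain ⟨N, hN⟩ := hL.standard
    obtain ⟨N1, hN1⟩ := exists_bound (fun _ : Fin 1 => f)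
    obtain ⟨N2, hN2⟩ := exists_bound (fun _ : Fin 1 => g)
    refine ⟨max N (max N1 N2), fun ℓ _ hℓ v => ?_⟩
    have hf' := hN1 ℓ (lt_of_le_of_lt ((le_max_left _ _).trans (le_max_right _ _)) hℓ) 0
    have hg' := hN2 ℓ (lt_of_le_of_lt ((le_max_right _ _).trans (le_max_right _ _)) hℓ) 0
    rw [mem_push h1 h2 L ℓ v, hN ℓ (lt_of_le_of_lt (le_max_left _ _) hℓ)]
    constructor
    · intro h i
      have h3 := norm_mulVec (g.map (algebraMap ℚ ℚ_[ℓ])) hg' _ h i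
      rwa [mulVec_mulVec, ← Matrix.map_mul, h1, Matrix.map_one _ (map_zero _) (map_one _),
        one_mulVec] at h3
    · intro h
      exact norm_mulVec (f.map (algebraMap ℚ ℚ_[ℓ])) hf' _ h

end Pool.Agent.Q55.SF
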