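import Pool.Agent.Q55.SF.Mod

/-! # The reduction of a semisimple algebra modulo large primes is semisimple -/

set_option autoImplicit false

namespace Pool.Agent.Q55.SF

open Matrix

theorem eq_zero_of_trace {n : ℕ} (e : Matrix (Fin n) (Fin n) ℚ) (he : e * e = e)
    (ht : e.trace = 0) : e = 0 := by
  have h1 : IsIdempotentElem (Matrix.toLin' e) := by
    have h0 := Matrix.toLin'_mul e e
    rw [he] at h0
    exact h0.symm
  have h2 := (LinearMap.IsIdempotentElem.trace_eq_zero_iff h1).mp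
    (by rw [Matrix.trace_toLin'_eq, ht])
  exact (Matrix.toLin' (R := ℚ) (m := Fin n) (n := Fin n)).injective (by rw [h2, map_zero])

/-- The trace form of a semisimple algebra of matrices is nondegenerate. -/
theorem trace_nondegenerate {n : ℕ} (E : Subalgebra ℚ (Matrix (Fin n) (Fin n) ℚ))
    [IsSemisimpleRing E] (x : Matrix (Fin n) (Fin n) ℚ) (hx : x ∈ E)
    (h : ∀ y ∈ E, (x * y).trace = 0) : x = 0 := by
  obtain ⟨e, he, hI⟩ := IsSemisimpleRing.ideal_eq_span_idempotent (Ideal.span {(⟨x, hx⟩ : E)})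
  have h1 : e ∈ Ideal.span {(⟨x, hx⟩ : E)} := by rw [hI]; exact Ideal.mem_span_singleton_self e
  have h2 : (⟨x, hx⟩ : E) ∈ Ideal.span {e} := by rw [← hI]; exact Ideal.mem_span_singleton_self _
  obtain ⟨y, hy⟩ := Ideal.mem_span_singleton'.mp h1
  obtain ⟨z, hz⟩ := Ideal.mem_span_singleton'.mp h2
  have h3 : (e : Matrix (Fin n) (Fin n) ℚ) = 0 := by
    apply eq_zero_of_trace
    · have := congrArg Subtype.val he
      exact this
    · rw [← hy]
      change (y.1 * x).trace = 0
      rw [Matrix.trace_mul_comm]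
      exact h y.1 y.2
  have h4 : x = z.1 * (e : Matrix (Fin n) (Fin n) ℚ) := (congrArg Subtype.val hz).symm
  rw [h4, h3, Matrix.mul_zero]

/-- The integral matrices in the algebra. -/
def intPart {n : ℕ} (E : Subalgebra ℚ (Matrix (Fin n) (Fin n) ℚ)) :
    Submodule ℤ (Matrix (Fin n) (Fin n) ℤ) where
  carrier := {c | c.map (algebraMap ℤ ℚ) ∈ E}
  add_mem' {a b} ha hb := by
    rw [Set.mem_ofPred_eq, Matrix.map_add _ (map_add _)]
    exact E.add_mem ha hb
  zero_mem' := by
    rw [Set.mem_ofPred_eq, Matrix.map_zero _ (map_zero _)]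
    exact E.zero_mem
  smul_mem' r a ha := by
    have h : (r • a).map (algebraMap ℤ ℚ) = (r : ℚ) • a.map (algebraMap ℤ ℚ) := by
      ext i j
      simp only [Matrix.map_apply, Matrix.smul_apply, smul_eq_mul, map_mul, eq_intCast]
    rw [Set.mem_ofPred_eq, h]
    exact E.smul_mem ha _

/-- The reductions of the integral matrices in the algebra. -/
def redPart {n : ℕ} (E : Subalgebra ℚ (Matrix (Fin n) (Fin n) ℚ)) (ℓ : ℕ) [Fact ℓ.Prime] :
    Subalgebra (ZMod ℓ) (Matrix (Fin n) (Fin n) (ZMod ℓ)) where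
  carrier := {c | ∃ f ∈ intPart E, c = f.map (algebraMap ℤ (ZMod ℓ))}
  mul_mem' := by
    rintro _ _ ⟨f, hf, rfl⟩ ⟨g, hg, rfl⟩
    refine ⟨f * g, ?_, Matrix.map_mul.symm⟩
    change (f * g).map (algebraMap ℤ ℚ) ∈ E
    rw [Matrix.map_mul]
    exact E.mul_mem hf hg
  one_mem' := ⟨1, by
    change (1 : Matrix (Fin n) (Fin n) ℤ).map (algebraMap ℤ ℚ) ∈ E
    rw [Matrix.map_one _ (map_zero _) (map_one _)]
    exact E.one_mem, by rw [Matrix.map_one _ (map_zero _) (map_one _)]⟩
  add_mem' := by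
    rintro _ _ ⟨f, hf, rfl⟩ ⟨g, hg, rfl⟩
    exact ⟨f + g, (intPart E).add_mem hf hg, (Matrix.map_add _ (map_add _) _ _).symm⟩
  zero_mem' := ⟨0, (intPart E).zero_mem, by rw [Matrix.map_zero _ (map_zero _)]⟩
  algebraMap_mem' r := by
    obtain ⟨z, hz⟩ := ZMod.ringHom_surjective (algebraMap ℤ (ZMod ℓ)) r
    refine ⟨z • 1, (intPart E).smul_mem z (by
      change (1 : Matrix (Fin n) (Fin n) ℤ).map (algebraMap ℤ ℚ) ∈ E
      rw [Matrix.map_one _ (map_zero _) (map_one _)]
      exact E.one_mem), ?_⟩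
    rw [Algebra.algebraMap_eq_smul_one, ← hz]
    ext i j
    simp only [Matrix.map_apply, Matrix.smul_apply, smul_eq_mul, map_mul, Matrix.one_apply]
    split_ifs <;> simp

theorem red_semisimple {n : ℕ} (E : Subalgebra ℚ (Matrix (Fin n) (Fin n) ℚ))
    [IsSemisimpleRing E] : ∃ N : ℕ, ∀ (ℓ : ℕ) [Fact ℓ.Prime], N < ℓ →
      IsSemisimpleRing (redPart E ℓ) := by
  classical
  let b := Module.Free.chooseBasis ℤ (intPart E)
  let I := Module.Free.ChooseBasisIndex ℤ (intPart E)
  let Γ : Matrix I I ℤ := Matrix.of fun i j => ((b i).1 * (b j).1).trace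
  have hΓ : Γ.det ≠ 0 := by
    intro h0
    obtain ⟨v, hv, hv0⟩ := Matrix.exists_vecMul_eq_zero_iff.mpr h0
    have h1 : ∑ i, v i • b i ≠ 0 := by
      intro h
      apply hv
      funext i
      exact Fintype.linearIndependent_iff.mp b.linearIndependent v h i
    set x := ∑ i, v i • b i with hx
    have h2 : ∀ y ∈ intPart E, (x.1 * y).trace = 0 := by
      intro y hy
      have e1 : (⟨y, hy⟩ : intPart E) = ∑ j, (b.repr ⟨y, hy⟩ j) • b j := (b.sum_repr _).symm
      have e2 : y = ∑ j, (b.repr ⟨y, hy⟩ j) • (b j).1 := by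
        have := congrArg Subtype.val e1
        rw [Submodule.coe_sum] at this
        exact this
      have e3 : x.1 = ∑ i, v i • (b i).1 := by
        rw [hx, Submodule.coe_sum]
        rfl
      have e4 : ∀ j, (x.1 * (b j).1).trace = 0 := by
        intro j
        have h3 := congrFun hv0 j
        rw [e3, Matrix.sum_mul, Matrix.trace_sum]
        rw [Matrix.vecMul, dotProduct, Pi.zero_apply] at h3
        rw [← h3]
        refine Finset.sum_congr rfl fun i _ => ?_
        rw [Matrix.smul_mul, Matrix.trace_smul, smul_eq_mul]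
        rfl
      rw [e2, Matrix.mul_sum, Matrix.trace_sum]
      exact Finset.sum_eq_zero fun j _ => by rw [Matrix.mul_smul, Matrix.trace_smul, e4, smul_zero]
    have h3 : x.1.map (algebraMap ℤ ℚ) = 0 := by
      apply trace_nondegenerate E _ x.2
      intro y hy
      obtain ⟨d, hd, y', hy'⟩ := exists_den y
      have h4 : y' ∈ intPart E := by
        change y'.map (algebraMap ℤ ℚ) ∈ E
        rw [hy']
        exact E.smul_mem hy _
      have h5 := congrArg (algebraMap ℤ ℚ) (h2 y' h4)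
      have h6 : algebraMap ℤ ℚ (x.1 * y').trace =
          (x.1.map (algebraMap ℤ ℚ) * y'.map (algebraMap ℤ ℚ)).trace := by
        rw [← Matrix.map_mul]
        simp only [Matrix.trace, Matrix.diag, map_sum, Matrix.map_apply]
      rw [h6, hy', Matrix.mul_smul, Matrix.trace_smul, map_zero, smul_eq_mul] at h5
      exact (mul_eq_zero.mp h5).resolve_left (Nat.cast_ne_zero.mpr hd.ne')
    apply h1
    apply Subtype.ext
    apply intMap_inj
    rw [h3]
    change (0 : Matrix (Fin n) (Fin n) ℚ) = (0 : Matrix (Fin n) (Fin n) ℤ).map _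
    rw [Matrix.map_zero _ (map_zero _)]
  refine ⟨Γ.det.natAbs, fun ℓ _ hℓ => ?_⟩
  have hdet : (Γ.map (algebraMap ℤ (ZMod ℓ))).det ≠ 0 := by
    have e : (Γ.map (algebraMap ℤ (ZMod ℓ))).det = algebraMap ℤ (ZMod ℓ) Γ.det :=
      (RingHom.map_det (algebraMap ℤ (ZMod ℓ)) Γ).symm
    rw [e, eq_intCast, Ne, ZMod.intCast_zmod_eq_zero_iff_dvd]
    intro h
    have := Nat.le_of_dvd (Int.natAbs_pos.mpr hΓ) (Int.natCast_dvd.mp h)
    omega
  -- the reduced trace form is nondegenerate
  have hnd : ∀ x ∈ redPart E ℓ, (∀ y ∈ redPart E ℓ, (x * y).trace = 0) → x = 0 := by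
    rintro _ ⟨f, hf, rfl⟩ h
    let c : I → ZMod ℓ := fun i => algebraMap ℤ (ZMod ℓ) (b.repr ⟨f, hf⟩ i)
    have e1 : f = ∑ j, (b.repr ⟨f, hf⟩ j) • (b j).1 := by
      have := congrArg Subtype.val (b.sum_repr (⟨f, hf⟩ : intPart E)).symm
      rw [Submodule.coe_sum] at this
      exact this
    have e2 : f.map (algebraMap ℤ (ZMod ℓ)) = ∑ j, c j • (b j).1.map (algebraMap ℤ (ZMod ℓ)) := by
      ext i j
      have h1 := congrFun (congrFun e1 i) j
      rw [Matrix.sum_apply] at h1
      rw [Matrix.map_apply, h1, map_sum, Matrix.sum_apply]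
      refine Finset.sum_congr rfl fun k _ => ?_
      rw [Matrix.smul_apply, Matrix.smul_apply, smul_eq_mul, smul_eq_mul, map_mul, Matrix.map_apply]
    have e3 : c ᵥ* Γ.map (algebraMap ℤ (ZMod ℓ)) = 0 := by
      funext j
      have h1 := h _ ⟨(b j).1, (b j).2, rfl⟩
      rw [e2, Matrix.sum_mul, Matrix.trace_sum] at h1
      rw [Matrix.vecMul, dotProduct, Pi.zero_apply, ← h1]
      refine Finset.sum_congr rfl fun i _ => ?_
      rw [Matrix.smul_mul, Matrix.trace_smul, smul_eq_mul, ← Matrix.map_mul]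
      congr 1
      simp only [Γ, Matrix.map_apply, Matrix.of_apply, Matrix.trace, Matrix.diag, map_sum]
    have e4 : c = 0 := by
      by_contra hc
      exact hdet (Matrix.exists_vecMul_eq_zero_iff.mp ⟨c, hc, e3⟩)
    rw [e2, e4]
    exact Finset.sum_eq_zero fun j _ => by rw [Pi.zero_apply, zero_smul]
  have hart : IsArtinianRing (redPart E ℓ) := IsArtinianRing.of_finite (ZMod ℓ) _
  rw [IsArtinianRing.isSemisimpleRing_iff_jacobson, eq_bot_iff]
  intro x hx
  rw [Submodule.mem_bot]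
  apply Subtype.ext
  apply hnd x.1 x.2
  intro y hy
  obtain ⟨k, hk⟩ := (inferInstance : IsSemiprimaryRing (redPart E ℓ)).isNilpotent
  have h1 : (⟨y, hy⟩ : redPart E ℓ) * x ∈ Ring.jacobson (redPart E ℓ) := Ideal.mul_mem_left _ _ hx
  have h2 : ((⟨y, hy⟩ : redPart E ℓ) * x) ^ k = 0 := by
    have := Ideal.pow_mem_pow h1 k
    rw [hk] at this
    exact this
  have h3 : IsNilpotent (y * x.1) := ⟨k, congrArg Subtype.val h2⟩
  have h4 := (Matrix.isNilpotent_trace_of_isNilpotent h3).eq_zero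
  rw [Matrix.trace_mul_comm]
  exact h4

end Pool.Agent.Q55.SF
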