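import Pool.Agent.Q55.SF.Red

/-! # Semisimplicity modulo large primes -/

set_option autoImplicit false

namespace Pool.Agent.Q55.SF

open Matrix

/-- common denominator prime to `ℓ` -/
theorem exists_den_prime {p q : Type} [Fintype p] [Fintype q] (A : Matrix p q ℚ) (ℓ : ℕ)
    (hℓ : ℓ.Prime) (h : ∀ i j, ¬ ℓ ∣ (A i j).den) : ∃ d : ℕ, ¬ ℓ ∣ d ∧ ∃ A' : Matrix p q ℤ,
    A'.map (algebraMap ℤ ℚ) = (d : ℚ) • A := by
  classical
  have h1 : ∀ i j, ∃ t : ℕ, (∏ x : p × q, (A x.1 x.2).den) = (A i j).den * t := fun i j =>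
    Finset.dvd_prod_of_mem (fun x : p × q => (A x.1 x.2).den) (Finset.mem_univ (i, j))
  choose t ht using h1
  refine ⟨∏ x : p × q, (A x.1 x.2).den, ?_,
    Matrix.of fun i j => (A i j).num * t i j, ?_⟩
  · intro hd
    obtain ⟨x, -, hx⟩ := (hℓ.prime.dvd_finsetProd_iff _).mp hd
    exact h x.1 x.2 hx
  · ext i j
    rw [Matrix.map_apply, Matrix.smul_apply, smul_eq_mul, Matrix.of_apply, ht i j]
    push_cast
    rw [mul_right_comm, Rat.den_mul_eq_num]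
    rfl

variable {G : Type} [Group G] {D : Motives G}

theorem red_comm (X : D.Obj) (ℓ : ℕ) [Fact ℓ.Prime]
    (f : Matrix (Fin (D.rank X)) (Fin (D.rank X)) ℤ) (hf : f ∈ intPart (D.endo X)) (g : G) :
    f.map (algebraMap ℤ (ZMod ℓ)) * D.res X ℓ g = D.res X ℓ g * f.map (algebraMap ℤ (ZMod ℓ)) := by
  have h := commute_int X ℓ (galoisAlgebra_le X ℓ (Submodule.subset_span ⟨g, rfl⟩)) (f := f) hf
  have h1 := congrArg (fun M : Matrix (Fin (D.rank X)) (Fin (D.rank X)) ℤ_[ℓ] =>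
    M.map (PadicInt.toZMod (p := ℓ))) h
  beta_reduce at h1
  rw [Matrix.map_mul, Matrix.map_mul, map_toZMod_int] at h1
  exact h1.symm

theorem red_mulVec {n : ℕ} (ℓ : ℕ) [Fact ℓ.Prime] (A : Matrix (Fin n) (Fin n) ℤ_[ℓ])
    (v : Fin n → ℤ_[ℓ]) : (fun i => PadicInt.toZMod ((A *ᵥ v) i)) =
      A.map PadicInt.toZMod *ᵥ (fun i => PadicInt.toZMod (v i)) := by
  funext i
  simp only [Matrix.mulVec, dotProduct, map_sum, map_mul, Matrix.map_apply]

theorem semisimpleMod {τ : Type} {P : D.Obj → Prop} {h : D.Obj → τ} (hfin : D.Finiteness P h)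
    (X : D.Obj) (hX : P X) (hE : IsSemisimpleRing (D.endo X)) :
    ∃ N : ℕ, ∀ (ℓ : ℕ) [Fact ℓ.Prime], N < ℓ → D.IsSemisimpleMod X ℓ := by
  classical
  obtain ⟨N, hN⟩ := claimB hfin X hX
  obtain ⟨N', hN'⟩ := red_semisimple (D.endo X)
  refine ⟨max N N', fun ℓ _ hℓ W hW => ?_⟩
  have hss := hN' ℓ (lt_of_le_of_lt (le_max_right _ _) hℓ)
  have hp0 : PadicInt.toZMod (p := ℓ) (ℓ : ℤ_[ℓ]) = 0 := by
    rw [map_natCast, ZMod.natCast_self]
  let R : Submodule ℤ_[ℓ] (Fin (D.rank X) → ℤ_[ℓ]) :=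
    { carrier := {v | (fun i => PadicInt.toZMod (v i)) ∈ W}
      add_mem' := by
        intro a b ha hb
        have e : (fun i => PadicInt.toZMod ((a + b) i)) =
            (fun i => PadicInt.toZMod (a i)) + fun i => PadicInt.toZMod (b i) := by
          funext i; simp
        rw [Set.mem_ofPred_eq, e]
        exact W.add_mem ha hb
      zero_mem' := by
        have e : (fun i => PadicInt.toZMod ((0 : Fin (D.rank X) → ℤ_[ℓ]) i)) = 0 := by
          funext i; simp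
        rw [Set.mem_ofPred_eq, e]
        exact W.zero_mem
      smul_mem' := by
        intro r a ha
        have e : (fun i => PadicInt.toZMod ((r • a) i)) =
            PadicInt.toZMod r • fun i => PadicInt.toZMod (a i) := by
          funext i; simp
        rw [Set.mem_ofPred_eq, e]
        exact W.smul_mem _ ha }
  have hRmem : ∀ v, v ∈ R ↔ (fun i => PadicInt.toZMod (v i)) ∈ W := fun v => Iff.rfl
  obtain ⟨f, hf, g, hg, h1, h2, h3⟩ := hN ℓ (lt_of_le_of_lt (le_max_left _ _) hℓ) R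
    (by
      intro v
      rw [hRmem]
      have e : (fun i => PadicInt.toZMod (((ℓ : ℤ_[ℓ]) • v) i)) = 0 := by
        funext i
        rw [Pi.smul_apply, smul_eq_mul, map_mul, hp0, zero_mul]
        rfl
      rw [e]
      exact W.zero_mem)
    (by
      intro s v hv
      rw [hRmem] at hv ⊢
      rw [red_mulVec]
      exact hW s _ hv)
  -- `g` maps `R` onto `T`
  have h4 : ∀ v : Fin (D.rank X) → ℚ_[ℓ], v ∈ R.map (emb _ ℓ) ↔
      g.map (algebraMap ℚ ℚ_[ℓ]) *ᵥ v ∈ LinearMap.range (emb (D.rank X) ℓ) := by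
    intro v
    rw [h3, mulVec_mulVec, ← Matrix.map_mul, h2, Matrix.map_one _ (map_zero _) (map_one _),
      one_mulVec]
  -- `ℓ g` is integral at `ℓ`
  have h5 : ∀ i j, ¬ ℓ ∣ (((ℓ : ℚ) • g) i j).den := by
    intro i j hdvd
    have h6 : emb _ ℓ ((ℓ : ℤ_[ℓ]) ^ 1 • Pi.single j 1) ∈ R.map (emb _ ℓ) := by
      refine ⟨_, ?_, rfl⟩
      rw [SetLike.mem_coe, hRmem]
      have e : (fun i => PadicInt.toZMod (((ℓ : ℤ_[ℓ]) ^ 1 •
          (Pi.single j 1 : Fin (D.rank X) → ℤ_[ℓ])) i)) = 0 := by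
        funext i
        rw [Pi.smul_apply, smul_eq_mul, map_mul, pow_one, hp0, zero_mul]
        rfl
      rw [e]
      exact W.zero_mem
    rw [h4, LinearMap.mem_range, mem_std] at h6
    have h7 := h6 i
    rw [emb_nsmul, mulVec_smul, pow_one, Pi.smul_apply, smul_eq_mul] at h7
    have e1 : emb (D.rank X) ℓ (Pi.single j 1) = Pi.single j 1 := by
      funext k
      rw [emb_apply]
      by_cases hk : k = j
      · subst hk; rw [Pi.single_eq_same, Pi.single_eq_same, map_one]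
      · rw [Pi.single_eq_of_ne hk, Pi.single_eq_of_ne hk, map_zero]
    rw [e1, mulVec_single_one, Matrix.col_apply, Matrix.map_apply] at h7
    have e2 : (ℓ : ℚ_[ℓ]) * algebraMap ℚ ℚ_[ℓ] (g i j) = ((((ℓ : ℚ) • g) i j : ℚ) : ℚ_[ℓ]) := by
      rw [Matrix.smul_apply, smul_eq_mul, Rat.cast_mul, Rat.cast_natCast, eq_ratCast]
    rw [e2] at h7
    have h8 := PadicInt.isUnit_den _ h7
    obtain ⟨t, ht⟩ := hdvd
    rw [ht, Nat.cast_mul] at h8
    exact PadicInt.p_nonunit (isUnit_of_mul_isUnit_left h8)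
  obtain ⟨d, hd, k, hk⟩ := exists_den_prime ((ℓ : ℚ) • g) ℓ (Fact.out : ℓ.Prime) h5
  have hkE : k ∈ intPart (D.endo X) := by
    change k.map (algebraMap ℤ ℚ) ∈ D.endo X
    rw [hk]
    exact (D.endo X).smul_mem ((D.endo X).smul_mem hg _) _
  have hdu : IsUnit (d : ℤ_[ℓ]) := by
    rw [PadicInt.isUnit_iff]
    have h6 : ‖((d : ℕ) : ℤ_[ℓ])‖ = 1 := by
      have h7 := PadicInt.norm_le_one (d : ℤ_[ℓ])
      rcases lt_or_eq_of_le h7 with h8 | h8
      · exfalso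
        have h9 : (ℓ : ℤ_[ℓ]) ∣ (d : ℤ_[ℓ]) := by
          have := PadicInt.norm_lt_one_iff_dvd (d : ℤ_[ℓ])
          exact this.mp h8
        have h10 : PadicInt.toZMod (p := ℓ) (d : ℤ_[ℓ]) = 0 := by
          obtain ⟨t, ht⟩ := h9
          rw [ht, map_mul, hp0, zero_mul]
        rw [map_natCast, ZMod.natCast_eq_zero_iff] at h10
        exact hd h10
      · exact h8
    exact h6
  -- the integral matrix `k` on `T`
  have h6 : ∀ v : Fin (D.rank X) → ℤ_[ℓ], emb _ ℓ (k.map (algebraMap ℤ ℤ_[ℓ]) *ᵥ v) =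
      ((d : ℚ_[ℓ]) * ℓ) • (g.map (algebraMap ℚ ℚ_[ℓ]) *ᵥ emb _ ℓ v) := by
    intro v
    rw [emb_mulVec]
    have e1 : (k.map (algebraMap ℤ ℤ_[ℓ])).map (algebraMap ℤ_[ℓ] ℚ_[ℓ]) =
        (k.map (algebraMap ℤ ℚ)).map (algebraMap ℚ ℚ_[ℓ]) := by
      ext i j
      simp only [Matrix.map_apply, eq_intCast, map_intCast]
    have e2 : ((d : ℚ) • (ℓ : ℚ) • g).map (algebraMap ℚ ℚ_[ℓ]) =
        ((d : ℚ_[ℓ]) * ℓ) • g.map (algebraMap ℚ ℚ_[ℓ]) := by
      ext i j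
      simp only [Matrix.map_apply, Matrix.smul_apply, smul_eq_mul, map_mul, map_natCast, mul_assoc]
    rw [e1, hk, e2, smul_mulVec]
  -- `W` is the kernel of `k` modulo `ℓ`
  have h7 : ∀ v : Fin (D.rank X) → ZMod ℓ, v ∈ W ↔ k.map (algebraMap ℤ (ZMod ℓ)) *ᵥ v = 0 := by
    intro v
    choose u hu using fun i => ZMod.ringHom_surjective (PadicInt.toZMod (p := ℓ)) (v i)
    have hv : v = fun i => PadicInt.toZMod (u i) := funext fun i => (hu i).symm
    have h8 : v ∈ W ↔ emb _ ℓ u ∈ R.map (emb _ ℓ) := by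
      rw [hv, ← hRmem]
      constructor
      · intro h; exact ⟨u, h, rfl⟩
      · rintro ⟨w, hw, e⟩
        rw [← emb_inj e]
        exact hw
    have h9 : k.map (algebraMap ℤ (ZMod ℓ)) *ᵥ v =
        fun i => PadicInt.toZMod ((k.map (algebraMap ℤ ℤ_[ℓ]) *ᵥ u) i) := by
      rw [red_mulVec, map_toZMod_int, hv]
    rw [h8, h4, h9]
    constructor
    · rintro ⟨w, hw⟩
      have e : k.map (algebraMap ℤ ℤ_[ℓ]) *ᵥ u = ((d : ℤ_[ℓ]) * ℓ) • w := by
        apply emb_inj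
        rw [h6, ← hw]
        funext i
        simp only [Pi.smul_apply, smul_eq_mul, emb_apply, map_mul, map_natCast]
      rw [e]
      funext i
      rw [Pi.smul_apply, smul_eq_mul, map_mul, map_mul, hp0, mul_zero, zero_mul]
      rfl
    · intro h0
      have h10 : ∀ i, ∃ z : ℤ_[ℓ], (k.map (algebraMap ℤ ℤ_[ℓ]) *ᵥ u) i = (ℓ : ℤ_[ℓ]) * z := by
        intro i
        have h11 : (k.map (algebraMap ℤ ℤ_[ℓ]) *ᵥ u) i ∈ RingHom.ker (PadicInt.toZMod (p := ℓ)) :=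
          congrFun h0 i
        rw [PadicInt.ker_toZMod, PadicInt.maximalIdeal_eq_span_p, Ideal.mem_span_singleton] at h11
        exact h11
      choose z hz using h10
      obtain ⟨du, hdu'⟩ := hdu
      refine ⟨((du⁻¹ : ℤ_[ℓ]ˣ) : ℤ_[ℓ]) • z, ?_⟩
      have e3 : (d : ℚ_[ℓ]) * algebraMap ℤ_[ℓ] ℚ_[ℓ] ((du⁻¹ : ℤ_[ℓ]ˣ) : ℤ_[ℓ]) = 1 := by
        have e4 : (d : ℤ_[ℓ]) * ((du⁻¹ : ℤ_[ℓ]ˣ) : ℤ_[ℓ]) = 1 := by rw [← hdu', Units.mul_inv]
        have := congrArg (algebraMap ℤ_[ℓ] ℚ_[ℓ]) e4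
        rwa [map_mul, map_natCast, map_one] at this
      have hd0 : ((d : ℚ_[ℓ]) * ℓ) ≠ 0 :=
        mul_ne_zero (left_ne_zero_of_mul (by rw [e3]; exact one_ne_zero)) p_ne
      apply smul_right_injective _ hd0
      beta_reduce
      rw [← h6]
      funext i
      rw [Pi.smul_apply, emb_apply, emb_apply, hz i, Pi.smul_apply, smul_eq_mul, smul_eq_mul,
        map_mul, map_mul, map_natCast]
      calc (d : ℚ_[ℓ]) * ℓ * (algebraMap ℤ_[ℓ] ℚ_[ℓ] ((du⁻¹ : ℤ_[ℓ]ˣ) : ℤ_[ℓ]) *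
            algebraMap ℤ_[ℓ] ℚ_[ℓ] (z i)) =
          ((d : ℚ_[ℓ]) * algebraMap ℤ_[ℓ] ℚ_[ℓ] ((du⁻¹ : ℤ_[ℓ]ˣ) : ℤ_[ℓ])) *
            ((ℓ : ℚ_[ℓ]) * algebraMap ℤ_[ℓ] ℚ_[ℓ] (z i)) := by ring
        _ = _ := by rw [e3, one_mul]
  -- an idempotent
  let κ : redPart (D.endo X) ℓ := ⟨k.map (algebraMap ℤ (ZMod ℓ)), k, hkE, rfl⟩
  obtain ⟨e, he, hI⟩ := IsSemisimpleRing.ideal_eq_span_idempotent (Ideal.span {κ})
  obtain ⟨a, ha⟩ := Ideal.mem_span_singleton'.mp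
    (show e ∈ Ideal.span {κ} by rw [hI]; exact Ideal.mem_span_singleton_self e)
  obtain ⟨b, hb⟩ := Ideal.mem_span_singleton'.mp
    (show κ ∈ Ideal.span {e} by rw [← hI]; exact Ideal.mem_span_singleton_self κ)
  have ha' : (e : Matrix (Fin (D.rank X)) (Fin (D.rank X)) (ZMod ℓ)) =
      a.1 * k.map (algebraMap ℤ (ZMod ℓ)) := (congrArg Subtype.val ha).symm
  have hb' : k.map (algebraMap ℤ (ZMod ℓ)) = b.1 * e.1 := (congrArg Subtype.val hb).symm
  have he' : e.1 * e.1 = e.1 := congrArg Subtype.val he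
  have h8 : ∀ v, v ∈ W ↔ e.1 *ᵥ v = 0 := by
    intro v
    rw [h7]
    constructor
    · intro h0
      rw [ha', ← mulVec_mulVec, h0, mulVec_zero]
    · intro h0
      rw [hb', ← mulVec_mulVec, h0, mulVec_zero]
  obtain ⟨f', hf', hef⟩ := e.2
  refine ⟨LinearMap.range e.1.mulVecLin, ?_, ?_⟩
  · rintro s _ ⟨v, rfl⟩
    refine ⟨D.res X ℓ s *ᵥ v, ?_⟩
    change e.1 *ᵥ (D.res X ℓ s *ᵥ v) = D.res X ℓ s *ᵥ (e.1 *ᵥ v)
    rw [mulVec_mulVec, mulVec_mulVec, hef, red_comm X ℓ f' hf' s]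
  · rw [isCompl_iff]
    constructor
    · rw [Submodule.disjoint_def]
      rintro _ hv ⟨v, rfl⟩
      rw [h8] at hv
      change e.1 *ᵥ (e.1 *ᵥ v) = 0 at hv
      rw [mulVec_mulVec, he'] at hv
      exact hv
    · rw [Submodule.codisjoint_iff_exists_add_eq]
      intro v
      refine ⟨v - e.1 *ᵥ v, e.1 *ᵥ v, ?_, ⟨v, rfl⟩, sub_add_cancel _ _⟩
      rw [h8, mulVec_sub, mulVec_mulVec, he', sub_self]

end Pool.Agent.Q55.SF
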