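import Pool.Agent.Q55.SF.Tate

/-! # The endomorphisms of the Galois representations without semisimplicity of the endomorphisms -/

set_option autoImplicit false

namespace Pool.Agent.Q55.SF

open Matrix

variable {G : Type} [Group G] (D : Motives G)

/-- The endomorphisms of the representation `V_ℓ` are the `ℚ_ℓ`-linear combinations of the elements
of the bicommutant of the algebra `End (X)` in the algebra of rational matrices. -/
def Motives.BicommutantTate (X : D.Obj) (ℓ : ℕ) [Fact ℓ.Prime] : Prop :=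
  ∀ α : Matrix (Fin (D.rank X)) (Fin (D.rank X)) ℚ_[ℓ],
    (∀ g : G, α * D.act X ℓ g = D.act X ℓ g * α) ↔
      α ∈ Submodule.span ℚ_[ℓ] ((fun f : Matrix (Fin (D.rank X)) (Fin (D.rank X)) ℚ =>
        f.map (algebraMap ℚ ℚ_[ℓ])) '' {x | ∀ c : Matrix (Fin (D.rank X)) (Fin (D.rank X)) ℚ,
          (∀ f ∈ D.Hom X X, c * f = f * c) → x * c = c * x})

variable {D}

theorem bicommutantTate_of_isOpen (X : D.Obj) (ho : D.IsOpen X) (ℓ : ℕ) [Fact ℓ.Prime] :
    D.BicommutantTate X ℓ := by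
  intro α
  constructor
  · intro hα
    obtain ⟨k, hk⟩ := ho.1 ℓ
    refine base_change ℚ_[ℓ] {c | ∀ e ∈ D.Hom X X, c * e = e * c} α ?_
    intro c hc
    obtain ⟨j, c', hc', e⟩ := exists_integral X ℓ c hc
    have h2 := commute_galoisAlgebra X ℓ α hα _ (hk c' hc')
    have e2 : ((ℓ : ℤ_[ℓ]) ^ k • c').map (algebraMap ℤ_[ℓ] ℚ_[ℓ]) =
        ((ℓ : ℚ_[ℓ]) ^ k * (ℓ : ℚ_[ℓ]) ^ j) • c.map (algebraMap ℚ ℚ_[ℓ]) := by
      rw [mul_smul, ← e]
      ext x y
      simp only [Matrix.map_apply, Matrix.smul_apply, smul_eq_mul, map_mul, map_pow, map_natCast]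
    rw [e2, Matrix.mul_smul, Matrix.smul_mul] at h2
    exact smul_right_injective _ (mul_ne_zero (pow_ne_zero _ p_ne) (pow_ne_zero _ p_ne)) h2
  · intro hα g
    have h3 := base_change ℚ_[ℓ] (D.Hom X X : Set (Matrix (Fin (D.rank X)) (Fin (D.rank X)) ℚ))
      (D.act X ℓ g) (fun c hc => (D.comm X X c hc ℓ g).symm)
    have key : ∀ f : Matrix (Fin (D.rank X)) (Fin (D.rank X)) ℚ,
        (∀ c : Matrix (Fin (D.rank X)) (Fin (D.rank X)) ℚ,
          (∀ f ∈ D.Hom X X, c * f = f * c) → f * c = c * f) →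
        ∀ y ∈ Submodule.span ℚ_[ℓ] ((fun f : Matrix (Fin (D.rank X)) (Fin (D.rank X)) ℚ =>
          f.map (algebraMap ℚ ℚ_[ℓ])) '' {x | ∀ c ∈ (D.Hom X X : Set
            (Matrix (Fin (D.rank X)) (Fin (D.rank X)) ℚ)), x * c = c * x}),
          f.map (algebraMap ℚ ℚ_[ℓ]) * y = y * f.map (algebraMap ℚ ℚ_[ℓ]) := by
      intro f hf y hy
      induction hy using Submodule.span_induction with
      | mem y hy =>
        obtain ⟨c, hc, rfl⟩ := hy
        beta_reduce
        rw [← Matrix.map_mul, ← Matrix.map_mul, hf c hc]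
      | zero => rw [Matrix.mul_zero, Matrix.zero_mul]
      | add y z _ _ hy hz => rw [Matrix.mul_add, Matrix.add_mul, hy, hz]
      | smul r y _ hy => rw [Matrix.mul_smul, Matrix.smul_mul, hy]
    induction hα using Submodule.span_induction with
    | mem x hx =>
      obtain ⟨f, hf, rfl⟩ := hx
      exact key f hf _ h3
    | zero => rw [Matrix.mul_zero, Matrix.zero_mul]
    | add y z _ _ hy hz => rw [Matrix.mul_add, Matrix.add_mul, hy, hz]
    | smul r y _ hy => rw [Matrix.mul_smul, Matrix.smul_mul, hy]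

end Pool.Agent.Q55.SF
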